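import Mathlib

/-!
The even Fourier coefficients of `t ↦ cos (r cos t)` (values of Bessel functions): large indices, and
two coefficients whose indices differ by two.
-/

open MeasureTheory Filter Topology Set Complex

namespace ONE

noncomputable section

/-- the terms of the exponential series -/
def tm (c : ℂ) (n : ℕ) : ℂ := c ^ n / (n.factorial : ℂ)

lemma hasSum_tm (z : ℂ) : HasSum (tm z) (Complex.exp z) := by
  have h := NormedSpace.expSeries_div_hasSum_exp z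
  rwa [← Complex.exp_eq_exp_ℂ] at h

lemma summable_tm (z : ℂ) : Summable fun n : ℕ => ‖tm z n‖ :=
  NormedSpace.norm_expSeries_div_summable z

lemma tm_mul (c d : ℂ) (n : ℕ) : tm (c * d) n = tm c n * d ^ n := by
  unfold tm
  rw [mul_pow]
  ring

/-- the terms of the double series -/
def dbl (c : ℂ) (k : ℕ) (p : ℕ × ℕ) (t : ℝ) : ℂ :=
  tm c p.1 * tm c p.2 * Complex.exp ((((p.1 : ℤ) - (p.2 : ℤ) - k : ℤ) : ℂ) * (t * I))

lemma exp_unit (n : ℤ) (t : ℝ) : ‖Complex.exp ((n : ℂ) * (t * I))‖ = 1 := by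
  have : (n : ℂ) * (t * I) = ((n * t : ℝ) : ℂ) * I := by push_cast; ring
  rw [this, Complex.norm_exp_ofReal_mul_I]

lemma norm_dbl (c : ℂ) (k : ℕ) (p : ℕ × ℕ) (t : ℝ) :
    ‖dbl c k p t‖ = ‖tm c p.1‖ * ‖tm c p.2‖ := by
  unfold dbl
  rw [norm_mul, exp_unit, mul_one, norm_mul]

lemma summable_bound (c : ℂ) : Summable fun p : ℕ × ℕ => ‖tm c p.1‖ * ‖tm c p.2‖ :=
  Summable.mul_of_nonneg (summable_tm c) (summable_tm c) (fun _ => norm_nonneg _)
    fun _ => norm_nonneg _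

lemma two_cos (t : ℝ) : Complex.exp (t * I) + Complex.exp (-(t * I)) = 2 * (Real.cos t : ℂ) := by
  rw [Complex.ofReal_cos, Complex.cos, neg_mul]
  ring

lemma hasSum_dbl (c : ℂ) (k : ℕ) (t : ℝ) :
    HasSum (fun p => dbl c k p t)
      (Complex.exp (2 * c * Real.cos t) * Complex.exp (-(k * (t * I)))) := by
  have h1 := hasSum_tm (c * Complex.exp (t * I))
  have h2 := hasSum_tm (c * Complex.exp (-(t * I)))
  have h5 : Summable fun p : ℕ × ℕ => tm (c * Complex.exp (t * I)) p.1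
      * tm (c * Complex.exp (-(t * I))) p.2 := by
    refine Summable.of_norm ?_
    simp only [norm_mul]
    exact Summable.mul_of_nonneg (summable_tm _) (summable_tm _) (fun _ => norm_nonneg _)
      fun _ => norm_nonneg _
  have h3 := h1.mul h2 h5
  have h4 := h3.mul_right (Complex.exp (-(k * (t * I))))
  have e : Complex.exp (c * Complex.exp (t * I)) * Complex.exp (c * Complex.exp (-(t * I)))
      = Complex.exp (2 * c * Real.cos t) := by
    rw [← Complex.exp_add, ← mul_add, two_cos]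
    congr 1
    ring
  rw [e] at h4
  have e2 : (fun p => dbl c k p t) = fun p : ℕ × ℕ =>
      tm (c * Complex.exp (t * I)) p.1 * tm (c * Complex.exp (-(t * I))) p.2
        * Complex.exp (-(k * (t * I))) := by
    funext p
    unfold dbl
    rw [tm_mul, tm_mul, ← Complex.exp_nat_mul, ← Complex.exp_nat_mul]
    have e3 : Complex.exp ((((p.1 : ℤ) - (p.2 : ℤ) - k : ℤ) : ℂ) * (t * I))
        = Complex.exp ((p.1 : ℂ) * (t * I)) * Complex.exp ((p.2 : ℂ) * -(t * I))
          * Complex.exp (-(k * (t * I))) := by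
      rw [← Complex.exp_add, ← Complex.exp_add]
      congr 1
      push_cast
      ring
    rw [e3]
    ring
  rw [e2]
  exact h4

/-- the integrals of the exponentials -/
lemma int_exp (n : ℤ) :
    ∫ t in (0 : ℝ)..(2 * Real.pi), Complex.exp ((n : ℂ) * (t * I))
      = if n = 0 then (2 * Real.pi : ℂ) else 0 := by
  split_ifs with h
  · subst h
    simp
  · have hc : ((n : ℂ) * I) ≠ 0 := mul_ne_zero (by exact_mod_cast h) I_ne_zero
    have e : ∀ t : ℝ, (n : ℂ) * (t * I) = ((n : ℂ) * I) * (t : ℂ) := fun t => by ring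
    simp only [e]
    rw [integral_exp_mul_complex hc]
    have e1 : Complex.exp ((n : ℂ) * I * ((2 * Real.pi : ℝ) : ℂ)) = 1 := by
      rw [Complex.exp_eq_one_iff]
      exact ⟨n, by push_cast; ring⟩
    rw [e1]
    simp

/-- the integrals of the terms -/
lemma int_dbl (c : ℂ) (k : ℕ) (p : ℕ × ℕ) :
    ∫ t in (0 : ℝ)..(2 * Real.pi), dbl c k p t
      = if p.1 = p.2 + k then (2 * Real.pi : ℂ) * (tm c p.1 * tm c p.2) else 0 := by
  unfold dbl
  rw [intervalIntegral.integral_const_mul, int_exp]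
  by_cases h : p.1 = p.2 + k
  · rw [if_pos h, if_pos (by omega)]
    ring
  · rw [if_neg h, if_neg (by omega), mul_zero]

lemma cont_dbl (c : ℂ) (k : ℕ) (p : ℕ × ℕ) : Continuous (dbl c k p) := by
  unfold dbl
  fun_prop

/-- **the Fourier coefficients of `exp (2 c cos t)`** -/
theorem hasSum_int (c : ℂ) (k : ℕ) :
    HasSum (fun b : ℕ => (2 * Real.pi : ℂ) * (tm c (b + k) * tm c b))
      (∫ t in (0 : ℝ)..(2 * Real.pi), Complex.exp (2 * c * Real.cos t)
        * Complex.exp (-(k * (t * I)))) := by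
  have h1 := intervalIntegral.hasSum_integral_of_dominated_convergence
    (μ := volume) (a := (0 : ℝ)) (b := 2 * Real.pi)
    (F := fun p : ℕ × ℕ => dbl c k p)
    (f := fun t => Complex.exp (2 * c * Real.cos t) * Complex.exp (-(k * (t * I))))
    (fun p _ => ‖tm c p.1‖ * ‖tm c p.2‖)
    (fun p => (cont_dbl c k p).aestronglyMeasurable)
    (fun p => Eventually.of_forall fun t _ => (norm_dbl c k p t).le)
    (Eventually.of_forall fun t _ => summable_bound c)
    (by simp)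
    (Eventually.of_forall fun t _ => hasSum_dbl c k t)
  simp only [int_dbl] at h1
  have hinj : Function.Injective fun b : ℕ => ((b + k, b) : ℕ × ℕ) := fun a b h =>
    (Prod.mk.inj h).2
  have h3 := (hinj.hasSum_iff (f := fun p : ℕ × ℕ => if p.1 = p.2 + k then
          (2 * Real.pi : ℂ) * (tm c p.1 * tm c p.2) else 0) (fun p hp => if_neg fun h => hp
          ⟨p.2, by rw [← Prod.mk.eta (p := p), h]⟩)).2 h1
  have e : ((fun p : ℕ × ℕ => if p.1 = p.2 + k then
          (2 * Real.pi : ℂ) * (tm c p.1 * tm c p.2) else 0) ∘ fun b : ℕ => ((b + k, b) : ℕ × ℕ))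
      = fun b : ℕ => (2 * Real.pi : ℂ) * (tm c (b + k) * tm c b) := by
    funext b
    simp
  rw [e] at h3
  exact h3

/-- the terms of the series of the Bessel function `J_{2k}` -/
def bt (k : ℕ) (r : ℝ) (b : ℕ) : ℝ := (r / 2) ^ (2 * b + 2 * k) / ((b + 2 * k).factorial * b.factorial)

lemma tm_bt (k : ℕ) (r : ℝ) (ε : ℂ) (hε : ε ^ 2 = -1) (b : ℕ) :
    tm (ε * (r / 2 : ℝ)) (b + 2 * k) * tm (ε * (r / 2 : ℝ)) b
      = (-1) ^ k * (((-1) ^ b * bt k r b : ℝ) : ℂ) := by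
  unfold tm bt
  have h1 : (ε * ((r / 2 : ℝ) : ℂ)) ^ (b + 2 * k) * (ε * ((r / 2 : ℝ) : ℂ)) ^ b
      = (-1) ^ (b + k) * ((r / 2 : ℝ) : ℂ) ^ (2 * b + 2 * k) := by
    rw [← pow_add, mul_pow, ← hε, ← pow_mul]
    congr 2 <;> ring
  rw [div_mul_div_comm, h1]
  push_cast
  rw [pow_add]
  ring

/-- **the even Fourier coefficients of `cos (r cos t)`** -/
theorem hasSum_cos (k : ℕ) (r : ℝ) :
    HasSum (fun b : ℕ => (2 * Real.pi : ℂ) * ((-1) ^ k * (((-1) ^ b * bt k r b : ℝ) : ℂ)))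
      (∫ t in (0 : ℝ)..(2 * Real.pi), (Real.cos (r * Real.cos t) : ℂ)
        * Complex.exp (-((2 * k : ℕ) * (t * I)))) := by
  have h1 := hasSum_int (I * (r / 2 : ℝ)) (2 * k)
  have h2 := hasSum_int (-I * (r / 2 : ℝ)) (2 * k)
  simp only [tm_bt k r I I_sq] at h1
  simp only [tm_bt k r (-I) (by rw [neg_sq, I_sq])] at h2
  have h3 := (h1.add h2).div_const 2
  have e1 : (fun b : ℕ => ((2 * Real.pi : ℂ) * ((-1) ^ k * (((-1) ^ b * bt k r b : ℝ) : ℂ))
      + (2 * Real.pi : ℂ) * ((-1) ^ k * (((-1) ^ b * bt k r b : ℝ) : ℂ))) / 2)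
      = fun b : ℕ => (2 * Real.pi : ℂ) * ((-1) ^ k * (((-1) ^ b * bt k r b : ℝ) : ℂ)) := by
    funext b
    ring
  rw [e1] at h3
  have hc : ∀ c : ℂ, IntervalIntegrable (fun t : ℝ => Complex.exp (2 * c * Real.cos t)
      * Complex.exp (-((2 * k : ℕ) * (t * I)))) volume 0 (2 * Real.pi) := fun c =>
    (by fun_prop : Continuous fun t : ℝ => Complex.exp (2 * c * Real.cos t)
      * Complex.exp (-((2 * k : ℕ) * (t * I)))).intervalIntegrable _ _
  rw [← intervalIntegral.integral_add (hc _) (hc _), ← intervalIntegral.integral_div] at h3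
  have e2 : ∀ t : ℝ, (Complex.exp (2 * (I * (r / 2 : ℝ)) * Real.cos t)
      * Complex.exp (-((2 * k : ℕ) * (t * I))) + Complex.exp (2 * (-I * (r / 2 : ℝ)) * Real.cos t)
      * Complex.exp (-((2 * k : ℕ) * (t * I)))) / 2
      = (Real.cos (r * Real.cos t) : ℂ) * Complex.exp (-((2 * k : ℕ) * (t * I))) := by
    intro t
    have e5 : (Real.cos (r * Real.cos t) : ℂ) = (Complex.exp (((r * Real.cos t : ℝ) : ℂ) * I)
        + Complex.exp (-((r * Real.cos t : ℝ) : ℂ) * I)) / 2 := by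
      rw [Complex.ofReal_cos, Complex.cos]
    have e3 : 2 * (I * (r / 2 : ℝ)) * Real.cos t = ((r * Real.cos t : ℝ) : ℂ) * I := by
      push_cast; ring
    have e4 : 2 * (-I * (r / 2 : ℝ)) * Real.cos t = -((r * Real.cos t : ℝ) : ℂ) * I := by
      push_cast; ring
    rw [e3, e4, e5]
    ring
  simp only [e2] at h3
  exact h3

lemma bt_pos (k : ℕ) {r : ℝ} (hr : 0 < r) (b : ℕ) : 0 < bt k r b := by
  unfold bt
  positivity

lemma bt_succ (k : ℕ) (r : ℝ) (b : ℕ) :
    bt k r (b + 1) = bt k r b * ((r / 2) ^ 2 / ((b + 1 + 2 * k) * (b + 1))) := by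
  unfold bt
  have e1 : (b + 1 + 2 * k).factorial = (b + 2 * k + 1) * (b + 2 * k).factorial := by
    rw [show b + 1 + 2 * k = (b + 2 * k) + 1 by ring, Nat.factorial_succ]
  rw [e1, Nat.factorial_succ]
  have h1 : ((b + 2 * k).factorial : ℝ) ≠ 0 := by positivity
  have h2 : (b.factorial : ℝ) ≠ 0 := by positivity
  push_cast
  have h3 : ((b : ℝ) + 1 + 2 * k) ≠ 0 := by positivity
  have h4 : ((b : ℝ) + 2 * k + 1) ≠ 0 := by positivity
  have h5 : ((b : ℝ) + 1) ≠ 0 := by positivity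
  rw [show 2 * (b + 1) + 2 * k = (2 * b + 2 * k) + 2 by ring, pow_add]
  field_simp
  ring

lemma bt_ratio (k : ℕ) {r : ℝ} (hr3 : (r / 2) ^ 2 ≤ 3 / 4 * (1 + 2 * k)) (b : ℕ) :
    (r / 2) ^ 2 / (((b : ℝ) + 1 + 2 * k) * (b + 1)) ≤ 3 / 4 := by
  have hk' : (0 : ℝ) ≤ k := Nat.cast_nonneg k
  have hb : (0 : ℝ) ≤ b := Nat.cast_nonneg b
  rw [div_le_iff₀ (by positivity)]
  nlinarith [mul_nonneg hb hb, mul_nonneg hb hk']

lemma bt_anti (k : ℕ) {r : ℝ} (hr : 0 < r) (hr3 : (r / 2) ^ 2 ≤ 3 / 4 * (1 + 2 * k)) :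
    Antitone (bt k r) := by
  refine antitone_nat_of_succ_le fun b => ?_
  rw [bt_succ]
  have h1 := bt_ratio k hr3 b
  have h2 := bt_pos k hr b
  nlinarith

/-- **the even Fourier coefficients of `cos (r cos t)` of large index do not vanish.** -/
theorem bes_ne (k : ℕ) {r : ℝ} (hr : 0 < r) (hr3 : (r / 2) ^ 2 ≤ 3 / 4 * (1 + 2 * k)) :
    ∫ t in (0 : ℝ)..(2 * Real.pi), (Real.cos (r * Real.cos t) : ℂ)
      * Complex.exp (-((2 * k : ℕ) * (t * I))) ≠ 0 := by
  have h1 := hasSum_cos k r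
  set v := ∫ t in (0 : ℝ)..(2 * Real.pi), (Real.cos (r * Real.cos t) : ℂ)
      * Complex.exp (-((2 * k : ℕ) * (t * I))) with hv
  have hpi : (2 * Real.pi : ℂ) ≠ 0 := by
    have := Real.pi_ne_zero
    exact_mod_cast mul_ne_zero two_ne_zero this
  have h2 := (h1.mul_left ((2 * Real.pi : ℂ)⁻¹ * (-1) ^ k))
  have e1 : (fun b : ℕ => ((2 * Real.pi : ℂ)⁻¹ * (-1) ^ k) * ((2 * Real.pi : ℂ)
      * ((-1) ^ k * (((-1) ^ b * bt k r b : ℝ) : ℂ)))) = fun b : ℕ => (((-1) ^ b * bt k r b : ℝ) : ℂ) := by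
    funext b
    have h3 : ((-1 : ℂ) ^ k) * (-1) ^ k = 1 := by
      rw [← mul_pow]; norm_num
    calc ((2 * Real.pi : ℂ)⁻¹ * (-1) ^ k) * ((2 * Real.pi : ℂ)
          * ((-1) ^ k * (((-1) ^ b * bt k r b : ℝ) : ℂ)))
        = ((2 * Real.pi : ℂ)⁻¹ * (2 * Real.pi : ℂ)) * (((-1 : ℂ) ^ k) * (-1) ^ k)
          * (((-1) ^ b * bt k r b : ℝ) : ℂ) := by ring
      _ = _ := by rw [inv_mul_cancel₀ hpi, h3, one_mul, one_mul]
  rw [e1] at h2
  intro h0
  rw [h0, mul_zero] at h2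
  have h4 : HasSum (fun b : ℕ => (-1 : ℝ) ^ b * bt k r b) 0 := by
    refine Complex.hasSum_ofReal.1 ?_
    rw [Complex.ofReal_zero]
    exact h2
  have h5 := (bt_anti k hr hr3).alternating_series_le_tendsto h4.tendsto_sum_nat 1
  rw [mul_one, Finset.sum_range_succ, Finset.sum_range_succ, Finset.sum_range_zero] at h5
  have h6 := bt_ratio k hr3 0
  have h7 := bt_pos k hr 0
  have h8 := bt_succ k r 0
  simp only [zero_add, pow_zero, one_mul, pow_one] at h5
  rw [zero_add] at h8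
  rw [h8] at h5
  nlinarith

/-! ### two coefficients whose indices differ by two -/

/-- the Fourier coefficients of `exp (2 c cos t)` -/
def In (c : ℂ) (n : ℕ) : ℂ := ∫ t in (0 : ℝ)..(2 * Real.pi), Complex.exp (2 * c * Real.cos t)
  * Complex.exp (-(n * (t * I)))

lemma tm_succ (c : ℂ) (n : ℕ) : ((n : ℂ) + 1) * tm c (n + 1) = c * tm c n := by
  unfold tm
  rw [Nat.factorial_succ, pow_succ]
  have h1 : (n.factorial : ℂ) ≠ 0 := by exact_mod_cast n.factorial_ne_zero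
  have h2 : ((n : ℂ) + 1) ≠ 0 := by exact_mod_cast n.succ_ne_zero
  push_cast
  field_simp

/-- the recurrence -/
theorem In_rec (c : ℂ) (n : ℕ) : ((n : ℂ) + 1) * In c (n + 1) = c * (In c n - In c (n + 2)) := by
  have h0 : HasSum _ (In c n) := hasSum_int c n
  have h1 : HasSum _ (In c (n + 1)) := hasSum_int c (n + 1)
  have h2 : HasSum _ (In c (n + 2)) := hasSum_int c (n + 2)
  -- the sum with the weight `b`
  have h3 : HasSum (fun b : ℕ => (b : ℂ) * ((2 * Real.pi : ℂ) * (tm c (b + (n + 1)) * tm c b)))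
      (c * In c (n + 2)) := by
    rw [← hasSum_nat_add_iff' 1]
    simp only [Finset.range_one, Finset.sum_singleton, Nat.cast_zero, zero_mul, sub_zero]
    refine (h2.mul_left c).congr_fun ?_ |> fun h => h
    intro b
    have e1 := tm_succ c b
    have e2 : b + 1 + (n + 1) = b + (n + 2) := by ring
    rw [e2]
    push_cast
    linear_combination (2 * Real.pi : ℂ) * tm c (b + (n + 2)) * e1
  have h4 := (h0.mul_left c).sub h3
  have h5 := h1.mul_left ((n : ℂ) + 1)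
  have e : (fun b : ℕ => c * ((2 * Real.pi : ℂ) * (tm c (b + n) * tm c b))
      - (b : ℂ) * ((2 * Real.pi : ℂ) * (tm c (b + (n + 1)) * tm c b)))
      = fun b : ℕ => ((n : ℂ) + 1) * ((2 * Real.pi : ℂ) * (tm c (b + (n + 1)) * tm c b)) := by
    funext b
    have e1 := tm_succ c (b + n)
    have e2 : b + (n + 1) = b + n + 1 := by ring
    rw [e2]
    push_cast at e1 ⊢
    linear_combination (-(2 * Real.pi : ℂ) * tm c b) * e1
  rw [e] at h4
  have h6 := h5.unique h4
  rw [h6]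
  ring

/-- two consecutive zeros propagate -/
lemma In_zero {c : ℂ} (hc : c ≠ 0) {n : ℕ} (h0 : In c n = 0) (h1 : In c (n + 1) = 0) (j : ℕ) :
    In c (n + j) = 0 ∧ In c (n + j + 1) = 0 := by
  induction j with
  | zero => exact ⟨h0, h1⟩
  | succ j ih =>
    obtain ⟨i1, i2⟩ := ih
    refine ⟨i2, ?_⟩
    have h := In_rec c (n + j)
    rw [i1, i2, mul_zero, zero_sub, mul_neg, eq_comm, neg_eq_zero] at h
    rcases mul_eq_zero.1 h with h' | h'
    · exact absurd h' hc
    · exact h'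

lemma cos_eq_In (k : ℕ) (r : ℝ) :
    ∫ t in (0 : ℝ)..(2 * Real.pi), (Real.cos (r * Real.cos t) : ℂ)
      * Complex.exp (-((2 * k : ℕ) * (t * I))) = In (I * (r / 2 : ℝ)) (2 * k) := by
  have h1 : HasSum _ (In (I * (r / 2 : ℝ)) (2 * k)) := hasSum_int (I * (r / 2 : ℝ)) (2 * k)
  simp only [tm_bt k r I I_sq] at h1
  exact (hasSum_cos k r).unique h1

/-- **two even coefficients whose indices differ by two do not both vanish.** -/
theorem bes_two (k : ℕ) {r : ℝ} (hr : 0 < r)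
    (h0 : ∫ t in (0 : ℝ)..(2 * Real.pi), (Real.cos (r * Real.cos t) : ℂ)
      * Complex.exp (-((2 * k : ℕ) * (t * I))) = 0) :
    ∫ t in (0 : ℝ)..(2 * Real.pi), (Real.cos (r * Real.cos t) : ℂ)
      * Complex.exp (-((2 * (k + 1) : ℕ) * (t * I))) ≠ 0 := by
  intro h1
  rw [cos_eq_In] at h0 h1
  have hc : I * ((r / 2 : ℝ) : ℂ) ≠ 0 := by
    refine mul_ne_zero I_ne_zero ?_
    exact_mod_cast (by positivity : (r / 2 : ℝ) ≠ 0)
  have h2 := In_rec (I * (r / 2 : ℝ)) (2 * k)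
  have e : 2 * (k + 1) = 2 * k + 2 := by ring
  rw [e] at h1
  rw [h0, h1, sub_zero, mul_zero] at h2
  have h3 : In (I * (r / 2 : ℝ)) (2 * k + 1) = 0 := by
    rcases mul_eq_zero.1 h2 with h' | h'
    · exfalso
      have : ((2 * k : ℕ) : ℂ) + 1 ≠ 0 := by exact_mod_cast (2 * k).succ_ne_zero
      exact this h'
    · exact h'
  obtain ⟨N, hN⟩ := exists_nat_ge ((r / 2) ^ 2)
  have h4 := (In_zero hc h0 h3 (2 * N)).1
  have e2 : 2 * k + 2 * N = 2 * (k + N) := by ring
  rw [e2, ← cos_eq_In] at h4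
  refine bes_ne (k + N) hr ?_ h4
  push_cast
  have : (0 : ℝ) ≤ k := Nat.cast_nonneg k
  nlinarith [sq_nonneg (r / 2)]

end

end ONE
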