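import Pool.Agent.NFP.Defs
import Pool.Agent.ONE.Bes

/-!
Measures on the circle: the covariance function of a rotated frame, its mean square, and the
Fourier coefficients of the measure.
-/

open Complex MeasureTheory Filter Topology Set

namespace ONE

open NFP

noncomputable section

/-- the Fourier coefficients of `t ↦ cos (r cos t)` -/
def Fk (k : ℕ) (r : ℝ) : ℂ :=
  ∫ t in (0 : ℝ)..(2 * Real.pi), (Real.cos (r * Real.cos t) : ℂ) * Complex.exp (-(k * (t * I)))

/-- the Fourier coefficients of `θ ↦ cos Re (e^{iθ} v)` -/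
def Jk (k : ℕ) (v : ℂ) : ℂ :=
  ∫ t in (0 : ℝ)..(2 * Real.pi), (Real.cos ((Complex.exp (t * I) * v).re) : ℂ)
    * Complex.exp (-(k * (t * I)))

lemma exp_per (k : ℕ) (t : ℝ) :
    Complex.exp (-(k * (((t + 2 * Real.pi : ℝ) : ℂ) * I))) = Complex.exp (-(k * (t * I))) := by
  rw [Complex.exp_eq_exp_iff_exists_int]
  exact ⟨-k, by push_cast; ring⟩

lemma re_rot (v : ℂ) (t : ℝ) :
    (Complex.exp (t * I) * v).re = ‖v‖ * Real.cos (t + Complex.arg v) := by
  have h : v = (‖v‖ : ℂ) * Complex.exp (Complex.arg v * I) := (Complex.norm_mul_exp_arg_mul_I v).symm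
  conv_lhs => rw [h]
  have e : Complex.exp (t * I) * ((‖v‖ : ℂ) * Complex.exp (Complex.arg v * I))
      = (‖v‖ : ℂ) * Complex.exp (((t + Complex.arg v : ℝ) : ℂ) * I) := by
    rw [mul_left_comm, ← Complex.exp_add]
    congr 2
    push_cast
    ring
  rw [e, Complex.re_ofReal_mul, Complex.exp_ofReal_mul_I_re]

/-- the integrals over a period -/
lemma period (k : ℕ) (r β : ℝ) :
    ∫ t in (0 : ℝ)..(2 * Real.pi), (Real.cos (r * Real.cos (t + β)) : ℂ)
      * Complex.exp (-(k * (((t + β : ℝ) : ℂ) * I))) = Fk k r := by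
  have h1 := intervalIntegral.integral_comp_add_right
    (fun t : ℝ => (Real.cos (r * Real.cos t) : ℂ) * Complex.exp (-(k * (t * I)))) β
    (a := 0) (b := 2 * Real.pi)
  rw [h1]
  have hper : Function.Periodic (fun t : ℝ => (Real.cos (r * Real.cos t) : ℂ)
      * Complex.exp (-(k * (t * I)))) (2 * Real.pi) := by
    intro t
    beta_reduce
    rw [exp_per, Real.cos_add_two_pi]
  have h2 := hper.intervalIntegral_add_eq β 0
  rw [zero_add] at h2 ⊢
  rw [show 2 * Real.pi + β = β + 2 * Real.pi by ring]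
  exact h2

theorem Jk_eq (k : ℕ) (v : ℂ) : (‖v‖ : ℂ) ^ k * Jk k v = v ^ k * Fk k ‖v‖ := by
  have h : v = (‖v‖ : ℂ) * Complex.exp (Complex.arg v * I) := (Complex.norm_mul_exp_arg_mul_I v).symm
  have e1 : Jk k v = Complex.exp (k * (Complex.arg v * I)) * Fk k ‖v‖ := by
    rw [← period k ‖v‖ (Complex.arg v), ← intervalIntegral.integral_const_mul]
    unfold Jk
    refine intervalIntegral.integral_congr fun t _ => ?_
    beta_reduce
    rw [re_rot]
    have e2 : Complex.exp (-(k * (t * I))) = Complex.exp (k * (Complex.arg v * I))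
        * Complex.exp (-(k * (((t + Complex.arg v : ℝ) : ℂ) * I))) := by
      rw [← Complex.exp_add]
      congr 1
      push_cast
      ring
    rw [e2]
    ring
  have e3 : v ^ k = (‖v‖ : ℂ) ^ k * Complex.exp (k * (Complex.arg v * I)) := by
    conv_lhs => rw [h]
    rw [mul_pow, ← Complex.exp_nat_mul]
  rw [e1, e3]
  ring

lemma norm_S1 (w : S1) : ‖(w : ℂ)‖ = 1 := by
  have := w.2
  rwa [mem_sphere_zero_iff_norm] at this

lemma conj_S1 (w : S1) : (starRingEnd ℂ) (w : ℂ) = (w : ℂ)⁻¹ := by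
  rw [Complex.inv_def, Complex.normSq_eq_norm_sq, norm_S1]
  simp

lemma S1_ne (w : S1) : (w : ℂ) ≠ 0 := by
  intro h
  have := norm_S1 w
  rw [h, norm_zero] at this
  exact zero_ne_one this

variable (s : Measure S1) [IsFiniteMeasure s]

/-- the covariance in the rotated frame -/
def gk (s : Measure S1) (x : ℂ) (θ : ℝ) : ℝ := dirK s (Complex.exp (θ * I) * x)

lemma int_cos (x : ℂ) : Integrable (fun w : S1 => Real.cos (x * (starRingEnd ℂ) (w : ℂ)).re) s := by
  refine Integrable.of_bound (C := 1) (Continuous.aestronglyMeasurable (by fun_prop)) ?_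
  exact Eventually.of_forall fun w => Real.abs_cos_le_one _

omit [IsFiniteMeasure s] in
lemma dirK_zero : dirK s 0 = (s univ).toReal := by
  unfold dirK
  simp [Measure.real]

lemma abs_dirK (x : ℂ) : |dirK s x| ≤ (s univ).toReal := by
  unfold dirK
  have h := norm_integral_le_of_norm_le_const (μ := s) (C := 1)
    (f := fun w : S1 => Real.cos (x * (starRingEnd ℂ) (w : ℂ)).re)
    (Eventually.of_forall fun w => Real.abs_cos_le_one _)
  rw [one_mul] at h
  exact h

lemma cont_dirK : Continuous (dirK s) := by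
  unfold dirK
  refine continuous_of_dominated (bound := fun _ => 1) (fun x => ?_) (fun x => ?_)
    (integrable_const _) ?_
  · exact (int_cos s x).aestronglyMeasurable
  · exact Eventually.of_forall fun w => Real.abs_cos_le_one _
  · exact Eventually.of_forall fun w => by fun_prop

lemma cont_gk (x : ℂ) : Continuous (gk s x) := by
  unfold gk
  exact (cont_dirK s).comp (by fun_prop)

/-- **the Fourier coefficients of the covariance in the rotated frame** -/
theorem int_gk (k : ℕ) (x : ℂ) :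
    (‖x‖ : ℂ) ^ k * ∫ θ in (0 : ℝ)..(2 * Real.pi), (gk s x θ : ℂ) * Complex.exp (-(k * (θ * I)))
      = x ^ k * Fk k ‖x‖ * cof s k := by
  have hpi : (0 : ℝ) ≤ 2 * Real.pi := by have := Real.pi_pos; positivity
  have h1 : ∀ θ : ℝ, (gk s x θ : ℂ) * Complex.exp (-(k * (θ * I)))
      = ∫ w : S1, (Real.cos ((Complex.exp (θ * I) * (x * (starRingEnd ℂ) (w : ℂ))).re) : ℂ)
        * Complex.exp (-(k * (θ * I))) ∂s := by
    intro θ
    unfold gk dirK
    have e : ((∫ w : S1, Real.cos (Complex.exp (θ * I) * x * (starRingEnd ℂ) (w : ℂ)).re ∂s : ℝ) : ℂ)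
        = ∫ w : S1, ((Real.cos (Complex.exp (θ * I) * x * (starRingEnd ℂ) (w : ℂ)).re : ℝ) : ℂ) ∂s :=
      (integral_ofReal (𝕜 := ℂ) (μ := s)
        (f := fun w : S1 => Real.cos (Complex.exp (θ * I) * x * (starRingEnd ℂ) (w : ℂ)).re)).symm
    rw [e, ← integral_mul_const]
    refine integral_congr_ae (Eventually.of_forall fun w => ?_)
    beta_reduce
    rw [mul_assoc (Complex.exp (θ * I))]
  simp only [h1]
  rw [intervalIntegral.integral_of_le hpi]
  have : IsFiniteMeasure ((volume : Measure ℝ).restrict (Ioc 0 (2 * Real.pi))) := ⟨by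
    rw [Measure.restrict_apply_univ, Real.volume_Ioc]
    exact ENNReal.ofReal_lt_top⟩
  rw [integral_integral_swap]
  · have h2 : ∀ w : S1, ∫ θ in Ioc 0 (2 * Real.pi),
        (Real.cos ((Complex.exp (θ * I) * (x * (starRingEnd ℂ) (w : ℂ))).re) : ℂ)
          * Complex.exp (-(k * (θ * I))) = Jk k (x * (starRingEnd ℂ) (w : ℂ)) := by
      intro w
      rw [← intervalIntegral.integral_of_le hpi]
      rfl
    simp only [h2]
    rw [← integral_const_mul]
    unfold cof
    rw [← integral_const_mul]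
    refine integral_congr_ae (Eventually.of_forall fun w => ?_)
    beta_reduce
    have h3 := Jk_eq k (x * (starRingEnd ℂ) (w : ℂ))
    have h4 : ‖x * (starRingEnd ℂ) (w : ℂ)‖ = ‖x‖ := by
      rw [norm_mul, Complex.norm_conj, norm_S1, mul_one]
    rw [h4] at h3
    rw [h3, mul_pow, conj_S1, zpow_neg, zpow_natCast, inv_pow]
    ring
  · refine Integrable.of_bound (C := 1) ?_ ?_
    · refine Continuous.aestronglyMeasurable ?_
      unfold Function.uncurry
      fun_prop
    · refine Eventually.of_forall fun p => ?_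
      unfold Function.uncurry
      beta_reduce
      have h5 : ‖Complex.exp (-(k * ((p.1 : ℂ) * I)))‖ = 1 := by
        have : -((k : ℂ) * ((p.1 : ℂ) * I)) = ((-(k * p.1) : ℝ) : ℂ) * I := by push_cast; ring
        rw [this, Complex.norm_exp_ofReal_mul_I]
      rw [norm_mul, h5, mul_one, Complex.norm_real]
      exact Real.abs_cos_le_one _

/-- the mean over the rotations of the plane wave is `K` -/
lemma Fk_zero (x : ℂ) : Fk 0 ‖x‖ = ((2 * Real.pi * Berry.waveK x : ℝ) : ℂ) := by
  unfold Berry.waveK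
  have hpi : (2 * Real.pi : ℝ) ≠ 0 := by have := Real.pi_pos; positivity
  rw [← mul_assoc, mul_inv_cancel₀ hpi, one_mul, ← intervalIntegral.integral_ofReal,
    ← period 0 ‖x‖ (-Complex.arg x)]
  refine intervalIntegral.integral_congr fun t _ => ?_
  beta_reduce
  rw [Nat.cast_zero, zero_mul, neg_zero, Complex.exp_zero, mul_one]
  congr 2
  have h1 := Complex.norm_mul_cos_arg x
  have h2 := Complex.norm_mul_sin_arg x
  rw [Real.cos_add, Real.cos_neg, Real.sin_neg, ← h1, ← h2]
  ring

/-- the mean over the rotations -/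
theorem mean_gk (x : ℂ) :
    ∫ θ in (0 : ℝ)..(2 * Real.pi), gk s x θ = 2 * Real.pi * ((s univ).toReal * Berry.waveK x) := by
  have h := int_gk s 0 x
  rw [pow_zero, pow_zero, one_mul, one_mul, Fk_zero] at h
  have h1 : cof s (0 : ℕ) = ((s univ).toReal : ℂ) := by
    unfold cof
    simp [Measure.real]
  rw [h1] at h
  have h2 : ∀ θ : ℝ, (gk s x θ : ℂ) * Complex.exp (-(((0 : ℕ) : ℂ) * (θ * I))) = (gk s x θ : ℂ) := by
    intro θ
    simp
  simp only [h2] at h
  rw [intervalIntegral.integral_ofReal] at h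
  have h3 : ((∫ θ in (0 : ℝ)..(2 * Real.pi), gk s x θ : ℝ) : ℂ)
      = ((2 * Real.pi * ((s univ).toReal * Berry.waveK x) : ℝ) : ℂ) := by
    rw [h]
    push_cast
    ring
  exact_mod_cast h3

/-- the variance over the rotations -/
def vark (s : Measure S1) (x : ℂ) : ℝ :=
  1 / (2 * Real.pi) * ∫ θ in (0 : ℝ)..(2 * Real.pi),
    (gk s x θ - (s univ).toReal * Berry.waveK x) ^ 2

omit [IsFiniteMeasure s] in
lemma vark_nonneg (x : ℂ) : 0 ≤ vark s x := by
  unfold vark
  have hpi : (0 : ℝ) ≤ 2 * Real.pi := by have := Real.pi_pos; positivity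
  refine mul_nonneg (by positivity) (intervalIntegral.integral_nonneg hpi fun θ _ => sq_nonneg _)

/-- **the four-point function for two points** -/
theorem dirWick_two (a b : ℂ) :
    dirWick s ![a, a, b, b] = (1 + 2 * Berry.waveK (a - b) ^ 2) * (s univ).toReal ^ 2
      + 2 * vark s (a - b) := by
  have hpi : (2 * Real.pi : ℝ) ≠ 0 := by have := Real.pi_pos; positivity
  set M := (s univ).toReal with hM
  set K := Berry.waveK (a - b) with hK
  have hc := cont_gk s (a - b)
  have h1 : dirWick s ![a, a, b, b] = 1 / (2 * Real.pi) * ∫ θ in (0 : ℝ)..(2 * Real.pi),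
      (M ^ 2 + 2 * gk s (a - b) θ ^ 2) := by
    unfold dirWick
    congr 1
    refine intervalIntegral.integral_congr fun θ _ => ?_
    simp only [Matrix.cons_val_zero, Matrix.cons_val_one, Matrix.cons_val]
    rw [sub_self, sub_self, mul_zero, dirK_zero, ← hM]
    unfold gk
    ring
  have h2 : ∫ θ in (0 : ℝ)..(2 * Real.pi), (gk s (a - b) θ - M * K) ^ 2
      = (∫ θ in (0 : ℝ)..(2 * Real.pi), gk s (a - b) θ ^ 2) - 2 * Real.pi * (M * K) ^ 2 := by
    have e1 : ∀ θ : ℝ, (gk s (a - b) θ - M * K) ^ 2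
        = gk s (a - b) θ ^ 2 - 2 * (M * K) * gk s (a - b) θ + (M * K) ^ 2 := fun θ => by ring
    simp only [e1]
    rw [intervalIntegral.integral_add, intervalIntegral.integral_sub,
      intervalIntegral.integral_const_mul, mean_gk, intervalIntegral.integral_const, smul_eq_mul]
    · rw [← hM, ← hK]; ring
    · exact (hc.pow 2).intervalIntegrable _ _
    · exact (hc.const_mul _).intervalIntegrable _ _
    · exact ((hc.pow 2).sub (hc.const_mul _)).intervalIntegrable _ _
    · exact continuous_const.intervalIntegrable _ _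
  have h3 : ∫ θ in (0 : ℝ)..(2 * Real.pi), (M ^ 2 + 2 * gk s (a - b) θ ^ 2)
      = 2 * Real.pi * M ^ 2 + 2 * ∫ θ in (0 : ℝ)..(2 * Real.pi), gk s (a - b) θ ^ 2 := by
    rw [intervalIntegral.integral_add, intervalIntegral.integral_const_mul,
      intervalIntegral.integral_const, smul_eq_mul, sub_zero]
    · exact continuous_const.intervalIntegrable _ _
    · exact ((hc.pow 2).const_mul _).intervalIntegrable _ _
  unfold vark
  rw [h1, h3, ← hM, ← hK, h2]
  field_simp
  ring

theorem dirWick_ge (a b : ℂ) :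
    (1 + 2 * Berry.waveK (a - b) ^ 2) * (s univ).toReal ^ 2 ≤ dirWick s ![a, a, b, b] := by
  rw [dirWick_two]
  have := vark_nonneg s (a - b)
  linarith

/-- if the variance vanishes, the even Fourier coefficients vanish, except for the zeros of the
Bessel functions -/
theorem cof_of_vark {x : ℂ} (hx : x ≠ 0) (h : vark s x = 0) (k : ℕ) (hk : 1 ≤ k)
    (h5 : Fk (2 * k) ‖x‖ ≠ 0) : cof s ((2 * k : ℕ) : ℤ) = 0 := by
  have hpi : (0 : ℝ) < 2 * Real.pi := by have := Real.pi_pos; positivity
  have hc := cont_gk s x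
  set c := (s univ).toReal * Berry.waveK x with hcdef
  have h1 : ∫ θ in (0 : ℝ)..(2 * Real.pi), (gk s x θ - c) ^ 2 = 0 := by
    unfold vark at h
    rcases mul_eq_zero.1 h with h2 | h2
    · exfalso
      have : (0 : ℝ) < 1 / (2 * Real.pi) := by positivity
      linarith
    · exact h2
  have h2 : ∀ᵐ θ ∂(volume.restrict (Ioc 0 (2 * Real.pi))), gk s x θ = c := by
    rw [intervalIntegral.integral_of_le hpi.le] at h1
    have h3 := (integral_eq_zero_iff_of_nonneg_ae (Eventually.of_forall fun θ => sq_nonneg _)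
      ((((hc.sub continuous_const).pow 2).intervalIntegrable 0 (2 * Real.pi)).1)).1 h1
    filter_upwards [h3] with θ hθ
    have h4 : (gk s x θ - c) ^ 2 = 0 := hθ
    have h5 := pow_eq_zero_iff (two_ne_zero) |>.1 h4
    linarith
  have h3 : ∫ θ in (0 : ℝ)..(2 * Real.pi), (gk s x θ : ℂ) * Complex.exp (-((2 * k : ℕ) * (θ * I)))
      = 0 := by
    have e1 : ∫ θ in (0 : ℝ)..(2 * Real.pi), (gk s x θ : ℂ)
          * Complex.exp (-((2 * k : ℕ) * (θ * I)))
        = ∫ θ in (0 : ℝ)..(2 * Real.pi), (c : ℂ) * Complex.exp (((-(2 * k : ℕ) : ℤ) : ℂ) * (θ * I)) := by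
      rw [intervalIntegral.integral_of_le hpi.le, intervalIntegral.integral_of_le hpi.le]
      refine integral_congr_ae ?_
      filter_upwards [h2] with θ hθ
      rw [hθ]
      congr 2
      push_cast
      ring
    rw [e1, intervalIntegral.integral_const_mul, int_exp, if_neg (by omega), mul_zero]
  have h4 := int_gk s (2 * k) x
  rw [h3, mul_zero] at h4
  have h6 : x ^ (2 * k) * Fk (2 * k) ‖x‖ ≠ 0 := mul_ne_zero (pow_ne_zero _ hx) h5
  rcases mul_eq_zero.1 h4.symm with h7 | h7
  · exact absurd h7 h6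
  · exact h7

omit [IsFiniteMeasure s] in
lemma cof_neg (k : ℤ) : cof s (-k) = (starRingEnd ℂ) (cof s k) := by
  unfold cof
  rw [← integral_conj]
  refine integral_congr_ae (Eventually.of_forall fun w => ?_)
  beta_reduce
  rw [map_zpow₀, conj_S1, inv_zpow, zpow_neg]

omit [IsFiniteMeasure s] in
lemma cof_nat {k : ℤ} (hk : Even k) : ∃ m : ℕ, (k = 0 → m = 0) ∧ (k ≠ 0 → 1 ≤ m) ∧
    (cof s ((2 * m : ℕ) : ℤ) = 0 → cof s k = 0) := by
  obtain ⟨l, rfl⟩ := hk
  obtain ⟨m, hm | hm⟩ := l.eq_nat_or_neg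
  · subst hm
    refine ⟨m, by omega, by omega, fun h => ?_⟩
    have e : ((2 * m : ℕ) : ℤ) = (m : ℤ) + m := by push_cast; ring
    rwa [e] at h
  · subst hm
    refine ⟨m, by omega, by omega, fun h => ?_⟩
    have e : (-(m : ℤ) + -(m : ℤ)) = -(((2 * m : ℕ) : ℤ)) := by push_cast; ring
    rw [e, cof_neg, h, map_zero]

end

end ONE
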