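import Pool.Agent.BWM.C43
import Pool.Agent.ONE.Circ

/-!
Averages over a closed surface, and the case of equality in an inequality between averages.
-/

open Complex MeasureTheory Filter Topology Set
open UpperHalfPlane hiding I
open scoped ContDiff MatrixGroups ProbabilityTheory ENNReal

namespace ONE

open QE QE.NC NFP

noncomputable section

variable {Γ : Subgroup SL(2, ℝ)} {ρ : ℍ → ℝ} {D : Set ℍ}

theorem prob_nu [Countable Γ] (hg : Berry.Geo Γ ρ D) :
    IsProbabilityMeasure (ProbabilityTheory.cond (Berry.area ρ) D) :=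
  ProbabilityTheory.cond_isProbabilityMeasure_of_finite (Berry.area_ne_zero hg)
    (Berry.area_ne_top hg)

/-- integrable functions -/
theorem int_nu [Countable Γ] (hg : Berry.Geo Γ ρ D) {f : ℍ → ℝ}
    (hf : IntegrableOn f D (volume : Measure ℍ)) :
    Integrable f (ProbabilityTheory.cond (Berry.area ρ) D) := by
  obtain ⟨K, hK⟩ := hg.bdd
  have h1 : (Berry.area ρ).restrict D
      ≤ ENNReal.ofReal (Real.exp (2 * K)) • (volume : Measure ℍ).restrict D := by
    unfold Berry.area
    rw [restrict_withDensity hg.meas, ← withDensity_const]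
    refine withDensity_mono (Eventually.of_forall fun z => ?_)
    refine ENNReal.ofReal_le_ofReal (Real.exp_le_exp.2 ?_)
    have := (le_abs_self _).trans (hK z)
    linarith
  have h2 : IntegrableOn f D (Berry.area ρ) :=
    (Integrable.smul_measure hf ENNReal.ofReal_ne_top).mono_measure h1
  unfold ProbabilityTheory.cond
  exact h2.smul_measure (ENNReal.inv_ne_top.2 (Berry.area_ne_zero hg))

/-- almost everywhere statements -/
theorem ae_nu [Countable Γ] (hg : Berry.Geo Γ ρ D) {P : ℍ → Prop}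
    (h : ∀ᵐ z ∂(ProbabilityTheory.cond (Berry.area ρ) D), P z) :
    ∀ᵐ z ∂((volume : Measure ℍ).restrict D), P z := by
  have hm : Measurable fun z : ℍ => ENNReal.ofReal (Real.exp (2 * ρ z)) :=
    ENNReal.measurable_ofReal.comp
      (Real.continuous_exp.comp (continuous_const.mul hg.unif.continuous)).measurable
  unfold ProbabilityTheory.cond at h
  have hc : (Berry.area ρ D)⁻¹ ≠ 0 := ENNReal.inv_ne_zero.2 (Berry.area_ne_top hg)
  rw [Measure.ae_ennreal_smul_measure_iff hc, ae_restrict_iff' hg.meas] at h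
  unfold Berry.area at h
  rw [ae_withDensity_iff hm] at h
  rw [ae_restrict_iff' hg.meas]
  filter_upwards [h] with z hz
  refine hz ?_
  rw [ne_eq, ENNReal.ofReal_eq_zero, not_le]
  exact Real.exp_pos _

/-- **the case of equality, in general** -/
theorem eq_case {X : Type*} [MeasurableSpace X] {μ : Measure X} [IsProbabilityMeasure μ]
    {p v : X → ℝ} (hp : Integrable p μ) (hp2 : Integrable (fun z => p z ^ 2) μ)
    (hone : ∫ z, p z ∂μ = 1) (hv : Integrable v μ) (hv0 : ∀ z, 0 ≤ v z) {A B R κ : ℝ}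
    (hA : 0 ≤ A) (hB : 0 < B) (hR : 0 < R) (hκ : 3 * ∫ z, p z ^ 2 ∂μ ≤ κ) :
    A ≤ A * (∫ z, p z ^ 2 ∂μ) + B * (∫ z, v z ∂μ) + (κ - 3 * ∫ z, p z ^ 2 ∂μ) / 3 * R ∧
    (A * (∫ z, p z ^ 2 ∂μ) + B * (∫ z, v z ∂μ) + (κ - 3 * ∫ z, p z ^ 2 ∂μ) / 3 * R = A → 0 < A →
      κ = 3 ∧ ∫ z, p z ^ 2 ∂μ = 1 ∧ ∀ᵐ z ∂μ, p z = 1 ∧ v z = 0) := by
  set S := ∫ z, p z ^ 2 ∂μ with hS
  have hint : Integrable (fun z => (p z - 1) ^ 2) μ := by
    have e1 : (fun z => (p z - 1) ^ 2) = fun z => p z ^ 2 - 2 * p z + 1 := by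
      funext z; ring
    rw [e1]
    exact (hp2.sub (hp.const_mul 2)).add (integrable_const 1)
  have hSe : ∫ z, (p z - 1) ^ 2 ∂μ = S - 1 := by
    have e1 : (fun z => (p z - 1) ^ 2) = fun z => p z ^ 2 - 2 * p z + 1 := by
      funext z; ring
    have j1 : Integrable (fun z => 2 * p z) μ := hp.const_mul 2
    have j12 : Integrable (fun z => p z ^ 2 - 2 * p z) μ := hp2.sub j1
    rw [e1, integral_add j12 (integrable_const 1), integral_sub hp2 j1, integral_const_mul, hone]
    simp
    ring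
  have hS1 : 1 ≤ S := by
    have : 0 ≤ ∫ z, (p z - 1) ^ 2 ∂μ := integral_nonneg fun z => sq_nonneg _
    linarith
  have hv1 : 0 ≤ ∫ z, v z ∂μ := integral_nonneg hv0
  have a1 : 0 ≤ A * (S - 1) := mul_nonneg hA (by linarith)
  have a2 : 0 ≤ B * ∫ z, v z ∂μ := mul_nonneg hB.le hv1
  have a3 : 0 ≤ (κ - 3 * S) / 3 * R := mul_nonneg (by linarith) hR.le
  refine ⟨by nlinarith, fun he hA0 => ?_⟩
  have b1 : A * (S - 1) = 0 := by nlinarith
  have b2 : B * ∫ z, v z ∂μ = 0 := by nlinarith
  have b3 : (κ - 3 * S) / 3 * R = 0 := by nlinarith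
  have c1 : S = 1 := by
    rcases mul_eq_zero.1 b1 with h | h
    · exact absurd h hA0.ne'
    · linarith
  have c2 : ∫ z, v z ∂μ = 0 := by
    rcases mul_eq_zero.1 b2 with h | h
    · exact absurd h hB.ne'
    · exact h
  have c3 : κ = 3 := by
    rcases mul_eq_zero.1 b3 with h | h
    · linarith
    · exact absurd h hR.ne'
  refine ⟨c3, c1, ?_⟩
  have d1 := (integral_eq_zero_iff_of_nonneg hv0 hv).1 c2
  have d2 : ∫ z, (p z - 1) ^ 2 ∂μ = 0 := by rw [hSe, c1, sub_self]
  have d3 := (integral_eq_zero_iff_of_nonneg (fun z => sq_nonneg _) hint).1 d2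
  filter_upwards [d1, d3] with z z1 z2
  have z3 : (p z - 1) ^ 2 = 0 := z2
  have z4 := pow_eq_zero_iff (two_ne_zero) |>.1 z3
  exact ⟨by linarith, z1⟩

/-- the mass of a kernel is integrable if its square is -/
theorem int_mass {μ : Measure ℍ} [IsFiniteMeasure μ] {s : ProbabilityTheory.Kernel ℍ S1}
    (h : Integrable (fun z => ((s z) univ).toReal ^ 2) μ) :
    Integrable (fun z => ((s z) univ).toReal) μ := by
  have hm : Measurable fun z => ((s z) univ).toReal :=
    (s.measurable_coe MeasurableSet.univ).ennreal_toReal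
  exact ((memLp_two_iff_integrable_sq hm.aestronglyMeasurable).2 h).integrable one_le_two

/-- `vark = 0`: the covariance function is constant on the circle -/
theorem gk_of_vark {s : Measure S1} [IsFiniteMeasure s] {x : ℂ} (h : vark s x = 0) (θ : ℝ) :
    gk s x θ = (s univ).toReal * Berry.waveK x := by
  have hpi : (0 : ℝ) < 2 * Real.pi := by have := Real.pi_pos; positivity
  have hc := cont_gk s x
  set c := (s univ).toReal * Berry.waveK x with hcdef
  have h1 : ∫ θ in (0 : ℝ)..(2 * Real.pi), (gk s x θ - c) ^ 2 = 0 := by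
    unfold vark at h
    rcases mul_eq_zero.1 h with h2 | h2
    · exfalso
      have : (0 : ℝ) < 1 / (2 * Real.pi) := by positivity
      linarith
    · exact h2
  have h2 : ∀ᵐ θ ∂(volume.restrict (Ioo 0 (2 * Real.pi))), gk s x θ = c := by
    rw [intervalIntegral.integral_of_le hpi.le] at h1
    have h3 := (integral_eq_zero_iff_of_nonneg_ae (Eventually.of_forall fun θ => sq_nonneg _)
      ((((hc.sub continuous_const).pow 2).intervalIntegrable 0 (2 * Real.pi)).1)).1 h1
    have h3' := ae_restrict_of_ae_restrict_of_subset Ioo_subset_Ioc_self h3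
    filter_upwards [h3'] with θ hθ
    have h4 : (gk s x θ - c) ^ 2 = 0 := hθ
    have h5 := pow_eq_zero_iff (two_ne_zero) |>.1 h4
    linarith
  have h3 : ∀ θ ∈ Ioo (0 : ℝ) (2 * Real.pi), gk s x θ = c :=
    Measure.eqOn_open_of_ae_eq (f := gk s x) (g := fun _ => c) h2 isOpen_Ioo hc.continuousOn
      continuousOn_const
  have h4 : ∀ θ ∈ Icc (0 : ℝ) (2 * Real.pi), gk s x θ = c := by
    intro θ hθ
    have hcl : IsClosed {θ : ℝ | gk s x θ = c} := isClosed_eq hc continuous_const
    have h5 : closure (Ioo (0 : ℝ) (2 * Real.pi)) ⊆ {θ : ℝ | gk s x θ = c} :=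
      hcl.closure_subset_iff.2 h3
    rw [closure_Ioo hpi.ne] at h5
    exact h5 hθ
  have hper : Function.Periodic (gk s x) (2 * Real.pi) := by
    intro θ
    unfold gk
    congr 2
    rw [Complex.exp_eq_exp_iff_exists_int]
    exact ⟨1, by push_cast; ring⟩
  obtain ⟨y, hy, hy2⟩ := hper.exists_mem_Ico₀ hpi θ
  rw [hy2]
  exact h4 y ⟨hy.1, hy.2.le⟩

end

end ONE
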