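import Pool.Agent.ONE.Gen

/-!
One number: the fourth moment of one linear statistic with at least two points, or the mean of the
product of the squares at two points, decides all moments of order at most four.
-/

open Complex MeasureTheory Filter Topology Set
open UpperHalfPlane hiding I
open scoped ContDiff MatrixGroups ProbabilityTheory

namespace ONE

open QE QE.NC NFP NFP.BND

noncomputable section

variable {Γ : Subgroup SL(2, ℝ)} {ρ : ℍ → ℝ} {D : Set ℍ} {φ : ℕ → ℍ → ℝ} {m : ℕ → ℝ}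

/-- the pairs of squares -/
theorem stat_two {x y : ℂ} (hxy : x ≠ y) :
    Stat (ι := Unit) (fun _ => 1) (fun _ => ![x, x, y, y]) (1 + 2 * Berry.waveK (x - y) ^ 2) 2
      (fun s => vark s (x - y)) where
  A0 := by positivity
  B0 := by norm_num
  v0 := fun s => vark_nonneg s _
  dir := fun s hs => by
    simp only [Finset.univ_unique, Finset.sum_singleton, one_mul]
    exact dirWick_two s x y
  res := by
    simp only [Finset.univ_unique, Finset.sum_singleton, one_mul]
    have := resK_two x y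
    linarith
  inf := fun N => by
    have hne : x - y ≠ 0 := sub_ne_zero.2 hxy
    obtain ⟨K, hK⟩ := exists_nat_ge ((‖x - y‖ / 2) ^ 2)
    refine ⟨max N (K + 1), le_max_left _ _, fun s hs hv => ?_⟩
    have h1 : 1 ≤ max N (K + 1) := le_trans (by omega) (le_max_right _ _)
    refine cof_of_vark s hne hv _ h1 ?_
    refine bes_ne _ (norm_pos_iff.2 hne) ?_
    have h2 : ((K + 1 : ℕ) : ℝ) ≤ ((max N (K + 1) : ℕ) : ℝ) := by
      exact_mod_cast le_max_right N (K + 1)
    push_cast at h2 ⊢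
    nlinarith [sq_nonneg (‖x - y‖ / 2)]

/-- the fourth powers of the linear statistics -/
theorem stat_lin {r : ℕ} {c : Fin r → ℝ} {x : Fin r → ℂ} (hx : Function.Injective x)
    (hc : ∃ i j, i ≠ j ∧ c i ≠ 0 ∧ c j ≠ 0) :
    Stat (ι := I4 r) (q4 c) (X4 x) (3 * tau2 c x ^ 2) 3 (varT c x) := by
  have hpos : 0 < tau2 c x := by
    obtain ⟨k, hk, hA⟩ := t_inf r c x hx hc 1
    exact tau2_pos c x (k := 2 * k) (by omega) hA
  exact
    { A0 := by positivity
      B0 := by norm_num
      v0 := varT_nonneg c x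
      dir := fun s hs => sum_dirWick c x s
      res := lt_of_lt_of_le (by positivity) (sum_resK_ge c x)
      inf := fun N => by
        obtain ⟨k, hk, hA⟩ := t_inf r c x hx hc (max N 1)
        refine ⟨k, le_trans (le_max_left _ _) hk, fun s hs hv => ?_⟩
        have h1 : 1 ≤ k := le_trans (le_max_right _ _) hk
        exact cof_of_varT c x s hv (k := 2 * k) (by omega) hA }

lemma cQ_two (φ : ℍ → ℝ) (m : ℝ) (x y : ℂ) :
    cQ ρ D φ m (ι := Unit) (fun _ => 1) (fun _ => ![x, x, y, y])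
      = ∫ p, Berry.rWave ρ φ m x p ^ 2 * Berry.rWave ρ φ m y p ^ 2 ∂(Berry.rFrameProb ρ D) := by
  unfold cQ pr
  simp only [Finset.univ_unique, Finset.sum_singleton, one_mul]
  refine integral_congr_ae (Eventually.of_forall fun p => ?_)
  simp only [Matrix.cons_val_zero, Matrix.cons_val_one, Matrix.cons_val]
  ring

/-- the waves are continuous for large `n` -/
lemma ev_cont [Countable Γ] (H : Hyp Γ ρ D φ m) {r : ℕ} (x : Fin r → ℂ) :
    ∀ᶠ n in atTop, ∀ i, Continuous (Berry.rWave ρ (φ n) (m n) (x i)) := by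
  obtain ⟨R, hR⟩ := H.geo.bdd
  rw [eventually_all]
  intro i
  filter_upwards [H.eig.tendsto.eventually_gt_atTop (‖x i‖ * Real.exp R),
    H.eig.tendsto.eventually_gt_atTop 0] with n hn hn0
  refine rWave_continuous (H.pc n) H.rc (fun z => ?_) hn0.ne'
  rw [norm_div, Complex.norm_real, Real.norm_of_nonneg (by positivity),
    div_lt_one (mul_pos hn0 (Real.exp_pos _))]
  have h1 : Real.exp (-R) ≤ Real.exp (ρ z) := Real.exp_le_exp.2 (abs_le.1 (hR z)).1
  calc ‖x i‖ = ‖x i‖ * Real.exp R * Real.exp (-R) := by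
        rw [mul_assoc, ← Real.exp_add, add_neg_cancel, Real.exp_zero, mul_one]
    _ < m n * Real.exp (-R) := by gcongr
    _ ≤ m n * Real.exp (ρ z) := by gcongr

lemma cQ_lin [Countable Γ] (H : Hyp Γ ρ D φ m) {r : ℕ} (c : Fin r → ℝ) (x : Fin r → ℂ) :
    ∀ᶠ n in atTop, cQ ρ D (φ n) (m n) (q4 c) (X4 x)
      = ∫ p, (∑ i, c i * Berry.rWave ρ (φ n) (m n) (x i) p) ^ 4 ∂(Berry.rFrameProb ρ D) := by
  have hprob := Berry.rFrameProb_isProb H.geo
  filter_upwards [ev_cont H x] with n hn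
  obtain ⟨C₂, hC₂⟩ := Berry.bdd_of_cocompact (H.pc n) (H.eig.invariant n) H.fac.cpt
  have hb : ∀ i p, |Berry.rWave ρ (φ n) (m n) (x i) p| ≤ |C₂| := fun i p =>
    (hC₂ _).trans (le_abs_self _)
  have hI : ∀ a : I4 r, Integrable (fun p => Berry.rWave ρ (φ n) (m n) (x a.1) p
      * Berry.rWave ρ (φ n) (m n) (x a.2.1) p * Berry.rWave ρ (φ n) (m n) (x a.2.2.1) p
      * Berry.rWave ρ (φ n) (m n) (x a.2.2.2) p) (Berry.rFrameProb ρ D) := by
    intro a
    refine Integrable.of_bound (C := |C₂| * |C₂| * |C₂| * |C₂|)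
      ((((hn _).mul (hn _)).mul (hn _)).mul (hn _)).aestronglyMeasurable
      (Eventually.of_forall fun p => ?_)
    rw [norm_mul, norm_mul, norm_mul, Real.norm_eq_abs, Real.norm_eq_abs, Real.norm_eq_abs,
      Real.norm_eq_abs]
    have h0 := abs_nonneg C₂
    refine mul_le_mul (mul_le_mul (mul_le_mul (hb _ p) (hb _ p) (abs_nonneg _) h0) (hb _ p)
      (abs_nonneg _) (by positivity)) (hb _ p) (abs_nonneg _) (by positivity)
  have e1 : ∀ p, (∑ i, c i * Berry.rWave ρ (φ n) (m n) (x i) p) ^ 4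
      = ∑ a : I4 r, q4 c a * (Berry.rWave ρ (φ n) (m n) (x a.1) p
        * Berry.rWave ρ (φ n) (m n) (x a.2.1) p * Berry.rWave ρ (φ n) (m n) (x a.2.2.1) p
        * Berry.rWave ρ (φ n) (m n) (x a.2.2.2) p) := by
    intro p
    set f : Fin r → ℝ := fun i => Berry.rWave ρ (φ n) (m n) (x i) p with hf
    have h1 : ∑ a : I4 r, q4 c a * (f a.1 * f a.2.1 * f a.2.2.1 * f a.2.2.2)
        = ∑ i, ∑ j, ∑ k, ∑ l, (c i * c j * c k * c l) * (f i * f j * f k * f l) :=
      sum_I4 (fun i j k l => (c i * c j * c k * c l) * (f i * f j * f k * f l))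
    have h2 : ∑ i, ∑ j, ∑ k, ∑ l, (c i * c j * c k * c l) * (f i * f j * f k * f l)
        = (∑ i, c i * f i) ^ 4 := by
      have e4 : (∑ i, c i * f i) ^ 4 = ((∑ i, c i * f i) * (∑ i, c i * f i))
          * ((∑ i, c i * f i) * (∑ i, c i * f i)) := by ring
      rw [e4, Finset.sum_mul_sum, Finset.sum_mul]
      refine Finset.sum_congr rfl fun i _ => ?_
      rw [Finset.sum_mul]
      refine Finset.sum_congr rfl fun j _ => ?_
      rw [Finset.mul_sum]
      refine Finset.sum_congr rfl fun k _ => ?_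
      rw [Finset.mul_sum]
      refine Finset.sum_congr rfl fun l _ => ?_
      ring
    exact (h1.trans h2).symm
  simp only [e1]
  rw [integral_finsetSum _ fun a _ => (hI a).const_mul _]
  unfold cQ pr X4
  refine Finset.sum_congr rfl fun a _ => ?_
  rw [integral_const_mul]
  simp only [Matrix.cons_val_zero, Matrix.cons_val_one, Matrix.cons_val]

/-- the statistic of a field with Gaussian four-point functions -/
lemma lin_gauss (hG : Berry.RGaussUpToFour ρ D φ m) {r : ℕ}
    (c : Fin r → ℝ) (x : Fin r → ℂ) :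
    Tendsto (fun n => cQ ρ D (φ n) (m n) (q4 c) (X4 x)) atTop (𝓝 (3 * tau2 c x ^ 2)) := by
  have h1 : Tendsto (fun n => ∑ a : I4 r, q4 c a * pr ρ D (φ n) (m n) (X4 x a)) atTop
      (𝓝 (∑ a : I4 r, q4 c a * (Berry.waveK (x a.1 - x a.2.1) * Berry.waveK (x a.2.2.1 - x a.2.2.2)
        + Berry.waveK (x a.1 - x a.2.2.1) * Berry.waveK (x a.2.1 - x a.2.2.2)
        + Berry.waveK (x a.1 - x a.2.2.2) * Berry.waveK (x a.2.1 - x a.2.2.1)))) :=
    tendsto_finsetSum _ fun a _ => (hG.2.2.2 (x a.1) (x a.2.1) (x a.2.2.1) (x a.2.2.2)).const_mul _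
  have h2 : ∑ a : I4 r, q4 c a * (Berry.waveK (x a.1 - x a.2.1) * Berry.waveK (x a.2.2.1 - x a.2.2.2)
        + Berry.waveK (x a.1 - x a.2.2.1) * Berry.waveK (x a.2.1 - x a.2.2.2)
        + Berry.waveK (x a.1 - x a.2.2.2) * Berry.waveK (x a.2.1 - x a.2.2.1))
      = 3 * tau2 c x ^ 2 := by
    have h3 : ∑ a : I4 r, q4 c a * (Berry.waveK (x a.1 - x a.2.1) * Berry.waveK (x a.2.2.1 - x a.2.2.2)
        + Berry.waveK (x a.1 - x a.2.2.1) * Berry.waveK (x a.2.1 - x a.2.2.2)
        + Berry.waveK (x a.1 - x a.2.2.2) * Berry.waveK (x a.2.1 - x a.2.2.1))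
        = ∑ i, ∑ j, ∑ k, ∑ l, (c i * c j * c k * c l)
          * (Berry.waveK (x i - x j) * Berry.waveK (x k - x l)
            + Berry.waveK (x i - x k) * Berry.waveK (x j - x l)
            + Berry.waveK (x i - x l) * Berry.waveK (x j - x k)) :=
      sum_I4 (fun i j k l => (c i * c j * c k * c l)
          * (Berry.waveK (x i - x j) * Berry.waveK (x k - x l)
            + Berry.waveK (x i - x k) * Berry.waveK (x j - x l)
            + Berry.waveK (x i - x l) * Berry.waveK (x j - x k)))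
    rw [h3]
    exact pair_sum c (fun i j => Berry.waveK (x i - x j)) fun i j => by
      rw [← Berry.waveK_neg, neg_sub]
  rw [h2] at h1
  exact h1

/-- **One number.** -/
theorem tfae_final [Countable Γ] (H : Hyp Γ ρ D φ m) {r : ℕ} {c : Fin r → ℝ} {x : Fin r → ℂ}
    (hx : Function.Injective x) (hc : ∃ i j, i ≠ j ∧ c i ≠ 0 ∧ c j ≠ 0) {y z : ℂ} (hyz : y ≠ z) :
    List.TFAE [
      Tendsto (fun n => ∫ p, (∑ i, c i * Berry.rWave ρ (φ n) (m n) (x i) p) ^ 4
          ∂(Berry.rFrameProb ρ D)) atTop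
        (𝓝 (3 * (∑ i, ∑ j, c i * c j * Berry.waveK (x i - x j)) ^ 2)),
      Tendsto (fun n => ∫ p, Berry.rWave ρ (φ n) (m n) y p ^ 2
          * Berry.rWave ρ (φ n) (m n) z p ^ 2 ∂(Berry.rFrameProb ρ D)) atTop
        (𝓝 (1 + 2 * Berry.waveK (y - z) ^ 2)),
      QuantumErgodic ρ φ m ∧
        Tendsto (fun n => Berry.rAvg ρ D fun z => φ n z ^ 4) atTop (𝓝 3),
      Berry.RGaussUpToFour ρ D φ m, Berry.RLocalGauss ρ φ m] := by
  have H0 := tfae_local (D := D) (ρ := ρ) (Γ := Γ) H.meas H.dom H.fac.cpt H.fac.smooth H.fac.inv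
    H.eig H.smooth
  tfae_have 3 ↔ 4 := H0.out 0 4
  tfae_have 3 ↔ 5 := H0.out 0 5
  tfae_have 1 → 3 := by
    intro h
    refine one_Q H (stat_lin hx hc) ?_
    refine h.congr' ?_
    filter_upwards [cQ_lin H c x] with n hn
    exact hn.symm
  tfae_have 2 → 3 := by
    intro h
    refine one_Q H (stat_two hyz) ?_
    exact h.congr fun n => (cQ_two (φ n) (m n) y z).symm
  tfae_have 4 → 1 := by
    intro h
    refine (lin_gauss h c x).congr' ?_
    filter_upwards [cQ_lin H c x] with n hn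
    exact hn
  tfae_have 4 → 2 := by
    intro h
    have h1 := h.2.2.2 y y z z
    rw [sub_self, sub_self, Berry.waveK_zero] at h1
    have e1 : (1 : ℝ) * 1 + Berry.waveK (y - z) * Berry.waveK (y - z)
        + Berry.waveK (y - z) * Berry.waveK (y - z) = 1 + 2 * Berry.waveK (y - z) ^ 2 := by ring
    rw [e1] at h1
    refine h1.congr fun n => ?_
    refine integral_congr_ae (Eventually.of_forall fun p => ?_)
    beta_reduce
    ring
  tfae_finish

end

end ONE
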