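import Pool.Agent.ONE.Down

/-!
The last step of the downward propagation: if the moment of index two vanishes, the real moment of
index zero is constant.
-/

open Complex MeasureTheory Filter Topology Set
open UpperHalfPlane hiding I
open scoped ContDiff MatrixGroups

namespace ONE

open QE QE.NC

noncomputable section

variable {Γ : Subgroup SL(2, ℝ)} {ρ : ℍ → ℝ} {u : ℤ → ℂ → ℂ}

/-- a holomorphic function on the upper half plane which is real almost everywhere is constant -/
lemma real_const {f : ℂ → ℂ} (hf : DifferentiableOn ℂ f UH)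
    (hr : ∀ᵐ z ∂((volume : Measure ℂ).restrict UH), (f z).im = 0) :
    ∃ c : ℝ, ∀ z ∈ UH, f z = c := by
  have him : ∀ z ∈ UH, (f z).im = 0 := by
    have hc : ContinuousOn (fun z => (f z).im) UH := Complex.continuous_im.comp_continuousOn
      hf.continuousOn
    exact Measure.eqOn_open_of_ae_eq (f := fun z => (f z).im) (g := fun _ => 0) hr isOpen_UH hc
      continuousOn_const
  have hconv : Convex ℝ UH := by
    have : UH = (fun z : ℂ => z.im) ⁻¹' Set.Ioi 0 := rfl
    rw [this]
    exact (convex_Ioi 0).is_linear_preimage Complex.imLm.isLinear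
  have hA : AnalyticOnNhd ℂ f UH := hf.analyticOnNhd isOpen_UH
  rcases hA.is_constant_or_isOpen hconv.isPreconnected with h | h
  · obtain ⟨w, hw⟩ := h
    have hI : (Complex.I : ℂ) ∈ UH := by
      show 0 < Complex.I.im
      simp
    refine ⟨w.re, fun z hz => ?_⟩
    rw [hw z hz]
    have h1 := him _ hI
    rw [hw _ hI] at h1
    apply Complex.ext
    · simp
    · simpa using h1
  · exfalso
    have h1 := h UH subset_rfl isOpen_UH
    have hI : (Complex.I : ℂ) ∈ UH := by
      show 0 < Complex.I.im
      simp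
    obtain ⟨ε, hε, hb⟩ := Metric.isOpen_iff.1 h1 (f Complex.I) ⟨_, hI, rfl⟩
    have h2 : f Complex.I + (ε / 2 : ℝ) * Complex.I ∈ f '' UH := by
      apply hb
      rw [Metric.mem_ball, dist_eq_norm]
      have : f Complex.I + (ε / 2 : ℝ) * Complex.I - f Complex.I = (ε / 2 : ℝ) * Complex.I := by
        ring
      rw [this, norm_mul, Complex.norm_I, Complex.norm_real, Real.norm_of_nonneg (by linarith)]
      linarith
    obtain ⟨z, hz, hzf⟩ := h2
    have h3 := him z hz
    rw [hzf] at h3
    have h4 := him _ hI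
    simp only [Complex.add_im, Complex.mul_im, Complex.ofReal_re, Complex.ofReal_im,
      Complex.I_im, Complex.I_re, h4] at h3
    linarith

/-- **From the moment of index two to the moment of index zero.** -/
theorem base (h : ContDiffOn ℝ ∞ (ro ρ) UH) (hloc : ∀ k, LocL2 UH (u k)) (ht : Trans ρ u)
    (hr : ∀ᵐ z ∂((volume : Measure ℂ).restrict UH), (u 0 z).im = 0)
    (h2 : ∀ᵐ z ∂((volume : Measure ℂ).restrict UH), u 2 z = 0) :
    ∃ c : ℝ, ∀ᵐ z ∂((volume : Measure ℂ).restrict UH), u 0 z = c := by
  obtain ⟨f, hf, hfu⟩ := exists_hol (l := 0) h hloc ht (by simpa using h2)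
  have hfu' : ∀ᵐ z ∂((volume : Measure ℂ).restrict UH), (starRingEnd ℂ) (u 0 z) = f z := by
    filter_upwards [hfu] with z hz
    simpa using hz
  have hr' : ∀ᵐ z ∂((volume : Measure ℂ).restrict UH), (f z).im = 0 := by
    filter_upwards [hfu', hr] with z hz hz'
    rw [← hz, Complex.conj_im, hz', neg_zero]
  obtain ⟨c, hc⟩ := real_const hf hr'
  refine ⟨c, ?_⟩
  filter_upwards [hfu', ae_restrict_mem isOpen_UH.measurableSet] with z hz hzU
  rw [hc z hzU] at hz
  have := congrArg (starRingEnd ℂ) hz
  rwa [Complex.conj_conj, Complex.conj_ofReal] at this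

end

end ONE
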