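import Pool.Agent.ONE.Down

/-!
If the second moment of an invariant measure vanishes, the mass is constant.
-/

open Complex MeasureTheory Filter Topology Set
open UpperHalfPlane hiding I
open scoped ContDiff MatrixGroups

namespace ONE

open QE QE.NC

noncomputable section

variable {ρ : ℍ → ℝ} {u : ℤ → ℂ → ℂ}

/-- a holomorphic function on the half plane with real values is constant -/
lemma const_of_real {f : ℂ → ℂ} (hf : DifferentiableOn ℂ f UH) (hr : ∀ z ∈ UH, (f z).im = 0) :
    ∀ z ∈ UH, f z = f Complex.I := by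
  have hI : Complex.I ∈ UH := by
    show 0 < Complex.I.im
    simp
  have hconv : Convex ℝ UH := by
    have : UH = (fun z : ℂ => z.im) ⁻¹' Set.Ioi 0 := rfl
    rw [this]
    exact (convex_Ioi 0).is_linear_preimage Complex.imLm.isLinear
  -- the bounded function `1 / (f + i)` has its maximum everywhere
  have hd : ∀ z ∈ UH, deriv f z = 0 := by
    intro z hz
    have hfz : HasDerivAt f (deriv f z) z :=
      (hf.differentiableAt (isOpen_UH.mem_nhds hz)).hasDerivAt
    set d := deriv f z with hdd
    have h1 : ∀ v : ℂ, (d * v).im = 0 := by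
      intro v
      have h2 : HasFDerivAt f _ z := hfz.hasFDerivAt.restrictScalars ℝ
      have h3 : HasFDerivAt (fun w => (f w).im) _ z := (Complex.imCLM.hasFDerivAt).comp z h2
      have h4 : HasFDerivAt (fun w => (f w).im) (0 : ℂ →L[ℝ] ℝ) z := by
        refine (hasFDerivAt_const (0 : ℝ) z).congr_of_eventuallyEq ?_
        filter_upwards [isOpen_UH.mem_nhds hz] with w hw
        exact hr w hw
      have h5 := h3.unique h4
      have h6 := congrArg (fun L : ℂ →L[ℝ] ℝ => L v) h5
      simp at h6
      rw [Complex.mul_im]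
      linarith
    have a1 := h1 1
    have a2 := h1 Complex.I
    simp at a1 a2
    exact Complex.ext (by simpa using a2) (by simpa using a1)
  intro z hz
  refine hconv.is_const_of_fderivWithin_eq_zero (𝕜 := ℂ) hf (fun w hw => ?_) hz hI
  rw [fderivWithin_of_isOpen isOpen_UH hw]
  ext
  simp [fderiv_eq_smul_deriv, hd w hw]

/-- **If the second moment vanishes, the mass is constant.** -/
theorem const_of_two (h : ContDiffOn ℝ ∞ (ro ρ) UH) (hloc : ∀ k, LocL2 UH (u k))
    (ht : Trans ρ u) (hreal : ∀ᵐ z ∂((volume : Measure ℂ).restrict UH), (u 0 z).im = 0)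
    (h2 : ∀ᵐ z ∂((volume : Measure ℂ).restrict UH), u 2 z = 0) :
    ∃ c : ℝ, ∀ᵐ z ∂((volume : Measure ℂ).restrict UH), u 0 z = c := by
  obtain ⟨f, hf, hfu⟩ := exists_hol h hloc ht (l := 0) (by
    rw [Nat.cast_zero, zero_add]; exact h2)
  have h3 : ∀ᵐ z ∂((volume : Measure ℂ).restrict UH), (f z).im = 0 := by
    filter_upwards [hfu, hreal] with z z1 z2
    rw [← z1, pow_zero, one_mul, Complex.conj_im, Nat.cast_zero, z2, neg_zero]
  have h4 : ∀ z ∈ UH, (f z).im = 0 := by
    intro z hz
    exact Measure.eqOn_open_of_ae_eq (f := fun z => (f z).im) (g := fun _ => (0 : ℝ)) h3 isOpen_UH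
      (Complex.continuous_im.comp_continuousOn hf.continuousOn) continuousOn_const hz
  have h5 := const_of_real hf h4
  have hI : Complex.I ∈ UH := by
    show 0 < Complex.I.im
    simp
  refine ⟨(f Complex.I).re, ?_⟩
  filter_upwards [hfu, ae_restrict_mem isOpen_UH.measurableSet] with z z1 z2
  rw [h5 z z2, pow_zero, one_mul, Nat.cast_zero] at z1
  have h6 := congrArg (starRingEnd ℂ) z1
  rw [Complex.conj_conj] at h6
  rw [h6]
  exact Complex.ext (by simp) (by simp [h4 _ hI])

end

end ONE
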