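import Pool.Agent.BWM.C44

/-!
Moments of an invariant measure on a surface of negative curvature: if two neighbours of a moment
vanish, the moment vanishes.
-/

open Complex MeasureTheory Filter Topology Set
open UpperHalfPlane hiding I
open scoped ContDiff MatrixGroups

namespace ONE

open QE QE.NC

noncomputable section

variable {ρ : ℍ → ℝ} {u : ℤ → ℂ → ℂ}

/-- `e^{-ρ}` -/
def er (ρ : ℍ → ℝ) (z : ℂ) : ℂ := ((Real.exp (-(ro ρ z)) : ℝ) : ℂ)

/-- `ρ`, as a complex function -/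
def rc (ρ : ℍ → ℝ) (z : ℂ) : ℂ := (ro ρ z : ℂ)

section smooth

variable (h : ContDiffOn ℝ ∞ (ro ρ) UH)

include h

lemma sm_rc : ContDiffOn ℝ ∞ (rc ρ) UH := Complex.ofRealCLM.contDiff.comp_contDiffOn h

lemma sm_er : ContDiffOn ℝ ∞ (er ρ) UH := Complex.ofRealCLM.contDiff.comp_contDiffOn h.neg.exp

omit h in
lemma dAt {f : ℂ → ℂ} (hf : ContDiffOn ℝ ∞ f UH) {z : ℂ} (hz : z ∈ UH) :
    DifferentiableAt ℝ f z :=
  (hf.contDiffAt (isOpen_UH.mem_nhds hz)).differentiableAt (by simp)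

lemma fd_rc {z : ℂ} (hz : z ∈ UH) (v : ℂ) :
    fderiv ℝ (rc ρ) z v = ((fderiv ℝ (ro ρ) z v : ℝ) : ℂ) := by
  have h1 : HasFDerivAt (ro ρ) (fderiv ℝ (ro ρ) z) z :=
    ((h.contDiffAt (isOpen_UH.mem_nhds hz)).differentiableAt (by simp)).hasFDerivAt
  have h2 : HasFDerivAt (rc ρ) _ z := (Complex.ofRealCLM.hasFDerivAt).comp z h1
  rw [h2.fderiv]
  rfl

lemma fd_er {z : ℂ} (hz : z ∈ UH) (v : ℂ) :
    fderiv ℝ (er ρ) z v = -(er ρ z * fderiv ℝ (rc ρ) z v) := by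
  have h1 : HasFDerivAt (ro ρ) (fderiv ℝ (ro ρ) z) z :=
    ((h.contDiffAt (isOpen_UH.mem_nhds hz)).differentiableAt (by simp)).hasFDerivAt
  have h2 : HasFDerivAt (er ρ) _ z := (Complex.ofRealCLM.hasFDerivAt).comp z h1.neg.exp
  rw [h2.fderiv, fd_rc h hz]
  simp only [ContinuousLinearMap.comp_apply, Complex.ofRealCLM_apply]
  unfold er
  simp

lemma dz_er {z : ℂ} (hz : z ∈ UH) : dz (er ρ) z = -(er ρ z * dz (rc ρ) z) := by
  unfold dz
  rw [fd_er h hz, fd_er h hz]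
  ring

lemma dzb_er {z : ℂ} (hz : z ∈ UH) : dzb (er ρ) z = -(er ρ z * dzb (rc ρ) z) := by
  unfold dzb
  rw [fd_er h hz, fd_er h hz]
  ring

omit h in
lemma aR_eq (z : ℂ) : aR ρ z = aH z * er ρ z := by
  unfold aR aH er
  push_cast
  ring

lemma dzb_aR' {z : ℂ} (hz : z ∈ UH) :
    dzb (aR ρ) z = Complex.I / 2 * er ρ z + (-1) * (aH z * (er ρ z * dzb (rc ρ) z)) := by
  have e : aR ρ = fun w => aH w * er ρ w := funext aR_eq
  rw [e, dzb_mul (contDiff_aH.differentiable (by simp) z) (dAt (sm_er h) hz), dzb_aH,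
    dzb_er h hz]
  ring

lemma dz_aR' {z : ℂ} (hz : z ∈ UH) :
    dz (aR ρ) z = -(Complex.I / 2) * er ρ z - aH z * (er ρ z * dz (rc ρ) z) := by
  have e : aR ρ = fun w => aH w * er ρ w := funext aR_eq
  rw [e, dz_mul (contDiff_aH.differentiable (by simp) z) (dAt (sm_er h) hz), dz_aH,
    dz_er h hz]
  ring

/-- **the curvature.** -/
theorem curv_id {z : ℂ} (hz : z ∈ UH) :
    aR ρ z * dz (dzb (aR ρ)) z - dz (aR ρ) z * dzb (aR ρ) z
      = -(1 / 4) * er ρ z ^ 2 * ((1 + z.im ^ 2 * Laplacian.laplacian (ro ρ) z : ℝ) : ℂ) := by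
  have hE := dAt (sm_er h) hz
  have hA : DifferentiableAt ℝ aH z := contDiff_aH.differentiable (by simp) z
  have hR := dAt (contDiffOn_dzb isOpen_UH (sm_rc h)) hz
  have e1 : dz (dzb (aR ρ)) z = dz (fun w => Complex.I / 2 * er ρ w
      + (-1) * (aH w * (er ρ w * dzb (rc ρ) w))) z :=
    dz_congr_on isOpen_UH (fun w hw => dzb_aR' h hw) hz
  have e2 : 4 * dz (dzb (rc ρ)) z = ((Laplacian.laplacian (ro ρ) z : ℝ) : ℂ) :=
    four_dz_dzb ((h.contDiffAt (isOpen_UH.mem_nhds hz)).of_le (WithTop.coe_le_coe.2 le_top))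
  have hER : DifferentiableAt ℝ (fun w => er ρ w * dzb (rc ρ) w) z := hE.fun_mul hR
  have hAER : DifferentiableAt ℝ (fun w => aH w * (er ρ w * dzb (rc ρ) w)) z := hA.fun_mul hER
  rw [e1, dz_add (hE.const_mul _) (hAER.const_mul _), dz_const_mul _ hE, dz_const_mul _ hAER,
    dz_mul hA hER, dz_mul hE hR, dz_aH, dz_er h hz, dzb_aR' h hz, dz_aR' h hz, aR_eq]
  have e3 : aH z = (z.im : ℂ) := rfl
  rw [e3]
  push_cast
  rw [← e2]
  linear_combination (1 / 4 * er ρ z ^ 2) * Complex.I_mul_I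

/-- the first part of the transport equation -/
def P1 (ρ : ℍ → ℝ) (k : ℤ) (ζ : ℂ → ℂ) (z : ℂ) : ℂ := aR ρ z * dz ζ z - k * dz (aR ρ) z * ζ z

/-- the second part of the transport equation -/
def P2 (ρ : ℍ → ℝ) (k : ℤ) (ζ : ℂ → ℂ) (z : ℂ) : ℂ := aR ρ z * dzb ζ z + k * dzb (aR ρ) z * ζ z

omit h in
lemma add_test {U : Set ℂ} {f g : ℂ → ℂ} (hf : Test U f) (hg : Test U g) :
    Test U (fun z => f z + g z) := by
  refine ⟨hf.smooth.add hg.smooth, hf.supp.add hg.supp, ?_⟩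
  exact (tsupport_add f g).trans (union_subset hf.sub hg.sub)

lemma test_P1 (k : ℤ) {ζ : ℂ → ℂ} (hζ : Test UH ζ) : Test UH (P1 ρ k ζ) := by
  have hA := contDiffOn_aR h
  have h1 : Test UH (fun z => dz ζ z * aR ρ z) := hζ.dz.mul isOpen_UH hA
  have h2 : Test UH (fun z => ζ z * (-(k : ℂ) * dz (aR ρ) z)) :=
    hζ.mul isOpen_UH (contDiffOn_const.mul (contDiffOn_dz isOpen_UH hA))
  have h3 := add_test h1 h2
  have e : P1 ρ k ζ = fun z => dz ζ z * aR ρ z + ζ z * (-(k : ℂ) * dz (aR ρ) z) := by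
    funext z
    unfold P1
    ring
  rw [e]
  exact h3

lemma test_P2 (k : ℤ) {ζ : ℂ → ℂ} (hζ : Test UH ζ) : Test UH (P2 ρ k ζ) := by
  have hA := contDiffOn_aR h
  have h1 : Test UH (fun z => dzb ζ z * aR ρ z) := hζ.dzb.mul isOpen_UH hA
  have h2 : Test UH (fun z => ζ z * ((k : ℂ) * dzb (aR ρ) z)) :=
    hζ.mul isOpen_UH (contDiffOn_const.mul (contDiffOn_dzb isOpen_UH hA))
  have h3 := add_test h1 h2
  have e : P2 ρ k ζ = fun z => dzb ζ z * aR ρ z + ζ z * ((k : ℂ) * dzb (aR ρ) z) := by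
    funext z
    unfold P2
    ring
  rw [e]
  exact h3

/-- the commutator -/
theorem comm_P (l : ℤ) {ξ : ℂ → ℂ} (hξ : Test UH ξ) {z : ℂ} (hz : z ∈ UH) :
    P2 ρ (l - 1) (P1 ρ l ξ) z - P1 ρ (l + 1) (P2 ρ l ξ) z
      = -2 * l * (aR ρ z * dz (dzb (aR ρ)) z - dz (aR ρ) z * dzb (aR ρ) z) * ξ z := by
  have hA := contDiffOn_aR h
  have dA := dAt hA hz
  have dA1 := dAt (contDiffOn_dz isOpen_UH hA) hz
  have dA2 := dAt (contDiffOn_dzb isOpen_UH hA) hz
  have d0 : DifferentiableAt ℝ ξ z := hξ.smooth.differentiable (by simp) z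
  have d1 : DifferentiableAt ℝ (dz ξ) z := hξ.dz.smooth.differentiable (by simp) z
  have d2 : DifferentiableAt ℝ (dzb ξ) z := hξ.dzb.smooth.differentiable (by simp) z
  have c1 : dz (dzb ξ) z = dzb (dz ξ) z :=
    dz_dzb_comm (hξ.smooth.contDiffAt.of_le (WithTop.coe_le_coe.2 le_top))
  have c2 : dz (dzb (aR ρ)) z = dzb (dz (aR ρ)) z :=
    dz_dzb_comm ((hA.contDiffAt (isOpen_UH.mem_nhds hz)).of_le (WithTop.coe_le_coe.2 le_top))
  have e1 : dzb (P1 ρ l ξ) z = dzb (aR ρ) z * dz ξ z + aR ρ z * dzb (dz ξ) z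
      - l * (dzb (dz (aR ρ)) z * ξ z + dz (aR ρ) z * dzb ξ z) := by
    have e : P1 ρ l ξ = fun z => aR ρ z * dz ξ z - l * (dz (aR ρ) z * ξ z) := by
      funext z; unfold P1; ring
    rw [e, dzb_sub (dA.fun_mul d1) ((dA1.fun_mul d0).const_mul _), dzb_mul dA d1,
      dzb_const_mul _ (dA1.fun_mul d0), dzb_mul dA1 d0]
  have e2 : dz (P2 ρ l ξ) z = dz (aR ρ) z * dzb ξ z + aR ρ z * dz (dzb ξ) z
      + l * (dz (dzb (aR ρ)) z * ξ z + dzb (aR ρ) z * dz ξ z) := by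
    have e : P2 ρ l ξ = fun z => aR ρ z * dzb ξ z + l * (dzb (aR ρ) z * ξ z) := by
      funext z; unfold P2; ring
    rw [e, dz_add (dA.fun_mul d2) ((dA2.fun_mul d0).const_mul _), dz_mul dA d2,
      dz_const_mul _ (dA2.fun_mul d0), dz_mul dA2 d0]
  have f1 : P2 ρ (l - 1) (P1 ρ l ξ) z = aR ρ z * dzb (P1 ρ l ξ) z
      + (l - 1) * dzb (aR ρ) z * (aR ρ z * dz ξ z - l * dz (aR ρ) z * ξ z) := by
    unfold P2 P1
    push_cast
    ring
  have f2 : P1 ρ (l + 1) (P2 ρ l ξ) z = aR ρ z * dz (P2 ρ l ξ) z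
      - (l + 1) * dz (aR ρ) z * (aR ρ z * dzb ξ z + l * dzb (aR ρ) z * ξ z) := by
    unfold P1 P2
    push_cast
    ring
  rw [f1, f2, e1, e2, c1, ← c2]
  ring

end smooth

/-- the transport equations -/
def Trans (ρ : ℍ → ℝ) (u : ℤ → ℂ → ℂ) : Prop := ∀ k : ℤ, ∀ ζ : ℂ → ℂ, Test UH ζ →
    ∫ z, ((aR ρ z * dz ζ z - k * dz (aR ρ) z * ζ z) * u (k - 1) z
      + (aR ρ z * dzb ζ z + k * dzb (aR ρ) z * ζ z) * u (k + 1) z) * gR ρ z = 0

/-- the constant function satisfies the first half of the equation -/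
lemma const_half (h : ContDiffOn ℝ ∞ (ro ρ) UH) {ζ : ℂ → ℂ} (hζ : Test UH ζ) :
    ∫ z, P1 ρ 1 ζ z * gR ρ z = 0 := by
  have hA := contDiffOn_aR h
  have hne : ∀ z ∈ UH, aR ρ z ≠ 0 := fun z hz h0 => by
    have := aR_sq_gR ρ hz
    rw [h0] at this
    simp at this
  have hT : Test UH (fun z => ζ z * (aR ρ z)⁻¹) := hζ.mul isOpen_UH (hA.inv hne)
  rw [← integral_dz_eq_zero hT.smooth hT.supp]
  refine integral_congr_ae (Eventually.of_forall fun z => ?_)
  beta_reduce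
  by_cases hz : z ∈ UH
  · have dA := dAt hA hz
    have dT := hT.smooth.differentiable (by simp) z
    have e1 : dz ζ z = dz (fun w => (ζ w * (aR ρ w)⁻¹) * aR ρ w) z := by
      refine dz_congr_on isOpen_UH (fun w hw => ?_) hz
      rw [mul_assoc, inv_mul_cancel₀ (hne w hw), mul_one]
    rw [dz_mul dT dA] at e1
    unfold P1
    rw [e1, Int.cast_one]
    have h2 := aR_sq_gR ρ hz
    have h3 := mul_inv_cancel₀ (hne z hz)
    linear_combination (dz (fun z => ζ z * (aR ρ z)⁻¹) z) * h2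
      + (ζ z * dz (aR ρ) z * gR ρ z) * h3
  · have h0 : ζ z = 0 := image_eq_zero_of_notMem_tsupport fun hh => hz (hζ.sub hh)
    have h1 : dz ζ z = 0 := image_eq_zero_of_notMem_tsupport fun hh => hz (hζ.dz.sub hh)
    have h2 : dz (fun z => ζ z * (aR ρ z)⁻¹) z = 0 :=
      image_eq_zero_of_notMem_tsupport fun hh => hz (hT.dz.sub hh)
    unfold P1
    rw [h0, h1, h2]
    ring

/-- **two vanishing neighbours.** -/
theorem curv (h : ContDiffOn ℝ ∞ (ro ρ) UH) (hK : ∀ z, 0 < lapR ρ z)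
    (hloc : ∀ k, LocL2 UH (u k)) (ht : Trans ρ u) {l : ℤ} (hl : l ≠ 0)
    (h1 : (∀ᵐ z ∂((volume : Measure ℂ).restrict UH), u (l - 2) z = 0) ∨
      (l = 2 ∧ ∀ᵐ z ∂((volume : Measure ℂ).restrict UH), u 0 z = 1))
    (h2 : ∀ᵐ z ∂((volume : Measure ℂ).restrict UH), u (l + 2) z = 0) :
    ∀ᵐ z ∂((volume : Measure ℂ).restrict UH), u l z = 0 := by
  have hA := contDiffOn_aR h
  have hG := contDiffOn_gR h
  have hne : ∀ z ∈ UH, aR ρ z ≠ 0 := fun z hz h0 => by
    have := aR_sq_gR ρ hz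
    rw [h0] at this
    simp at this
  have int : ∀ {ζ : ℂ → ℂ} (k : ℤ), Test UH ζ → Integrable (fun z => ζ z * u k z * gR ρ z) := by
    intro ζ k hζ
    have := (hζ.mul isOpen_UH hG).int_LocL2 (hloc k)
    refine this.congr (Eventually.of_forall fun z => ?_)
    beta_reduce
    ring
  -- the two equations
  have A : ∀ {ζ : ℂ → ℂ}, Test UH ζ → ∫ z, P2 ρ (l - 1) ζ z * u l z * gR ρ z = 0 := by
    intro ζ hζ
    have t := ht (l - 1) ζ hζ
    have e0 : l - 1 + 1 = l := by ring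
    have e1 : l - 1 - 1 = l - 2 := by ring
    rw [e0, e1] at t
    have j1 := int (l - 2) (test_P1 h (l - 1) hζ)
    have j2 := int l (test_P2 h (l - 1) hζ)
    have t2 : (∫ z, P1 ρ (l - 1) ζ z * u (l - 2) z * gR ρ z)
        + ∫ z, P2 ρ (l - 1) ζ z * u l z * gR ρ z = 0 := by
      rw [← integral_add j1 j2, ← t]
      refine integral_congr_ae (Eventually.of_forall fun z => ?_)
      beta_reduce
      unfold P1 P2
      ring
    have t3 : ∫ z, P1 ρ (l - 1) ζ z * u (l - 2) z * gR ρ z = 0 := by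
      rcases h1 with h1 | ⟨hl2, h1⟩
      · rw [← integral_zero ℂ ℂ (μ := volume)]
        refine integral_congr_ae ?_
        filter_upwards [(ae_restrict_iff' isOpen_UH.measurableSet).1 h1] with z hz
        by_cases hzU : z ∈ UH
        · rw [hz hzU]; ring
        · rw [image_eq_zero_of_notMem_tsupport fun hh => hzU ((test_P1 h (l - 1) hζ).sub hh)]
          ring
      · subst hl2
        have e2 : (2 : ℤ) - 1 = 1 := by norm_num
        have e3 : (2 : ℤ) - 2 = 0 := by norm_num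
        rw [e2, e3, ← const_half h hζ]
        refine integral_congr_ae ?_
        filter_upwards [(ae_restrict_iff' isOpen_UH.measurableSet).1 h1] with z hz
        by_cases hzU : z ∈ UH
        · rw [hz hzU]; ring
        · rw [image_eq_zero_of_notMem_tsupport fun hh => hzU ((test_P1 h 1 hζ).sub hh)]
          ring
    rw [t3, zero_add] at t2
    exact t2
  have B : ∀ {ζ : ℂ → ℂ}, Test UH ζ → ∫ z, P1 ρ (l + 1) ζ z * u l z * gR ρ z = 0 := by
    intro ζ hζ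
    have t := ht (l + 1) ζ hζ
    have e0 : l + 1 - 1 = l := by ring
    have e1 : l + 1 + 1 = l + 2 := by ring
    rw [e0, e1] at t
    rw [← t]
    refine integral_congr_ae ?_
    filter_upwards [(ae_restrict_iff' isOpen_UH.measurableSet).1 h2] with z hz
    by_cases hzU : z ∈ UH
    · rw [hz hzU]
      unfold P1
      ring
    · have z0 : ζ z = 0 := image_eq_zero_of_notMem_tsupport fun hh => hzU (hζ.sub hh)
      have z1 : dz ζ z = 0 := image_eq_zero_of_notMem_tsupport fun hh => hzU (hζ.dz.sub hh)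
      have z2 : dzb ζ z = 0 := image_eq_zero_of_notMem_tsupport fun hh => hzU (hζ.dzb.sub hh)
      unfold P1
      rw [z0, z1, z2]
      ring
  -- the smooth factor
  set c : ℂ → ℂ := fun z => -2 * l * (aR ρ z * dz (dzb (aR ρ)) z - dz (aR ρ) z * dzb (aR ρ) z)
    * gR ρ z with hc
  have hcs : ContDiffOn ℝ ∞ c UH :=
    (contDiffOn_const.mul ((hA.mul (contDiffOn_dz isOpen_UH (contDiffOn_dzb isOpen_UH hA))).sub
      ((contDiffOn_dz isOpen_UH hA).mul (contDiffOn_dzb isOpen_UH hA)))).mul hG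
  have hcne : ∀ z ∈ UH, c z ≠ 0 := by
    intro z hz
    have hz' : 0 < z.im := hz
    rw [hc]
    beta_reduce
    rw [curv_id h hz]
    have h3 : (1 + z.im ^ 2 * Laplacian.laplacian (ro ρ) z : ℝ) ≠ 0 := by
      have := hK ⟨z, hz'⟩
      unfold lapR at this
      exact this.ne'
    have h4 : gR ρ z ≠ 0 := fun h0 => by
      have := aR_sq_gR ρ hz
      rw [h0, mul_zero] at this
      exact zero_ne_one this
    have h5 : er ρ z ≠ 0 := by
      unfold er
      exact_mod_cast (Real.exp_pos _).ne'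
    have h6 : (l : ℂ) ≠ 0 := by exact_mod_cast hl
    have h7 : ((1 + z.im ^ 2 * Laplacian.laplacian (ro ρ) z : ℝ) : ℂ) ≠ 0 := by exact_mod_cast h3
    refine mul_ne_zero (mul_ne_zero (mul_ne_zero (by norm_num) h6) (mul_ne_zero (mul_ne_zero
      (by norm_num) (pow_ne_zero _ h5)) h7)) h4
  refine ae_zero_of_test isOpen_UH (hloc l) fun ψ hψ => ?_
  have hξ : Test UH (fun z => ψ z * (c z)⁻¹) := hψ.mul isOpen_UH (hcs.inv hcne)
  have q1 := A (test_P1 h l hξ)
  have q2 := B (test_P2 h l hξ)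
  have j1 := int l (test_P2 h (l - 1) (test_P1 h l hξ))
  have j2 := int l (test_P1 h (l + 1) (test_P2 h l hξ))
  have q3 := integral_sub j1 j2
  rw [q1, q2, sub_zero] at q3
  rw [← q3]
  refine integral_congr_ae (Eventually.of_forall fun z => ?_)
  beta_reduce
  by_cases hz : z ∈ UH
  · have k1 := comm_P h l hξ hz
    have k2 := mul_inv_cancel₀ (hcne z hz)
    have k3 : c z = -2 * l * (aR ρ z * dz (dzb (aR ρ)) z - dz (aR ρ) z * dzb (aR ρ) z)
      * gR ρ z := rfl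
    beta_reduce at k1
    linear_combination (-(ψ z * u l z)) * k2 + (ψ z * (c z)⁻¹ * u l z) * k3
      - (u l z * gR ρ z) * k1
  · have z0 : ψ z = 0 := image_eq_zero_of_notMem_tsupport fun hh => hz (hψ.sub hh)
    have z1 : P2 ρ (l - 1) (P1 ρ l (fun z => ψ z * (c z)⁻¹)) z = 0 :=
      image_eq_zero_of_notMem_tsupport fun hh => hz ((test_P2 h (l - 1) (test_P1 h l hξ)).sub hh)
    have z2 : P1 ρ (l + 1) (P2 ρ l (fun z => ψ z * (c z)⁻¹)) z = 0 :=
      image_eq_zero_of_notMem_tsupport fun hh => hz ((test_P1 h (l + 1) (test_P2 h l hξ)).sub hh)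
    rw [z0, z1, z2]
    ring

end

end ONE
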