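import Pool.Agent.BWM.C01

/-!
Weyl's lemma for `∂/∂z̄`: a locally integrable weak solution of `∂q/∂z̄ = 0` is a holomorphic
function almost everywhere.
-/

open Complex MeasureTheory Filter Topology Real
open scoped ContDiff

namespace ONE

open QE

noncomputable section

/-- the Cauchy integral of a function which vanishes on a ball is holomorphic on the ball -/
theorem differentiableOn_cauchyInt {g : ℂ → ℂ} (hg : Integrable g) {z₀ : ℂ} {R : ℝ}
    (h0 : ∀ w ∈ Metric.ball z₀ R, g w = 0) :
    DifferentiableOn ℂ (fun z => ∫ w, g w * ck (z - w)) (Metric.ball z₀ R) := by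
  intro z₁ hz₁
  have hz₁' : dist z₁ z₀ < R := hz₁
  set δ : ℝ := (R - dist z₁ z₀) / 2 with hδ
  have hδpos : 0 < δ := by rw [hδ]; linarith
  have hp : (π : ℂ) ≠ 0 := by exact_mod_cast pi_ne_zero
  have hfar : ∀ z ∈ Metric.ball z₁ δ, ∀ w, g w ≠ 0 → δ ≤ ‖z - w‖ := by
    intro z hz w hw
    have hw' : R ≤ dist w z₀ := by
      by_contra hcon
      exact hw (h0 w (by simpa using not_le.mp hcon))
    have hz' : dist z z₁ < δ := hz
    have t1 : dist w z₀ ≤ dist w z + dist z z₁ + dist z₁ z₀ := by
      calc dist w z₀ ≤ dist w z₁ + dist z₁ z₀ := dist_triangle _ _ _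
        _ ≤ dist w z + dist z z₁ + dist z₁ z₀ := by
          have := dist_triangle w z z₁; linarith
    have t2 : ‖z - w‖ = dist w z := by rw [dist_comm, dist_eq_norm]
    rw [t2]
    rw [hδ] at hz' ⊢
    linarith
  have hmeas : ∀ z : ℂ, AEStronglyMeasurable (fun w => g w * ck (z - w)) volume := fun z =>
    hg.aestronglyMeasurable.mul
      (measurable_ck.comp (measurable_const.sub measurable_id)).aestronglyMeasurable
  have hckb : ∀ z ∈ Metric.ball z₁ δ, ∀ w, g w ≠ 0 → ‖ck (z - w)‖ ≤ 1 / (π * δ) := by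
    intro z hz w hw
    have h1 := hfar z hz w hw
    unfold ck
    rw [norm_inv, norm_mul, Complex.norm_real, Real.norm_of_nonneg pi_pos.le, ← one_div]
    exact one_div_le_one_div_of_le (by positivity) (by gcongr)
  have hint : Integrable (fun w => g w * ck (z₁ - w)) := by
    refine (hg.norm.const_mul (1 / (π * δ))).mono' (hmeas z₁) (Filter.Eventually.of_forall fun w => ?_)
    by_cases hw : g w = 0
    · simp [hw]
    · rw [norm_mul, mul_comm]
      gcongr
      exact hckb z₁ (Metric.mem_ball_self hδpos) w hw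
  have hmain := hasDerivAt_integral_of_dominated_loc_of_deriv_le (𝕜 := ℂ) (μ := (volume : Measure ℂ))
    (s := Metric.ball z₁ δ) (x₀ := z₁) (F := fun z w => g w * ck (z - w))
    (F' := fun z w => g w * (-(π : ℂ) / ((π : ℂ) * (z - w)) ^ 2))
    (bound := fun w => 1 / (π * δ ^ 2) * ‖g w‖)
    (Metric.ball_mem_nhds z₁ hδpos) (Filter.Eventually.of_forall fun z => hmeas z) hint
    (hg.aestronglyMeasurable.mul
      (by
        have : Measurable fun w : ℂ => (-(π : ℂ) / ((π : ℂ) * (z₁ - w)) ^ 2) := by fun_prop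
        exact this.aestronglyMeasurable))
    (Filter.Eventually.of_forall fun w => ?_) (hg.norm.const_mul _)
    (Filter.Eventually.of_forall fun w => ?_)
  · exact hmain.2.differentiableAt.differentiableWithinAt
  · intro z hz
    by_cases hw : g w = 0
    · simp [hw]
    · have h1 := hfar z hz w hw
      have hnpos : 0 < ‖z - w‖ := lt_of_lt_of_le hδpos h1
      rw [norm_mul, mul_comm]
      gcongr
      rw [norm_div, norm_neg, norm_pow, norm_mul, Complex.norm_real, Real.norm_of_nonneg pi_pos.le,
        div_le_div_iff₀ (pow_pos (mul_pos pi_pos hnpos) 2) (by positivity)]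
      have h2 : δ ^ 2 ≤ ‖z - w‖ ^ 2 := by gcongr
      have h3 := mul_le_mul_of_nonneg_left h2 (by positivity : (0:ℝ) ≤ π * π)
      nlinarith
  · intro z hz
    by_cases hw : g w = 0
    · simp only [hw, zero_mul]
      exact hasDerivAt_const _ _
    · have h1 := hfar z hz w hw
      have hne : z - w ≠ 0 := by
        intro h; rw [h, norm_zero] at h1; linarith
      have hd : HasDerivAt (fun z : ℂ => (π : ℂ) * (z - w)) ((π : ℂ) * 1) z :=
        ((hasDerivAt_id z).sub_const w).const_mul _
      have hd2 := (hd.inv (mul_ne_zero hp hne)).const_mul (g w)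
      rw [mul_one] at hd2
      exact hd2

theorem ck_neg (w : ℂ) : ck (-w) = - ck w := by
  unfold ck
  rw [mul_neg, inv_neg]

theorem cauchy_eq (f : ℂ → ℂ) (z : ℂ) : cauchy f z = ∫ w, ck (z - w) * f w := by
  unfold QE.cauchy
  rw [← integral_sub_left_eq_self (fun w => ck w * f (z - w)) volume z]
  refine integral_congr_ae (Filter.Eventually.of_forall fun w => ?_)
  simp

/-- exchanging the order of integration -/
theorem integral_cauchyInt {g η : ℂ → ℂ} (hg : Integrable g) (hη : Continuous η)
    (hηc : HasCompactSupport η) {δ : ℝ} (hδ : 0 < δ)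
    (hfar : ∀ z w, η z ≠ 0 → g w ≠ 0 → δ ≤ ‖z - w‖) :
    ∫ z, η z * ∫ w, g w * ck (z - w) = - ∫ w, g w * cauchy η w := by
  have hηi : Integrable η := hη.integrable_of_hasCompactSupport hηc
  have hprod : Integrable (fun p : ℂ × ℂ => η p.1 * (g p.2 * ck (p.1 - p.2)))
      ((volume : Measure ℂ).prod (volume : Measure ℂ)) := by
    have h1 : Integrable (fun p : ℂ × ℂ => (1 / (π * δ)) * (‖η p.1‖ * ‖g p.2‖))
        ((volume : Measure ℂ).prod (volume : Measure ℂ)) :=
      (hηi.norm.mul_prod hg.norm).const_mul _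
    refine h1.mono' ?_ (Filter.Eventually.of_forall fun p => ?_)
    · refine (hη.aestronglyMeasurable.comp_fst).mul ((hg.aestronglyMeasurable.comp_snd).mul ?_)
      exact (measurable_ck.comp (measurable_fst.sub measurable_snd)).aestronglyMeasurable
    · by_cases h2 : η p.1 = 0
      · simp [h2]
      by_cases h3 : g p.2 = 0
      · simp [h3]
      have h4 := hfar p.1 p.2 h2 h3
      have h5 : ‖ck (p.1 - p.2)‖ ≤ 1 / (π * δ) := by
        unfold ck
        rw [norm_inv, norm_mul, Complex.norm_real, Real.norm_of_nonneg pi_pos.le, ← one_div]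
        exact one_div_le_one_div_of_le (by positivity) (by gcongr)
      rw [norm_mul, norm_mul]
      calc ‖η p.1‖ * (‖g p.2‖ * ‖ck (p.1 - p.2)‖)
          ≤ ‖η p.1‖ * (‖g p.2‖ * (1 / (π * δ))) := by gcongr
        _ = _ := by ring
  calc ∫ z, η z * ∫ w, g w * ck (z - w)
      = ∫ z, ∫ w, η z * (g w * ck (z - w)) := by
        refine integral_congr_ae (Filter.Eventually.of_forall fun z => ?_)
        simp only []
        rw [integral_const_mul]
    _ = ∫ w, ∫ z, η z * (g w * ck (z - w)) := integral_integral_swap hprod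
    _ = ∫ w, - (g w * cauchy η w) := by
        refine integral_congr_ae (Filter.Eventually.of_forall fun w => ?_)
        simp only []
        rw [cauchy_eq, ← integral_const_mul, ← integral_neg]
        refine integral_congr_ae (Filter.Eventually.of_forall fun z => ?_)
        simp only []
        rw [show w - z = -(z - w) by ring, ck_neg]
        ring
    _ = _ := integral_neg _

/-- a test function times a locally integrable function is integrable -/
theorem _root_.QE.Test.integrable_mulW {U : Set ℂ} {ζ q : ℂ → ℂ} (h : Test U ζ)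
    (hq : LocallyIntegrableOn q U) : Integrable (fun z => ζ z * q z) := by
  have hK : IntegrableOn q (tsupport ζ) :=
    hq.integrableOn_compact_subset h.sub h.supp
  have hb : ∃ B : ℝ, ∀ w, ‖ζ w‖ ≤ B := h.smooth.continuous.bounded_above_of_compact_support h.supp
  obtain ⟨B, hB⟩ := hb
  have h1 : IntegrableOn (fun z => ζ z * q z) (tsupport ζ) :=
    Integrable.bdd_mul hK h.smooth.continuous.aestronglyMeasurable
      (Filter.Eventually.of_forall fun w => hB w)
  refine (integrableOn_iff_integrable_of_support_subset ?_).mp h1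
  intro z hz
  have : ζ z ≠ 0 := by
    intro h0
    exact hz (by simp [h0])
  exact subset_tsupport ζ this

/-- Weyl's lemma, local form -/
theorem weyl_local {U : Set ℂ} (hU : IsOpen U) {q : ℂ → ℂ} (hq : LocallyIntegrableOn q U)
    (h : ∀ ζ, Test U ζ → ∫ w, dzb ζ w * q w = 0) {z₀ : ℂ} (hz₀ : z₀ ∈ U) :
    ∃ r : ℝ, 0 < r ∧ Metric.ball z₀ r ⊆ U ∧ ∃ f : ℂ → ℂ, DifferentiableOn ℂ f (Metric.ball z₀ r) ∧
      ∀ᵐ z, z ∈ Metric.ball z₀ r → q z = f z := by
  obtain ⟨s, hs, hsU⟩ := Metric.isOpen_iff.mp hU z₀ hz₀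
  set r : ℝ := s / 4 with hr
  have hrpos : 0 < r := by rw [hr]; linarith
  have hK : IsCompact (Metric.closedBall z₀ (2 * r)) := isCompact_closedBall _ _
  have hKU : Metric.closedBall z₀ (2 * r) ⊆ U := by
    refine (Metric.closedBall_subset_ball ?_).trans hsU
    rw [hr]; linarith
  obtain ⟨χ, hχ, hχ1, -⟩ := exists_cutoff hU hK hKU
  have hball : Metric.ball z₀ r ⊆ U := (Metric.ball_subset_ball (by rw [hr]; linarith)).trans hsU
  set g : ℂ → ℂ := fun w => dzb χ w * q w with hgdef
  have hg : Integrable g := hχ.dzb.integrable_mulW hq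
  have hg0 : ∀ w ∈ Metric.closedBall z₀ (2 * r), g w = 0 := by
    intro w hw
    have h1 : χ =ᶠ[𝓝 w] fun _ => 1 := hχ1 w hw
    rw [hgdef]; simp only []
    rw [dzb_congr h1, dzb_const, zero_mul]
  set f : ℂ → ℂ := fun z => ∫ w, g w * ck (z - w) with hf
  have hfd : DifferentiableOn ℂ f (Metric.ball z₀ (2 * r)) :=
    differentiableOn_cauchyInt hg fun w hw => hg0 w (Metric.ball_subset_closedBall hw)
  have hfd' : DifferentiableOn ℂ f (Metric.ball z₀ r) :=
    hfd.mono (Metric.ball_subset_ball (by linarith))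
  refine ⟨r, hrpos, hball, f, hfd', ?_⟩
  have hfl : LocallyIntegrableOn f (Metric.ball z₀ r) :=
    hfd'.continuousOn.locallyIntegrableOn Metric.isOpen_ball.measurableSet
  have hql : LocallyIntegrableOn q (Metric.ball z₀ r) := hq.mono_set hball
  have key := Metric.isOpen_ball.ae_eq_zero_of_integral_contDiff_smul_eq_zero
    (μ := (volume : Measure ℂ)) (U := Metric.ball z₀ r) (f := fun z => q z - f z) (hql.sub hfl) ?_
  · filter_upwards [key] with z hz hzb
    exact sub_eq_zero.mp (hz hzb)
  · intro φ hφ hφc hφs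
    -- the complex valued test function
    set η : ℂ → ℂ := fun z => (φ z : ℂ) with hη
    have hηsupp : Function.support η ⊆ Function.support φ := by
      intro z hz hz0
      apply hz
      have : φ z = 0 := hz0
      simp [hη, this]
    have hηt : Test (Metric.ball z₀ r) η :=
      ⟨ofRealCLM.contDiff.comp hφ, hφc.of_isClosed_subset (isClosed_tsupport _) (closure_mono hηsupp),
        (closure_mono hηsupp).trans hφs⟩
    have hu : ContDiff ℝ ∞ (cauchy η) := contDiff_cauchy hηt.smooth hηt.supp
    have hχu : Test U (fun z => χ z * cauchy η z) := hχ.mul hU hu.contDiffOn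
    have h1 := h _ hχu
    have hχη : ∀ w, χ w * η w = η w := by
      intro w
      by_cases hw : η w = 0
      · simp [hw]
      · have hw' : w ∈ Metric.closedBall z₀ (2 * r) := by
          have h2 : w ∈ Metric.ball z₀ r := hηt.sub (subset_tsupport η hw)
          have h3 : dist w z₀ < r := h2
          have : dist w z₀ ≤ 2 * r := by linarith
          exact this
        rw [(hχ1 w hw').self_of_nhds, one_mul]
    have hdz : ∀ w, dzb (fun z => χ z * cauchy η z) w = dzb χ w * cauchy η w + η w := by
      intro w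
      rw [dzb_mul (hχ.smooth.differentiable (by simp) w) (hu.differentiable (by simp) w),
        dzb_cauchy hηt.smooth hηt.supp, hχη]
    have hI1 : Integrable (fun w => (dzb χ w * cauchy η w) * q w) :=
      (hχ.dzb.mul hU hu.contDiffOn).integrable_mulW hq
    have hI2 : Integrable (fun w => η w * q w) := (hηt.mono hball).integrable_mulW hq
    have hI3 : Integrable (fun w => η w * f w) :=
      hηt.integrable_mul Metric.isOpen_ball hfd'.continuousOn
    have h2 : ∫ w, η w * q w = - ∫ w, g w * cauchy η w := by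
      have e : (fun w => dzb (fun z => χ z * cauchy η z) w * q w)
          = fun w => (dzb χ w * cauchy η w) * q w + η w * q w := by
        funext w; rw [hdz]; ring
      rw [e, integral_add hI1 hI2] at h1
      have e2 : ∫ w, g w * cauchy η w = ∫ w, (dzb χ w * cauchy η w) * q w := by
        refine integral_congr_ae (Filter.Eventually.of_forall fun w => ?_)
        simp only [hgdef]; ring
      rw [e2]
      linear_combination h1
    have h3 : ∫ z, η z * f z = - ∫ w, g w * cauchy η w := by
      refine integral_cauchyInt hg hηt.smooth.continuous hηt.supp hrpos ?_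
      intro z w hz hw
      have h4 : dist z z₀ < r := hηt.sub (subset_tsupport η hz)
      have h5 : 2 * r < dist w z₀ := by
        by_contra hcon
        exact hw (hg0 w (by simpa using not_lt.mp hcon))
      have h6 := dist_triangle w z z₀
      have h7 : ‖z - w‖ = dist w z := by rw [dist_comm, dist_eq_norm]
      rw [h7]; linarith
    have e3 : (fun x => φ x • (q x - f x)) = fun x => η x * q x - η x * f x := by
      funext x
      rw [Complex.real_smul, hη]; ring
    rw [e3, integral_sub hI2 hI3, h2, h3, sub_self]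

/-- two continuous functions which agree almost everywhere on an open set agree on the set -/
theorem eq_of_ae_eq {V : Set ℂ} (hV : IsOpen V) {f g : ℂ → ℂ} (hf : ContinuousOn f V)
    (hg : ContinuousOn g V) (h : ∀ᵐ z, z ∈ V → f z = g z) : ∀ z ∈ V, f z = g z := by
  have h1 : f =ᵐ[(volume : Measure ℂ).restrict V] g := by
    rw [Filter.EventuallyEq, ae_restrict_iff' hV.measurableSet]
    exact h
  exact Measure.eqOn_open_of_ae_eq h1 hV hf hg

/-- **Weyl's lemma** for `∂/∂z̄` -/
theorem weyl {U : Set ℂ} (hU : IsOpen U) {q : ℂ → ℂ} (hq : LocallyIntegrableOn q U)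
    (h : ∀ ζ, Test U ζ → ∫ w, dzb ζ w * q w = 0) :
    ∃ f : ℂ → ℂ, DifferentiableOn ℂ f U ∧ ∀ᵐ z ∂(volume.restrict U), q z = f z := by
  classical
  choose! r hr hrU F hFd hFq using fun (z : ℂ) (hz : z ∈ U) => weyl_local hU hq h hz
  have hloc : ∀ z₀ ∈ U, ∀ z ∈ Metric.ball z₀ (r z₀), F z z = F z₀ z := by
    intro z₀ hz₀ z hz
    have hzU : z ∈ U := hrU z₀ hz₀ hz
    have hV : IsOpen (Metric.ball z₀ (r z₀) ∩ Metric.ball z (r z)) :=
      Metric.isOpen_ball.inter Metric.isOpen_ball
    refine (eq_of_ae_eq hV (f := F z) (g := F z₀)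
      ((hFd z hzU).continuousOn.mono Set.inter_subset_right)
      ((hFd z₀ hz₀).continuousOn.mono Set.inter_subset_left) ?_) z
      ⟨hz, Metric.mem_ball_self (hr z hzU)⟩
    filter_upwards [hFq z hzU, hFq z₀ hz₀] with w h1 h2 hw
    rw [← h1 hw.2, h2 hw.1]
  refine ⟨fun z => F z z, ?_, ?_⟩
  · intro z₀ hz₀
    have h1 : DifferentiableAt ℂ (F z₀) z₀ :=
      (hFd z₀ hz₀).differentiableAt (Metric.ball_mem_nhds z₀ (hr z₀ hz₀))
    have h2 : (fun z => F z z) =ᶠ[𝓝 z₀] F z₀ := by
      filter_upwards [Metric.ball_mem_nhds z₀ (hr z₀ hz₀)] with z hz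
      exact hloc z₀ hz₀ z hz
    exact (h1.congr_of_eventuallyEq h2).differentiableWithinAt
  · rw [ae_restrict_iff' hU.measurableSet, ae_iff]
    refine measure_null_of_locally_null _ fun z₀ hz₀ => ?_
    have hz₀U : z₀ ∈ U := by
      by_contra hcon
      exact hz₀ fun hh => absurd hh hcon
    refine ⟨Metric.ball z₀ (r z₀) ∩ {a | ¬(a ∈ U → q a = F a a)},
      inter_mem (mem_nhdsWithin_of_mem_nhds (Metric.ball_mem_nhds z₀ (hr z₀ hz₀U))) self_mem_nhdsWithin, ?_⟩
    have h3 := hFq z₀ hz₀U
    rw [ae_iff] at h3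
    refine measure_mono_null ?_ h3
    rintro a ⟨ha1, ha2⟩ hcon
    apply ha2
    intro _
    rw [hcon ha1, hloc z₀ hz₀U a ha1]

end

end ONE
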