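import Pool.Agent.ONE.Curv
import Pool.Agent.ONE.Weyl

/-!
Moments of an invariant measure on a closed surface (any metric): if the moment of index `l + 2`
vanishes and `l > 0`, the moment of index `l` vanishes. (It is an antiholomorphic section of a line
bundle of negative degree.)
-/

open Complex MeasureTheory Filter Topology Set
open UpperHalfPlane hiding I
open scoped ContDiff MatrixGroups

namespace ONE

open QE QE.NC

noncomputable section

variable {Γ : Subgroup SL(2, ℝ)} {ρ : ℍ → ℝ} {u : ℤ → ℂ → ℂ}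

lemma aR_ne {z : ℂ} (hz : z ∈ UH) : aR ρ z ≠ 0 := fun h0 => by
  have := aR_sq_gR ρ hz
  rw [h0] at this
  simp at this

/-- the second half of the transport equation, if the next moment vanishes -/
lemma half (ht : Trans ρ u) {l : ℤ}
    (h2 : ∀ᵐ z ∂((volume : Measure ℂ).restrict UH), u (l + 2) z = 0) {ζ : ℂ → ℂ}
    (hζ : Test UH ζ) : ∫ z, P1 ρ (l + 1) ζ z * u l z * gR ρ z = 0 := by
  have t := ht (l + 1) ζ hζ
  have e0 : l + 1 - 1 = l := by ring
  have e1 : l + 1 + 1 = l + 2 := by ring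
  rw [e0, e1] at t
  rw [← t]
  refine integral_congr_ae ?_
  filter_upwards [(ae_restrict_iff' isOpen_UH.measurableSet).1 h2] with z hz
  by_cases hzU : z ∈ UH
  · rw [hz hzU]
    unfold P1
    ring
  · have z0 : ζ z = 0 := image_eq_zero_of_notMem_tsupport fun hh => hzU (hζ.sub hh)
    have z1 : dz ζ z = 0 := image_eq_zero_of_notMem_tsupport fun hh => hzU (hζ.dz.sub hh)
    have z2 : dzb ζ z = 0 := image_eq_zero_of_notMem_tsupport fun hh => hzU (hζ.dzb.sub hh)
    unfold P1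
    rw [z0, z1, z2]
    ring

/-- the derivative of a power of `a` times a test function -/
lemma P1_pow (h : ContDiffOn ℝ ∞ (ro ρ) UH) (l : ℕ) {ξ : ℂ → ℂ} (hξ : Test UH ξ) {z : ℂ}
    (hz : z ∈ UH) : P1 ρ ((l : ℤ) + 1) (fun w => ξ w * aR ρ w ^ (l + 1)) z * gR ρ z
      = dz ξ z * aR ρ z ^ l := by
  have hA := contDiffOn_aR h
  have dA := dAt hA hz
  have dX : DifferentiableAt ℝ ξ z := hξ.smooth.differentiable (by simp) z
  have hp : ∀ n : ℕ, DifferentiableAt ℝ (fun w => aR ρ w ^ n) z := fun n => dAt (hA.pow n) hz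
  have hpow : ∀ n : ℕ, dz (fun w => aR ρ w ^ (n + 1)) z = (n + 1) * aR ρ z ^ n * dz (aR ρ) z := by
    intro n
    induction n with
    | zero => simp
    | succ n ih =>
      have e : (fun w => aR ρ w ^ (n + 1 + 1)) = fun w => aR ρ w ^ (n + 1) * aR ρ w := by
        funext w; ring
      rw [e, dz_mul (hp (n + 1)) dA, ih]
      push_cast
      ring
  unfold P1
  rw [dz_mul dX (hp (l + 1)), hpow l]
  have h2 := aR_sq_gR ρ hz
  push_cast
  linear_combination (dz ξ z * aR ρ z ^ l) * h2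

/-- the antiholomorphic function -/
lemma exists_hol (h : ContDiffOn ℝ ∞ (ro ρ) UH) (hloc : ∀ k, LocL2 UH (u k)) (ht : Trans ρ u)
    {l : ℕ} (h2 : ∀ᵐ z ∂((volume : Measure ℂ).restrict UH), u ((l : ℤ) + 2) z = 0) :
    ∃ f : ℂ → ℂ, DifferentiableOn ℂ f UH ∧
      ∀ᵐ z ∂((volume : Measure ℂ).restrict UH),
        (starRingEnd ℂ) (aR ρ z ^ l * u l z) = f z := by
  have hA := contDiffOn_aR h
  refine weyl isOpen_UH ?_ ?_
  · rw [locallyIntegrableOn_iff isOpen_UH.isLocallyClosed]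
    intro K hKU hK
    have : IsFiniteMeasure ((volume : Measure ℂ).restrict K) := ⟨by
      simpa using hK.measure_lt_top⟩
    have h1 : IntegrableOn (u l) K := (hloc l K hK hKU).integrable (by norm_num)
    have h3 : IntegrableOn (fun z => aR ρ z ^ l * u l z) K :=
      h1.continuousOn_mul ((hA.continuousOn.pow l).mono hKU) hK
    have h4 := (Complex.conjCLE : ℂ →L[ℝ] ℂ).integrable_comp h3
    exact h4
  · intro ζ hζ
    have hξ := hζ.conj
    have hT : Test UH (fun w => (starRingEnd ℂ) (ζ w) * aR ρ w ^ (l + 1)) :=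
      hξ.mul isOpen_UH (hA.pow (l + 1))
    have h3 := half ht h2 hT
    have h4 := congrArg (starRingEnd ℂ) h3
    rw [map_zero, ← integral_conj] at h4
    rw [← h4]
    refine integral_congr_ae (Eventually.of_forall fun z => ?_)
    beta_reduce
    by_cases hz : z ∈ UH
    · have e1 := P1_pow h l hξ hz
      have e2 : dz (fun z => (starRingEnd ℂ) (ζ z)) z = (starRingEnd ℂ) (dzb ζ z) :=
        dz_conj (hζ.smooth.differentiable (by simp) z)
      rw [e2] at e1
      have e3 : P1 ρ ((l : ℤ) + 1) (fun w => (starRingEnd ℂ) (ζ w) * aR ρ w ^ (l + 1)) z * u l z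
          * gR ρ z = (starRingEnd ℂ) (dzb ζ z) * aR ρ z ^ l * u l z := by
        linear_combination (u l z) * e1
      rw [e3]
      simp only [map_mul, map_pow, Complex.conj_conj]
      ring
    · rw [image_eq_zero_of_notMem_tsupport fun hh => hz (hζ.dzb.sub hh)]
      have e3 : P1 ρ ((l : ℤ) + 1) (fun w => (starRingEnd ℂ) (ζ w) * aR ρ w ^ (l + 1)) z = 0 :=
        image_eq_zero_of_notMem_tsupport fun hh => hz ((test_P1 h _ hT).sub hh)
      rw [e3]
      simp

/-- the distance of a point to the conjugate of another -/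
lemma dist_conj (z w : ℂ) : ‖z - (starRingEnd ℂ) w‖ ^ 2 = ‖z - w‖ ^ 2 + 4 * z.im * w.im := by
  rw [← Complex.normSq_eq_norm_sq, ← Complex.normSq_eq_norm_sq, Complex.normSq_apply,
    Complex.normSq_apply]
  simp only [Complex.sub_re, Complex.sub_im, Complex.conj_re, Complex.conj_im]
  ring

/-- a holomorphic function `f` such that `|f| / y ^ l` has a maximum is zero -/
lemma max_zero {f : ℂ → ℂ} (hf : DifferentiableOn ℂ f UH) {l : ℕ} (hl : 0 < l) {z₀ : ℂ}
    (hz₀ : z₀ ∈ UH) (hmax : ∀ z ∈ UH, ‖f z‖ / z.im ^ l ≤ ‖f z₀‖ / z₀.im ^ l) :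
    ∀ z ∈ UH, f z = 0 := by
  have hy0 : 0 < z₀.im := hz₀
  by_cases h0 : f z₀ = 0
  · intro z hz
    have hy : 0 < z.im := hz
    have h1 := hmax z hz
    rw [h0, norm_zero, zero_div] at h1
    have h2 : ‖f z‖ ≤ 0 := by
      have h3 : 0 < z.im ^ l := pow_pos hy l
      rw [div_le_iff₀ h3, zero_mul] at h1
      exact h1
    exact norm_le_zero_iff.1 h2
  exfalso
  set M := ‖f z₀‖ / z₀.im ^ l with hM
  have hMpos : 0 < M := div_pos (norm_pos_iff.2 h0) (pow_pos hy0 l)
  have hne : ∀ z ∈ UH, z - (starRingEnd ℂ) z₀ ≠ 0 := by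
    intro z hz h
    have hy : 0 < z.im := hz
    have := congrArg Complex.im h
    simp only [Complex.sub_im, Complex.conj_im, Complex.zero_im] at this
    linarith
  set F : ℂ → ℂ := fun z => f z / (z - (starRingEnd ℂ) z₀) ^ (2 * l) with hF
  have hFd : DifferentiableOn ℂ F UH := by
    refine hf.div ((differentiableOn_id.sub (differentiableOn_const _)).pow _) fun z hz => ?_
    exact pow_ne_zero _ (hne z hz)
  have hFn : ∀ z ∈ UH, ‖F z‖ = (‖f z‖ / z.im ^ l)
      * (z.im / ‖z - (starRingEnd ℂ) z₀‖ ^ 2) ^ l := by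
    intro z hz
    have hy : 0 < z.im := hz
    rw [hF]
    beta_reduce
    rw [norm_div, norm_pow, pow_mul, div_pow]
    have h3 : z.im ^ l ≠ 0 := (pow_pos hy l).ne'
    field_simp
  have hF0 : ‖F z₀‖ = M * (1 / (4 * z₀.im)) ^ l := by
    rw [hFn z₀ hz₀, dist_conj, sub_self, norm_zero]
    congr 2
    field_simp
    ring
  have hle : ∀ z ∈ UH, z.im / ‖z - (starRingEnd ℂ) z₀‖ ^ 2 ≤ 1 / (4 * z₀.im) := by
    intro z hz
    have hy : 0 < z.im := hz
    rw [dist_conj, div_le_div_iff₀ (by positivity) (by positivity)]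
    nlinarith [sq_nonneg ‖z - z₀‖]
  have hbd : IsMaxOn (norm ∘ F) UH z₀ := by
    intro z hz
    have hy : 0 < z.im := hz
    show ‖F z‖ ≤ ‖F z₀‖
    rw [hFn z hz, hF0]
    exact mul_le_mul (hmax z hz) (pow_le_pow_left₀ (by positivity) (hle z hz) l) (by positivity)
      hMpos.le
  have hconv : Convex ℝ UH := by
    have : UH = (fun z : ℂ => z.im) ⁻¹' Set.Ioi 0 := rfl
    rw [this]
    exact (convex_Ioi 0).is_linear_preimage Complex.imLm.isLinear
  have hEq := Complex.norm_eqOn_of_isPreconnected_of_isMaxOn hconv.isPreconnected isOpen_UH hFd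
    hz₀ hbd
  set z₁ : ℂ := z₀ + 1 with hz1
  have hz1U : z₁ ∈ UH := by
    show 0 < z₁.im
    rw [hz1]
    simpa using hy0
  have h3 : ‖F z₁‖ = ‖F z₀‖ := hEq hz1U
  have him : z₁.im = z₀.im := by rw [hz1]; simp
  have hlt : z₁.im / ‖z₁ - (starRingEnd ℂ) z₀‖ ^ 2 < 1 / (4 * z₀.im) := by
    rw [dist_conj, him, div_lt_div_iff₀ (by positivity) (by positivity)]
    have : ‖z₁ - z₀‖ = 1 := by rw [hz1]; simp
    rw [this]
    nlinarith
  have h4 : ‖F z₁‖ < ‖F z₀‖ := by
    rw [hFn z₁ hz1U, hF0]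
    have hy1 : 0 < z₁.im := hz1U
    refine lt_of_le_of_lt (mul_le_mul_of_nonneg_right (hmax z₁ hz1U) (by positivity)) ?_
    exact mul_lt_mul_of_pos_left (pow_lt_pow_left₀ hlt (by positivity) hl.ne') hMpos
  exact absurd h3 h4.ne

/-- **From one moment to the next one below.** -/
theorem down (hF : Fac Γ ρ) (hloc : ∀ k, LocL2 UH (u k)) (ht : Trans ρ u)
    (he : ∀ γ ∈ Γ, ∀ k : ℤ, ∀ᵐ z ∂((volume : Measure ℂ).restrict UH),
      u k z = phase γ z ^ k * u k (mob γ z)) {l : ℕ} (hl : 0 < l)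
    (h2 : ∀ᵐ z ∂((volume : Measure ℂ).restrict UH), u ((l : ℤ) + 2) z = 0) :
    ∀ᵐ z ∂((volume : Measure ℂ).restrict UH), u l z = 0 := by
  obtain ⟨f, hf, hfu⟩ := exists_hol hF.smooth hloc ht h2
  -- the norm of the form
  set H : ℂ → ℝ := fun z => ‖f z‖ / z.im ^ l with hH
  have hHc : ContinuousOn H UH := by
    refine hf.continuousOn.norm.div (Complex.continuous_im.continuousOn.pow l) fun z hz => ?_
    have : 0 < z.im := hz
    exact (pow_pos this l).ne'
  have hHu : ∀ᵐ z ∂((volume : Measure ℂ).restrict UH),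
      H z = Real.exp (-(ro ρ z)) ^ l * ‖u l z‖ := by
    filter_upwards [hfu, ae_restrict_mem isOpen_UH.measurableSet] with z hz hzU
    have hy : 0 < z.im := hzU
    rw [hH]
    beta_reduce
    rw [← hz, RCLike.norm_conj, norm_mul, norm_pow]
    have h3 : ‖aR ρ z‖ = z.im * Real.exp (-(ro ρ z)) := by
      unfold aR
      rw [Complex.norm_real, Real.norm_of_nonneg (by positivity)]
    rw [h3, mul_pow]
    have h4 : z.im ^ l ≠ 0 := (pow_pos hy l).ne'
    field_simp
  have hinv : ∀ γ ∈ Γ, ∀ z ∈ UH, H (mob γ z) = H z := by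
    intro γ hγ z hz
    have hmc : ContinuousOn (fun z => H (mob γ z)) UH :=
      hHc.comp (continuousOn_mob γ) fun z _ => mob_mem γ z
    have h3 : ∀ᵐ z : ℍ, H ((γ • z : ℍ) : ℂ)
        = Real.exp (-(ro ρ ((γ • z : ℍ) : ℂ))) ^ l * ‖u l ((γ • z : ℍ) : ℂ)‖ :=
      (measurePreserving_smul γ (volume : Measure ℍ)).quasiMeasurePreserving.ae
        (QE.FM.ae_H hHu)
    have h4 : ∀ᵐ z : ℍ, H ((γ • z : ℍ) : ℂ) = H (z : ℂ) := by
      filter_upwards [h3, QE.FM.ae_H hHu, QE.FM.ae_H (he γ hγ l)] with z z1 z2 z3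
      rw [z1, z2, z3]
      have e1 : mob γ (z : ℂ) = ((γ • z : ℍ) : ℂ) := by
        unfold mob
        rw [ofComplex_apply]
      have e2 : ro ρ ((γ • z : ℍ) : ℂ) = ro ρ (z : ℂ) := by
        unfold ro
        rw [ofComplex_apply, ofComplex_apply, hF.inv γ hγ]
      rw [e1, e2, norm_mul, norm_zpow, norm_phase γ z.im_pos, one_zpow, one_mul]
    have h5 : ∀ᵐ z ∂((volume : Measure ℂ).restrict UH), H (mob γ z) = H z := by
      refine ae_UH ?_
      filter_upwards [h4] with z hz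
      have e1 : mob γ (z : ℂ) = ((γ • z : ℍ) : ℂ) := by
        unfold mob
        rw [ofComplex_apply]
      rw [e1]
      exact hz
    exact Measure.eqOn_open_of_ae_eq (f := fun z => H (mob γ z)) (g := H) h5 isOpen_UH hmc hHc hz
  -- the maximum
  obtain ⟨K, hK, hKc⟩ := hF.cpt
  have hHH : Continuous fun z : ℍ => H (z : ℂ) :=
    hHc.comp_continuous continuous_coe fun z => z.im_pos
  have hKn : K.Nonempty := by
    obtain ⟨γ, -, hγ⟩ := hKc UpperHalfPlane.I
    exact ⟨_, hγ⟩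
  obtain ⟨z₀, hz₀, hz₀m⟩ := hK.exists_isMaxOn hKn hHH.continuousOn
  have hmax : ∀ z ∈ UH, ‖f z‖ / z.im ^ l ≤ ‖f z₀‖ / (z₀ : ℂ).im ^ l := by
    intro z hz
    obtain ⟨γ, hγ, hγK⟩ := hKc ⟨z, hz⟩
    have h3 : H ((γ • (⟨z, hz⟩ : ℍ) : ℍ) : ℂ) ≤ H (z₀ : ℂ) := hz₀m hγK
    have h4 := hinv γ hγ z hz
    have e1 : mob γ z = ((γ • (⟨z, hz⟩ : ℍ) : ℍ) : ℂ) := by
      unfold mob
      rw [ofComplex_apply_of_im_pos hz]
    rw [e1] at h4
    rw [h4] at h3
    exact h3
  have hzero := max_zero hf hl z₀.im_pos hmax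
  filter_upwards [hfu, ae_restrict_mem isOpen_UH.measurableSet] with z hz hzU
  rw [hzero z hzU] at hz
  have h3 : aR ρ z ^ l * u l z = 0 := by
    have := congrArg (starRingEnd ℂ) hz
    rwa [Complex.conj_conj, map_zero] at this
  rcases mul_eq_zero.1 h3 with h4 | h4
  · exact absurd (pow_eq_zero_iff hl.ne' |>.1 h4) (aR_ne hzU)
  · exact h4

end

end ONE
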