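import Pool.Agent.ONE.Circ
import Pool.Agent.ONE.Curv

/-!
The moments of the directional measures of an invariant measure on a surface of negative curvature
vanish if the covariance functions of the directional measures are constant on one circle.
-/

open Complex MeasureTheory Filter Topology Set
open UpperHalfPlane hiding I
open scoped ContDiff MatrixGroups ProbabilityTheory

namespace ONE

open QE QE.NC NFP

noncomputable section

/-- **From one circle to all moments.** `u k` are the moments of the directional measures `s`; they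
satisfy the transport equations, the curvature is negative, the mass is one, and the variance of the
covariance function on the circle of radius `‖x‖` vanishes. Then the moments vanish. -/
theorem even_zero {ρ : ℍ → ℝ} {u : ℤ → ℂ → ℂ} {s : ProbabilityTheory.Kernel ℍ S1}
    (h : ContDiffOn ℝ ∞ (ro ρ) UH) (hK : ∀ z, 0 < lapR ρ z) (hloc : ∀ k, LocL2 UH (u k))
    (ht : Trans ρ u) (hs : ∀ z, IsFiniteMeasure (s z))
    (hu : ∀ k, ∀ᵐ z ∂((volume : Measure ℂ).restrict UH), u k z = cof (s (ofComplex z)) k)
    (h0 : ∀ᵐ z ∂((volume : Measure ℂ).restrict UH), u 0 z = 1) {x : ℂ} (hx : x ≠ 0)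
    (hv : ∀ᵐ z ∂((volume : Measure ℂ).restrict UH), vark (s (ofComplex z)) x = 0) (k : ℤ)
    (hk : Even k) (hk0 : k ≠ 0) : ∀ᵐ z ∂((volume : Measure ℂ).restrict UH), u k z = 0 := by
  have hr : 0 < ‖x‖ := norm_pos_iff.2 hx
  have good : ∀ n : ℕ, 1 ≤ n → Fk (2 * n) ‖x‖ ≠ 0 →
      ∀ᵐ z ∂((volume : Measure ℂ).restrict UH), u ((2 * n : ℕ) : ℤ) z = 0 := by
    intro n hn hF
    filter_upwards [hu ((2 * n : ℕ) : ℤ), hv] with z z1 z2
    have := hs (ofComplex z)
    rw [z1]
    exact cof_of_vark _ hx z2 n hn hF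
  have all : ∀ n : ℕ, 1 ≤ n →
      ∀ᵐ z ∂((volume : Measure ℂ).restrict UH), u ((2 * n : ℕ) : ℤ) z = 0 := by
    intro n hn
    by_cases hF : Fk (2 * n) ‖x‖ = 0
    · have hF1 : Fk (2 * (n + 1)) ‖x‖ ≠ 0 := bes_two n hr hF
      have a1 := good (n + 1) (by omega) hF1
      refine curv h hK hloc ht (l := ((2 * n : ℕ) : ℤ)) (by omega) ?_ ?_
      · rcases Nat.lt_or_ge n 2 with h2 | h2
        · right
          refine ⟨?_, h0⟩
          have : n = 1 := by omega
          subst this
          rfl
        · left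
          have hF2 : Fk (2 * (n - 1)) ‖x‖ ≠ 0 := by
            intro hF0
            have := bes_two (n - 1) hr hF0
            have e : n - 1 + 1 = n := by omega
            rw [e] at this
            exact this hF
          have a2 := good (n - 1) (by omega) hF2
          have e : ((2 * (n - 1) : ℕ) : ℤ) = ((2 * n : ℕ) : ℤ) - 2 := by omega
          rwa [e] at a2
      · have e : ((2 * (n + 1) : ℕ) : ℤ) = ((2 * n : ℕ) : ℤ) + 2 := by push_cast; ring
        rwa [e] at a1
    · exact good n hn hF
  filter_upwards [hu k, ae_all_iff.2 fun n : ℕ => hu ((2 * n : ℕ) : ℤ),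
    ae_all_iff.2 fun n : ℕ => ((ae_all_iff.2 fun hn : 1 ≤ n => all n hn))] with z z1 z2 z3
  obtain ⟨m, -, hm1, hm2⟩ := cof_nat (s (ofComplex z)) hk
  rw [z1]
  refine hm2 ?_
  rw [← z2 m]
  exact z3 m (hm1 hk0)

end

end ONE
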