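import Pool.Agent.ONE.St

/-!
# ONE NUMBER, module INF: infinitely many Fourier coefficients
-/

open Complex MeasureTheory Filter Topology Set

namespace ONE

noncomputable section

namespace INF

/-- the constant in the asymptotics of the Bessel functions -/
def Pc (k : ℕ) : ℂ := 2 * Real.pi * (-1) ^ k / (4 ^ k * ((2 * k).factorial : ℂ))

lemma Pc_ne (k : ℕ) : Pc k ≠ 0 := by
  unfold Pc
  have h1 : (Real.pi : ℂ) ≠ 0 := by exact_mod_cast Real.pi_ne_zero
  have h2 : ((2 * k).factorial : ℂ) ≠ 0 := by exact_mod_cast (2 * k).factorial_ne_zero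
  have h3 : ((-1 : ℂ)) ^ k ≠ 0 := pow_ne_zero _ (by norm_num)
  exact div_ne_zero (mul_ne_zero (mul_ne_zero two_ne_zero h1) h3)
    (mul_ne_zero (pow_ne_zero _ (by norm_num)) h2)

lemma norm_Pc (k : ℕ) : ‖Pc k‖ = 2 * Real.pi / (4 ^ k * (2 * k).factorial) := by
  unfold Pc
  rw [norm_div, norm_mul, norm_mul, norm_mul, norm_pow, norm_pow, norm_neg, norm_one, one_pow,
    mul_one, Complex.norm_real, Complex.norm_natCast, Real.norm_of_nonneg Real.pi_pos.le]
  norm_num

lemma bt_zero (k : ℕ) (r : ℝ) : bt k r 0 = r ^ (2 * k) / (4 ^ k * (2 * k).factorial) := by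
  unfold bt
  rw [mul_zero, zero_add, Nat.factorial_zero, Nat.cast_one, mul_one, div_pow]
  have : (2 : ℝ) ^ (2 * k) = 4 ^ k := by rw [pow_mul]; norm_num
  rw [this, div_div]

lemma bt_le (k : ℕ) {r : ℝ} (hr : 0 ≤ r) (b : ℕ) :
    bt k r (b + 1) ≤ bt k r 0 / (2 * k + 1) * (((r / 2) ^ 2) ^ (b + 1) / (b + 1).factorial) := by
  unfold bt
  rw [mul_zero, zero_add, Nat.factorial_zero, Nat.cast_one, mul_one]
  have h1 : ((2 * k + 1) * (2 * k).factorial : ℝ) ≤ ((b + 1 + 2 * k).factorial : ℝ) := by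
    have h2 : (2 * k + 1).factorial ≤ (b + 1 + 2 * k).factorial :=
      Nat.factorial_le (by omega)
    rw [Nat.factorial_succ] at h2
    exact_mod_cast h2
  have h3 : (0 : ℝ) < (2 * k).factorial := by exact_mod_cast (2 * k).factorial_pos
  have h4 : (0 : ℝ) < (b + 1).factorial := by exact_mod_cast (b + 1).factorial_pos
  have h5 : (0 : ℝ) < 2 * k + 1 := by positivity
  have e : (r / 2) ^ (2 * k) / ((2 * k).factorial : ℝ) / (2 * k + 1)
      * (((r / 2) ^ 2) ^ (b + 1) / (b + 1).factorial)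
      = (r / 2) ^ (2 * (b + 1) + 2 * k) / (((2 * k + 1) * (2 * k).factorial) * (b + 1).factorial) := by
    rw [pow_add (r / 2) (2 * (b + 1)) (2 * k), pow_mul (r / 2) 2 (b + 1)]
    field_simp
  rw [e]
  gcongr

/-- the asymptotics of the even Fourier coefficients of `cos (r cos t)` -/
lemma Fk_near (k : ℕ) {r : ℝ} (hr : 0 ≤ r) :
    ‖Fk (2 * k) r - Pc k * (r : ℂ) ^ (2 * k)‖
      ≤ ‖Pc k‖ * r ^ (2 * k) * (Real.exp ((r / 2) ^ 2) / (2 * k + 1)) := by
  have h1 : HasSum _ (Fk (2 * k) r) := hasSum_cos k r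
  have h2 := (hasSum_nat_add_iff' 1).2 h1
  rw [Finset.sum_range_one] at h2
  have e0 : (2 * Real.pi : ℂ) * ((-1) ^ k * (((-1) ^ 0 * bt k r 0 : ℝ) : ℂ))
      = Pc k * (r : ℂ) ^ (2 * k) := by
    rw [bt_zero]
    unfold Pc
    push_cast
    ring
  rw [e0] at h2
  have hexp : HasSum (fun b : ℕ => ((r / 2) ^ 2) ^ (b + 1) / ((b + 1).factorial : ℝ))
      (Real.exp ((r / 2) ^ 2) - 1) := by
    have h3 := NormedSpace.expSeries_div_hasSum_exp ((r / 2) ^ 2)
    rw [← Real.exp_eq_exp_ℝ] at h3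
    have h4 := (hasSum_nat_add_iff' 1).2 h3
    rw [Finset.sum_range_one] at h4
    simpa using h4
  have h5 := hexp.mul_left (2 * Real.pi * (bt k r 0 / (2 * k + 1)))
  have h6 := h2.norm_le_of_bounded h5 (fun b => by
    have h7 : 0 ≤ bt k r (b + 1) := by unfold bt; positivity
    have h8 : ‖(2 * Real.pi : ℂ)‖ = 2 * Real.pi := by
      rw [norm_mul, Complex.norm_real, Real.norm_of_nonneg Real.pi_pos.le]
      norm_num
    have h8' : ‖((-1 : ℂ)) ^ k * (((-1) ^ (b + 1) * bt k r (b + 1) : ℝ) : ℂ)‖ = bt k r (b + 1) := by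
      rw [norm_mul, norm_pow, norm_neg, norm_one, one_pow, one_mul, Complex.norm_real,
        norm_mul, norm_pow, norm_neg, norm_one, one_pow, one_mul, Real.norm_of_nonneg h7]
    rw [norm_mul (2 * Real.pi : ℂ), h8, h8', mul_assoc (2 * Real.pi)]
    exact mul_le_mul_of_nonneg_left (bt_le k hr b) (by positivity))
  refine h6.trans ?_
  rw [norm_Pc, bt_zero]
  have h9 : 0 ≤ 2 * Real.pi / (4 ^ k * ((2 * k).factorial : ℝ)) * r ^ (2 * k) / (2 * k + 1) := by
    positivity
  calc 2 * Real.pi * (r ^ (2 * k) / (4 ^ k * ((2 * k).factorial : ℝ)) / (2 * k + 1))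
        * (Real.exp ((r / 2) ^ 2) - 1)
      = (2 * Real.pi / (4 ^ k * ((2 * k).factorial : ℝ)) * r ^ (2 * k) / (2 * k + 1))
        * (Real.exp ((r / 2) ^ 2) - 1) := by ring
    _ ≤ (2 * Real.pi / (4 ^ k * ((2 * k).factorial : ℝ)) * r ^ (2 * k) / (2 * k + 1))
        * Real.exp ((r / 2) ^ 2) := mul_le_mul_of_nonneg_left (by linarith) h9
    _ = _ := by ring

/-- the asymptotics of `Jk` -/
lemma Jk_near {k : ℕ} (hk : 1 ≤ k) (v : ℂ) :
    ‖Jk (2 * k) v - Pc k * v ^ (2 * k)‖
      ≤ ‖Pc k‖ * ‖v‖ ^ (2 * k) * (Real.exp ((‖v‖ / 2) ^ 2) / (2 * k + 1)) := by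
  by_cases hv : v = 0
  · subst hv
    have h1 : Jk (2 * k) 0 = 0 := by
      unfold Jk
      have e : ∀ t : ℝ, (Real.cos ((Complex.exp (t * I) * 0).re) : ℂ)
          * Complex.exp (-(((2 * k : ℕ) : ℂ) * (t * I)))
          = Complex.exp (((-(2 * k : ℕ) : ℤ) : ℂ) * (t * I)) := by
        intro t
        rw [mul_zero, Complex.zero_re, Real.cos_zero, Complex.ofReal_one, one_mul]
        congr 1
        push_cast
        ring
      simp only [e]
      rw [int_exp, if_neg (by omega)]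
    rw [h1, zero_pow (by omega), mul_zero, sub_zero, norm_zero]
    positivity
  · have hn : (0 : ℝ) < ‖v‖ := norm_pos_iff.2 hv
    have h1 := Jk_eq (2 * k) v
    have h2 := Fk_near k hn.le
    have hc : ((‖v‖ : ℝ) : ℂ) ^ (2 * k) ≠ 0 := pow_ne_zero _ (by exact_mod_cast hn.ne')
    have e : Jk (2 * k) v - Pc k * v ^ (2 * k)
        = v ^ (2 * k) / ((‖v‖ : ℝ) : ℂ) ^ (2 * k)
          * (Fk (2 * k) ‖v‖ - Pc k * ((‖v‖ : ℝ) : ℂ) ^ (2 * k)) := by
      have h3 : Jk (2 * k) v = v ^ (2 * k) / ((‖v‖ : ℝ) : ℂ) ^ (2 * k) * Fk (2 * k) ‖v‖ := by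
        field_simp
        linear_combination h1
      rw [h3]
      field_simp
    rw [e, norm_mul, norm_div, norm_pow, norm_pow, Complex.norm_real, norm_norm,
      div_self (pow_pos hn _).ne', one_mul]
    exact h2

/-- the Cesàro means of the powers of `z` -/
lemma cesaro_pow {z : ℂ} (hz : ‖z‖ ≤ 1) :
    Tendsto (fun M : ℕ => (M⁻¹ : ℝ) • ∑ k ∈ Finset.range M, z ^ k) atTop
      (𝓝 (if z = 1 then 1 else 0)) := by
  by_cases h : z = 1
  · subst h
    simp only [one_pow, Finset.sum_const, Finset.card_range, if_true]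
    refine tendsto_const_nhds.congr' ?_
    filter_upwards [eventually_gt_atTop 0] with M hM
    have : (M : ℂ) ≠ 0 := by exact_mod_cast hM.ne'
    rw [Complex.real_smul, nsmul_eq_mul, mul_one]
    push_cast
    rw [inv_mul_cancel₀ this]
  · rw [if_neg h]
    have h1 : z - 1 ≠ 0 := sub_ne_zero.2 h
    have h2 : Tendsto (fun M : ℕ => ((M : ℝ)⁻¹) * (2 / ‖z - 1‖)) atTop (𝓝 0) := by
      have := (tendsto_inv_atTop_nhds_zero_nat (𝕜 := ℝ)).mul_const (2 / ‖z - 1‖)
      rwa [zero_mul] at this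
    refine squeeze_zero_norm (fun M => ?_) h2
    rw [norm_smul, Real.norm_of_nonneg (by positivity), geom_sum_eq h, norm_div]
    have h3 : ‖z ^ M - 1‖ ≤ 2 := by
      refine (norm_sub_le _ _).trans ?_
      rw [norm_pow, norm_one]
      have := pow_le_one₀ (n := M) (norm_nonneg z) hz
      linarith
    gcongr

end INF

open INF in
/-- INF -/
theorem t_inf : StmtInf := by
  classical
  intro r c x hx hc N
  by_contra hcon
  push Not at hcon
  -- the pair with the largest distance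
  obtain ⟨i₁, j₁, hij, hi₁, hj₁⟩ := hc
  set S : Finset (Fin r × Fin r) := Finset.univ.filter fun p => c p.1 ≠ 0 ∧ c p.2 ≠ 0 with hS
  have hne : S.Nonempty := ⟨(i₁, j₁), Finset.mem_filter.2 ⟨Finset.mem_univ _, hi₁, hj₁⟩⟩
  obtain ⟨p₀, hp₀, hmax⟩ := S.exists_max_image (fun p => ‖x p.1 - x p.2‖) hne
  obtain ⟨i₀, j₀⟩ := p₀
  obtain ⟨-, hi₀, hj₀⟩ := Finset.mem_filter.1 hp₀
  simp only at hi₀ hj₀ hmax
  set v₀ := x i₀ - x j₀ with hv₀
  have hle : ∀ i j, c i ≠ 0 → c j ≠ 0 → ‖x i - x j‖ ≤ ‖v₀‖ := fun i j h1 h2 =>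
    hmax (i, j) (Finset.mem_filter.2 ⟨Finset.mem_univ _, h1, h2⟩)
  have hv0 : v₀ ≠ 0 := by
    intro h0
    have h1 := hle i₁ j₁ hi₁ hj₁
    rw [h0, norm_zero] at h1
    exact hij (hx (sub_eq_zero.1 (norm_le_zero_iff.1 h1)))
  have hn0 : (0 : ℝ) < ‖v₀‖ := norm_pos_iff.2 hv0
  set z : Fin r → Fin r → ℂ := fun i j => ((x i - x j) / v₀) ^ 2 with hz
  have hz1 : ∀ i j, c i ≠ 0 → c j ≠ 0 → ‖z i j‖ ≤ 1 := by
    intro i j h1 h2
    rw [hz]
    simp only
    rw [norm_pow, norm_div]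
    refine pow_le_one₀ (by positivity) ?_
    rw [div_le_one hn0]
    exact hle i j h1 h2
  set G : ℕ → ℂ := fun k => ∑ i, ∑ j, ((c i * c j : ℝ) : ℂ) * z i j ^ k with hG
  set A : ℝ := ∑ i, ∑ j, |c i * c j| * Real.exp ((‖x i - x j‖ / 2) ^ 2) with hA
  -- the sums tend to zero
  have hGk : ∀ k, N ≤ k → 1 ≤ k → ‖G k‖ ≤ A * (1 / (2 * k + 1)) := by
    intro k hk hk1
    have h0 := hcon k hk
    have hPv : Pc k * v₀ ^ (2 * k) ≠ 0 := mul_ne_zero (Pc_ne k) (pow_ne_zero _ hv0)
    have e1 : Pc k * v₀ ^ (2 * k) * G k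
        = ∑ i, ∑ j, ((c i * c j : ℝ) : ℂ) * (Pc k * (x i - x j) ^ (2 * k)
          - Jk (2 * k) (x i - x j)) := by
      have e2 : ∀ i j, ((c i * c j : ℝ) : ℂ) * (Pc k * (x i - x j) ^ (2 * k)
          - Jk (2 * k) (x i - x j)) = Pc k * v₀ ^ (2 * k) * (((c i * c j : ℝ) : ℂ) * z i j ^ k)
            - ((c i * c j : ℝ) : ℂ) * Jk (2 * k) (x i - x j) := by
        intro i j
        have e3 : z i j ^ k = (x i - x j) ^ (2 * k) / v₀ ^ (2 * k) := by
          rw [hz]
          simp only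
          rw [← pow_mul, div_pow]
        rw [e3]
        field_simp
      simp only [e2, Finset.sum_sub_distrib]
      rw [h0, sub_zero, hG]
      simp only [Finset.mul_sum]
    have h2 : ‖Pc k * v₀ ^ (2 * k)‖ * ‖G k‖ ≤ ‖Pc k * v₀ ^ (2 * k)‖ * (A * (1 / (2 * k + 1))) := by
      rw [← norm_mul, e1]
      refine (norm_sum_le _ _).trans ?_
      rw [hA]
      simp only [Finset.sum_mul, Finset.mul_sum]
      refine Finset.sum_le_sum fun i _ => (norm_sum_le _ _).trans (Finset.sum_le_sum fun j _ => ?_)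
      rw [norm_mul, Complex.norm_real, Real.norm_eq_abs]
      by_cases hcc : c i * c j = 0
      · rw [hcc, abs_zero, zero_mul, zero_mul, zero_mul, mul_zero]
      · have hci := left_ne_zero_of_mul hcc
        have hcj := right_ne_zero_of_mul hcc
        have h3 := Jk_near hk1 (x i - x j)
        rw [norm_sub_rev] at h3
        have h4 : ‖x i - x j‖ ^ (2 * k) ≤ ‖v₀‖ ^ (2 * k) :=
          pow_le_pow_left₀ (norm_nonneg _) (hle i j hci hcj) _
        calc |c i * c j| * ‖Pc k * (x i - x j) ^ (2 * k) - Jk (2 * k) (x i - x j)‖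
            ≤ |c i * c j| * (‖Pc k‖ * ‖v₀‖ ^ (2 * k)
              * (Real.exp ((‖x i - x j‖ / 2) ^ 2) / (2 * k + 1))) := by
              refine mul_le_mul_of_nonneg_left (h3.trans ?_) (abs_nonneg _)
              gcongr
          _ = _ := by rw [norm_mul, norm_pow]; ring
    exact le_of_mul_le_mul_left h2 (norm_pos_iff.2 hPv)
  have hG0 : Tendsto G atTop (𝓝 0) := by
    have h1 : Tendsto (fun k : ℕ => A * (1 / (2 * (k : ℝ) + 1))) atTop (𝓝 0) := by
      have h2 : Tendsto (fun k : ℕ => 1 / (2 * (k : ℝ) + 1)) atTop (𝓝 0) := by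
        have h3 : Tendsto (fun k : ℕ => 2 * (k : ℝ) + 1) atTop atTop :=
          tendsto_atTop_add_const_right _ _ (tendsto_natCast_atTop_atTop.const_mul_atTop
            (by norm_num))
        exact (tendsto_inv_atTop_zero.comp h3).congr fun k => by simp [one_div]
      have := h2.const_mul A
      rwa [mul_zero] at this
    refine squeeze_zero_norm' ?_ h1
    filter_upwards [eventually_ge_atTop N, eventually_ge_atTop 1] with k h2 h3
    exact hGk k h2 h3
  -- the Cesàro means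
  have hces := hG0.cesaro_smul (u := G)
  have hces2 : Tendsto (fun M : ℕ => (M⁻¹ : ℝ) • ∑ k ∈ Finset.range M, G k) atTop
      (𝓝 (∑ i, ∑ j, ((c i * c j : ℝ) : ℂ) * (if z i j = 1 then 1 else 0))) := by
    have e : ∀ M : ℕ, (M⁻¹ : ℝ) • ∑ k ∈ Finset.range M, G k
        = ∑ i, ∑ j, ((c i * c j : ℝ) : ℂ) * ((M⁻¹ : ℝ) • ∑ k ∈ Finset.range M, z i j ^ k) := by
      intro M
      rw [hG]
      simp only
      rw [Finset.sum_comm, Finset.smul_sum]
      refine Finset.sum_congr rfl fun i _ => ?_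
      rw [Finset.sum_comm, Finset.smul_sum]
      refine Finset.sum_congr rfl fun j _ => ?_
      rw [← Finset.mul_sum, mul_smul_comm]
    simp only [e]
    refine tendsto_finsetSum _ fun i _ => tendsto_finsetSum _ fun j _ => ?_
    by_cases hcc : c i * c j = 0
    · rw [hcc]
      simp
    · exact (cesaro_pow (hz1 i j (left_ne_zero_of_mul hcc) (right_ne_zero_of_mul hcc))).const_mul _
  have h0 := tendsto_nhds_unique hces hces2
  -- the pairs with `z = 1`
  have hpairs : ∀ i j, c i ≠ 0 → c j ≠ 0 → z i j = 1 → (i = i₀ ∧ j = j₀) ∨ (i = j₀ ∧ j = i₀) := by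
    intro i j hi hj h1
    rw [hz] at h1
    simp only at h1
    have hgen : ∀ a b i' j' : Fin r, c a ≠ 0 → c b ≠ 0 → c i' ≠ 0 → c j' ≠ 0 →
        (∀ i j, c i ≠ 0 → c j ≠ 0 → ‖x i - x j‖ ≤ ‖x a - x b‖) →
        x i' - x j' = x a - x b → i' = a ∧ j' = b := by
      intro a b i' j' ha hb hi' hj' hm he
      have n1 := hm i' b hi' hb
      have n2 := hm a j' ha hj'
      have hp := parallelogram_law_with_norm ℝ (x a - x b) (x j' - x b)
      have e1 : (x a - x b) + (x j' - x b) = x i' - x b := by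
        rw [← he]; ring
      have e2 : (x a - x b) - (x j' - x b) = x a - x j' := by ring
      rw [e1, e2] at hp
      have h5 : ‖x j' - x b‖ = 0 := by
        have a1 := norm_nonneg (x i' - x b)
        have a2 := norm_nonneg (x a - x j')
        have a3 := norm_nonneg (x a - x b)
        have a4 := norm_nonneg (x j' - x b)
        have a5 : ‖x j' - x b‖ * ‖x j' - x b‖ ≤ 0 := by nlinarith
        nlinarith
      have h6 : x j' = x b := sub_eq_zero.1 (norm_eq_zero.1 h5)
      have h7 : x i' = x a := by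
        rw [h6] at he
        exact sub_left_injective he
      exact ⟨hx h7, hx h6⟩
    have h2 : (x i - x j) / v₀ = 1 ∨ (x i - x j) / v₀ = -1 := by
      have h3 : ((x i - x j) / v₀ - 1) * ((x i - x j) / v₀ + 1) = 0 := by linear_combination h1
      rcases mul_eq_zero.1 h3 with h4 | h4
      · exact Or.inl (sub_eq_zero.1 h4)
      · exact Or.inr (eq_neg_of_add_eq_zero_left h4)
    rcases h2 with h2 | h2
    · left
      rw [div_eq_one_iff_eq hv0] at h2
      exact hgen i₀ j₀ i j hi₀ hj₀ hi hj hle h2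
    · right
      rw [div_eq_iff hv0] at h2
      have h3 : x i - x j = x j₀ - x i₀ := by rw [h2, hv₀]; ring
      refine hgen j₀ i₀ i j hj₀ hi₀ hi hj (fun a b ha hb => ?_) h3
      rw [norm_sub_rev (x j₀)]
      exact hle a b ha hb
  have hne0 : i₀ ≠ j₀ := by
    intro h
    apply hv0
    rw [hv₀, h, sub_self]
  have hsum : ∑ i, ∑ j, ((c i * c j : ℝ) : ℂ) * (if z i j = 1 then 1 else 0)
      = ((c i₀ * c j₀ : ℝ) : ℂ) + ((c i₀ * c j₀ : ℝ) : ℂ) := by
    have e1 : ∀ i j, ((c i * c j : ℝ) : ℂ) * (if z i j = 1 then 1 else 0)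
        = (if i = i₀ then (if j = j₀ then ((c i₀ * c j₀ : ℝ) : ℂ) else 0) else 0)
          + (if i = j₀ then (if j = i₀ then ((c i₀ * c j₀ : ℝ) : ℂ) else 0) else 0) := by
      intro i j
      by_cases hcc : c i * c j = 0
      · have a1 : ¬ (i = i₀ ∧ j = j₀) := by
          rintro ⟨rfl, rfl⟩
          exact mul_ne_zero hi₀ hj₀ hcc
        have a2 : ¬ (i = j₀ ∧ j = i₀) := by
          rintro ⟨rfl, rfl⟩
          exact mul_ne_zero hj₀ hi₀ hcc
        rw [hcc]
        by_cases b1 : i = i₀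
        · have b2 : j ≠ j₀ := fun h => a1 ⟨b1, h⟩
          have b3 : i ≠ j₀ := fun h => hne0 (b1.symm.trans h)
          simp [b2, b3]
        · by_cases b2 : i = j₀
          · have b3 : j ≠ i₀ := fun h => a2 ⟨b2, h⟩
            simp [b1, b3]
          · simp [b1, b2]
      · have hci := left_ne_zero_of_mul hcc
        have hcj := right_ne_zero_of_mul hcc
        by_cases hz2 : z i j = 1
        · rcases hpairs i j hci hcj hz2 with ⟨rfl, rfl⟩ | ⟨rfl, rfl⟩
          · rw [if_pos hz2, if_pos rfl, if_pos rfl, if_neg hne0, mul_one, add_zero]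
          · rw [if_pos hz2, if_neg hne0.symm, if_pos rfl, if_pos rfl, mul_one, zero_add,
              mul_comm (c _)]
        · have a1 : ¬ (i = i₀ ∧ j = j₀) := by
            rintro ⟨rfl, rfl⟩
            apply hz2
            rw [hz]
            simp only
            rw [← hv₀, div_self hv0, one_pow]
          have a2 : ¬ (i = j₀ ∧ j = i₀) := by
            rintro ⟨rfl, rfl⟩
            apply hz2
            rw [hz]
            simp only
            have : (x i - x j) / v₀ = -1 := by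
              rw [div_eq_iff hv0, hv₀]; ring
            rw [this]
            norm_num
          rw [if_neg hz2, mul_zero]
          by_cases b1 : i = i₀
          · have b2 : j ≠ j₀ := fun h => a1 ⟨b1, h⟩
            have b3 : i ≠ j₀ := fun h => hne0 (b1.symm.trans h)
            simp [b2, b3]
          · by_cases b2 : i = j₀
            · have b3 : j ≠ i₀ := fun h => a2 ⟨b2, h⟩
              simp [b1, b3]
            · simp [b1, b2]
    simp only [e1, Finset.sum_add_distrib]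
    congr 1
    · rw [Finset.sum_eq_single i₀ (fun b _ hb => by simp [hb]) (fun h => absurd (Finset.mem_univ _) h)]
      simp
    · rw [Finset.sum_eq_single j₀ (fun b _ hb => by simp [hb]) (fun h => absurd (Finset.mem_univ _) h)]
      simp
  rw [hsum] at h0
  have h8 : ((c i₀ * c j₀ : ℝ) : ℂ) = 0 := by
    have : (2 : ℂ) * ((c i₀ * c j₀ : ℝ) : ℂ) = 0 := by rw [two_mul]; exact h0.symm
    exact (mul_eq_zero.1 this).resolve_left two_ne_zero
  exact mul_ne_zero hi₀ hj₀ (by exact_mod_cast h8)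

end

end ONE
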