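import Pool.Agent.ONE.Circ

/-!
Linear statistics `T = ∑ cᵢ F(xᵢ)`: the sums of the limits of the four-point functions.
-/

open Complex MeasureTheory Filter Topology Set

namespace ONE

open NFP

noncomputable section

variable {r : ℕ} (c : Fin r → ℝ) (x : Fin r → ℂ)

/-- the variance of the statistic under the random wave -/
def tau2 : ℝ := ∑ i, ∑ j, c i * c j * Berry.waveK (x i - x j)

/-- the indices of the fourth power -/
abbrev I4 (r : ℕ) : Type := Fin r × Fin r × Fin r × Fin r

/-- the coefficients of the fourth power -/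
def q4 (a : I4 r) : ℝ := c a.1 * c a.2.1 * c a.2.2.1 * c a.2.2.2

/-- the points of the fourth power -/
def X4 (a : I4 r) : Fin 4 → ℂ := ![x a.1, x a.2.1, x a.2.2.1, x a.2.2.2]

/-- sums over the quadruples -/
lemma sum_I4 (f : Fin r → Fin r → Fin r → Fin r → ℝ) :
    ∑ a : I4 r, f a.1 a.2.1 a.2.2.1 a.2.2.2 = ∑ i, ∑ j, ∑ k, ∑ l, f i j k l := by
  simp only [Fintype.sum_prod_type]

/-- the second moment of the statistic in the rotated frame -/
def Vk (s : Measure S1) (θ : ℝ) : ℝ := ∑ i, ∑ j, c i * c j * gk s (x i - x j) θ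

/-- the variance of the second moment over the rotations -/
def varT (s : Measure S1) : ℝ := 1 / (2 * Real.pi) * ∫ θ in (0 : ℝ)..(2 * Real.pi),
  (Vk c x s θ - (s univ).toReal * tau2 c x) ^ 2

lemma varT_nonneg (s : Measure S1) : 0 ≤ varT c x s := by
  unfold varT
  have hpi : (0 : ℝ) ≤ 2 * Real.pi := by have := Real.pi_pos; positivity
  refine mul_nonneg (by positivity) (intervalIntegral.integral_nonneg hpi fun θ _ => sq_nonneg _)

lemma gk_neg (s : Measure S1) (y : ℂ) (θ : ℝ) : gk s (-y) θ = gk s y θ := by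
  unfold gk dirK
  refine integral_congr_ae (Eventually.of_forall fun w => ?_)
  beta_reduce
  rw [mul_neg, neg_mul, Complex.neg_re, Real.cos_neg]

/-- the algebra of the three pairings -/
lemma pair_sum (g : Fin r → Fin r → ℝ) (hg : ∀ i j, g i j = g j i) :
    ∑ i, ∑ j, ∑ k, ∑ l, (c i * c j * c k * c l)
        * (g i j * g k l + g i k * g j l + g i l * g j k)
      = 3 * (∑ i, ∑ j, c i * c j * g i j) ^ 2 := by
  set S := ∑ i, ∑ j, c i * c j * g i j with hS
  have e1 : ∑ i, ∑ j, ∑ k, ∑ l, (c i * c j * c k * c l) * (g i j * g k l) = S ^ 2 := by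
    rw [sq, hS, Finset.sum_mul]
    refine Finset.sum_congr rfl fun i _ => ?_
    rw [Finset.sum_mul]
    refine Finset.sum_congr rfl fun j _ => ?_
    rw [Finset.mul_sum]
    refine Finset.sum_congr rfl fun k _ => ?_
    rw [Finset.mul_sum]
    refine Finset.sum_congr rfl fun l _ => ?_
    ring
  have e2 : ∑ i, ∑ j, ∑ k, ∑ l, (c i * c j * c k * c l) * (g i k * g j l) = S ^ 2 := by
    rw [← e1]
    refine Finset.sum_congr rfl fun i _ => ?_
    rw [Finset.sum_comm]
    refine Finset.sum_congr rfl fun k _ => ?_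
    refine Finset.sum_congr rfl fun j _ => ?_
    refine Finset.sum_congr rfl fun l _ => ?_
    ring
  have e3 : ∑ i, ∑ j, ∑ k, ∑ l, (c i * c j * c k * c l) * (g i l * g j k) = S ^ 2 := by
    rw [← e2]
    refine Finset.sum_congr rfl fun i _ => ?_
    refine Finset.sum_congr rfl fun j _ => ?_
    rw [Finset.sum_comm]
    refine Finset.sum_congr rfl fun k _ => ?_
    refine Finset.sum_congr rfl fun l _ => ?_
    ring
  have e4 : ∑ i, ∑ j, ∑ k, ∑ l, (c i * c j * c k * c l)
        * (g i j * g k l + g i k * g j l + g i l * g j k)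
      = (∑ i, ∑ j, ∑ k, ∑ l, (c i * c j * c k * c l) * (g i j * g k l))
        + (∑ i, ∑ j, ∑ k, ∑ l, (c i * c j * c k * c l) * (g i k * g j l))
        + ∑ i, ∑ j, ∑ k, ∑ l, (c i * c j * c k * c l) * (g i l * g j k) := by
    simp only [← Finset.sum_add_distrib]
    refine Finset.sum_congr rfl fun i _ => ?_
    refine Finset.sum_congr rfl fun j _ => ?_
    refine Finset.sum_congr rfl fun k _ => ?_
    refine Finset.sum_congr rfl fun l _ => ?_
    ring
  rw [e4, e1, e2, e3]
  ring

section fin

variable (s : Measure S1) [IsFiniteMeasure s]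

lemma cont_Vk : Continuous (Vk c x s) := by
  unfold Vk
  exact continuous_finsetSum _ fun i _ => continuous_finsetSum _ fun j _ =>
    continuous_const.mul (cont_gk s _)

/-- the mean of the second moment over the rotations -/
lemma mean_Vk : ∫ θ in (0 : ℝ)..(2 * Real.pi), Vk c x s θ
    = 2 * Real.pi * ((s univ).toReal * tau2 c x) := by
  unfold Vk tau2
  rw [intervalIntegral.integral_finsetSum]
  · simp only [Finset.mul_sum]
    refine Finset.sum_congr rfl fun i _ => ?_
    rw [intervalIntegral.integral_finsetSum]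
    · refine Finset.sum_congr rfl fun j _ => ?_
      rw [intervalIntegral.integral_const_mul, mean_gk]
      ring
    · intro j _
      exact (continuous_const.mul (cont_gk s _)).intervalIntegrable _ _
  · intro i _
    exact (continuous_finsetSum _ fun j _ =>
      continuous_const.mul (cont_gk s _)).intervalIntegrable _ _

/-- the mean of the square of the second moment over the rotations -/
lemma mean_Vk_sq : 1 / (2 * Real.pi) * ∫ θ in (0 : ℝ)..(2 * Real.pi), Vk c x s θ ^ 2
    = ((s univ).toReal * tau2 c x) ^ 2 + varT c x s := by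
  have hpi : (2 * Real.pi : ℝ) ≠ 0 := by have := Real.pi_pos; positivity
  have hc := cont_Vk c x s
  set a := (s univ).toReal * tau2 c x with ha
  have h2 : ∫ θ in (0 : ℝ)..(2 * Real.pi), (Vk c x s θ - a) ^ 2
      = (∫ θ in (0 : ℝ)..(2 * Real.pi), Vk c x s θ ^ 2) - 2 * Real.pi * a ^ 2 := by
    have e1 : ∀ θ : ℝ, (Vk c x s θ - a) ^ 2
        = Vk c x s θ ^ 2 - 2 * a * Vk c x s θ + a ^ 2 := fun θ => by ring
    simp only [e1]
    rw [intervalIntegral.integral_add, intervalIntegral.integral_sub,
      intervalIntegral.integral_const_mul, mean_Vk, intervalIntegral.integral_const, smul_eq_mul]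
    · rw [← ha]; ring
    · exact (hc.pow 2).intervalIntegrable _ _
    · exact (hc.const_mul _).intervalIntegrable _ _
    · exact ((hc.pow 2).sub (hc.const_mul _)).intervalIntegrable _ _
    · exact continuous_const.intervalIntegrable _ _
  unfold varT
  rw [← ha, h2]
  field_simp
  ring

/-- **the sum of the Gaussian parts** -/
theorem sum_dirWick : ∑ a : I4 r, q4 c a * dirWick s (X4 x a)
    = 3 * tau2 c x ^ 2 * (s univ).toReal ^ 2 + 3 * varT c x s := by
  have h1 : ∀ a : I4 r, q4 c a * dirWick s (X4 x a) = 1 / (2 * Real.pi)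
      * ∫ θ in (0 : ℝ)..(2 * Real.pi), (c a.1 * c a.2.1 * c a.2.2.1 * c a.2.2.2)
        * (gk s (x a.1 - x a.2.1) θ * gk s (x a.2.2.1 - x a.2.2.2) θ
          + gk s (x a.1 - x a.2.2.1) θ * gk s (x a.2.1 - x a.2.2.2) θ
          + gk s (x a.1 - x a.2.2.2) θ * gk s (x a.2.1 - x a.2.2.1) θ) := by
    intro a
    rw [intervalIntegral.integral_const_mul]
    unfold dirWick q4 X4 gk
    simp only [Matrix.cons_val_zero, Matrix.cons_val_one, Matrix.cons_val]
    ring
  simp only [h1]
  rw [← Finset.mul_sum, ← intervalIntegral.integral_finsetSum]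
  · have h2 : ∀ θ : ℝ, ∑ a : I4 r, (c a.1 * c a.2.1 * c a.2.2.1 * c a.2.2.2)
        * (gk s (x a.1 - x a.2.1) θ * gk s (x a.2.2.1 - x a.2.2.2) θ
          + gk s (x a.1 - x a.2.2.1) θ * gk s (x a.2.1 - x a.2.2.2) θ
          + gk s (x a.1 - x a.2.2.2) θ * gk s (x a.2.1 - x a.2.2.1) θ)
        = 3 * Vk c x s θ ^ 2 := by
      intro θ
      rw [sum_I4 (fun i j k l => (c i * c j * c k * c l)
        * (gk s (x i - x j) θ * gk s (x k - x l) θ + gk s (x i - x k) θ * gk s (x j - x l) θ
          + gk s (x i - x l) θ * gk s (x j - x k) θ))]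
      exact pair_sum c (fun i j => gk s (x i - x j) θ) fun i j => by
        rw [← gk_neg s (x j - x i), neg_sub]
    simp only [h2]
    rw [intervalIntegral.integral_const_mul]
    have h3 := mean_Vk_sq c x s
    linear_combination 3 * h3
  · intro a _
    have hc := cont_gk s
    exact (continuous_const.mul ((((hc _).mul (hc _)).add ((hc _).mul (hc _))).add
      ((hc _).mul (hc _)))).intervalIntegrable _ _

lemma int_exp_nat {k : ℕ} (hk : 0 < k) :
    ∫ θ in (0 : ℝ)..(2 * Real.pi), Complex.exp (-(k * (θ * I))) = 0 := by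
  have h := int_exp (-(k : ℤ))
  rw [if_neg (by omega)] at h
  rw [← h]
  refine intervalIntegral.integral_congr fun θ _ => ?_
  beta_reduce
  congr 1
  push_cast
  ring

lemma Jk_zero {k : ℕ} (hk : 0 < k) : Jk k 0 = 0 := by
  unfold Jk
  simp only [mul_zero, Complex.zero_re, Real.cos_zero, Complex.ofReal_one, one_mul]
  exact int_exp_nat hk

/-- the Fourier coefficients of the covariance in the rotated frame, again -/
lemma int_gk' {k : ℕ} (hk : 0 < k) (y : ℂ) :
    ∫ θ in (0 : ℝ)..(2 * Real.pi), (gk s y θ : ℂ) * Complex.exp (-(k * (θ * I)))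
      = Jk k y * cof s k := by
  by_cases hy : y = 0
  · subst hy
    rw [Jk_zero hk, zero_mul]
    have e : ∀ θ : ℝ, (gk s 0 θ : ℂ) * Complex.exp (-(k * (θ * I)))
        = ((s univ).toReal : ℂ) * Complex.exp (-(k * (θ * I))) := by
      intro θ
      unfold gk
      rw [mul_zero, dirK_zero]
    simp only [e]
    rw [intervalIntegral.integral_const_mul, int_exp_nat hk, mul_zero]
  · have h1 := int_gk s k y
    have h2 := Jk_eq k y
    have h3 : (‖y‖ : ℂ) ^ k ≠ 0 := by
      refine pow_ne_zero _ ?_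
      exact_mod_cast (norm_pos_iff.2 hy).ne'
    refine mul_left_cancel₀ h3 ?_
    rw [h1]
    linear_combination (-cof s k) * h2

/-- **the Fourier coefficients of the second moment** -/
theorem int_Vk {k : ℕ} (hk : 0 < k) :
    ∫ θ in (0 : ℝ)..(2 * Real.pi), (Vk c x s θ : ℂ) * Complex.exp (-(k * (θ * I)))
      = (∑ i, ∑ j, ((c i * c j : ℝ) : ℂ) * Jk k (x i - x j)) * cof s k := by
  have hc := cont_gk s
  have e : ∀ θ : ℝ, (Vk c x s θ : ℂ) * Complex.exp (-(k * (θ * I)))
      = ∑ i, ∑ j, ((c i * c j : ℝ) : ℂ) * ((gk s (x i - x j) θ : ℂ)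
        * Complex.exp (-(k * (θ * I)))) := by
    intro θ
    unfold Vk
    push_cast
    rw [Finset.sum_mul]
    refine Finset.sum_congr rfl fun i _ => ?_
    rw [Finset.sum_mul]
    refine Finset.sum_congr rfl fun j _ => ?_
    ring
  have hcc : ∀ y : ℂ, Continuous fun θ : ℝ => (gk s y θ : ℂ) * Complex.exp (-(k * (θ * I))) :=
    fun y => (Complex.continuous_ofReal.comp (hc y)).mul (by fun_prop)
  simp only [e]
  rw [intervalIntegral.integral_finsetSum, Finset.sum_mul]
  · refine Finset.sum_congr rfl fun i _ => ?_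
    rw [intervalIntegral.integral_finsetSum, Finset.sum_mul]
    · refine Finset.sum_congr rfl fun j _ => ?_
      rw [intervalIntegral.integral_const_mul, int_gk' s hk]
      ring
    · intro j _
      exact (continuous_const.mul (hcc _)).intervalIntegrable _ _
  · intro i _
    exact (continuous_finsetSum _ fun j _ =>
      continuous_const.mul (hcc _)).intervalIntegrable _ _

/-- a continuous function with zero variance is constant (almost everywhere on a period) -/
lemma ae_of_varT (h : varT c x s = 0) : ∀ᵐ θ ∂(volume.restrict (Ioc 0 (2 * Real.pi))),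
    Vk c x s θ = (s univ).toReal * tau2 c x := by
  have hpi : (0 : ℝ) < 2 * Real.pi := by have := Real.pi_pos; positivity
  have hc := cont_Vk c x s
  set a := (s univ).toReal * tau2 c x with ha
  have h1 : ∫ θ in (0 : ℝ)..(2 * Real.pi), (Vk c x s θ - a) ^ 2 = 0 := by
    unfold varT at h
    rcases mul_eq_zero.1 h with h2 | h2
    · exfalso
      have : (0 : ℝ) < 1 / (2 * Real.pi) := by positivity
      linarith
    · exact h2
  rw [intervalIntegral.integral_of_le hpi.le] at h1
  have h3 := (integral_eq_zero_iff_of_nonneg_ae (Eventually.of_forall fun θ => sq_nonneg _)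
    ((((hc.sub continuous_const).pow 2).intervalIntegrable 0 (2 * Real.pi)).1)).1 h1
  filter_upwards [h3] with θ hθ
  have h4 : (Vk c x s θ - a) ^ 2 = 0 := hθ
  have h5 := pow_eq_zero_iff (two_ne_zero) |>.1 h4
  linarith

/-- **if the variance vanishes**, so do the moments of the measure for which the coefficient of the
statistic does not vanish -/
theorem cof_of_varT (h : varT c x s = 0) {k : ℕ} (hk : 0 < k)
    (hA : ∑ i, ∑ j, ((c i * c j : ℝ) : ℂ) * Jk k (x i - x j) ≠ 0) : cof s k = 0 := by
  have hpi : (0 : ℝ) < 2 * Real.pi := by have := Real.pi_pos; positivity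
  have h1 := int_Vk c x s hk
  have h2 : ∫ θ in (0 : ℝ)..(2 * Real.pi), (Vk c x s θ : ℂ) * Complex.exp (-(k * (θ * I))) = 0 := by
    have e1 : ∫ θ in (0 : ℝ)..(2 * Real.pi), (Vk c x s θ : ℂ) * Complex.exp (-(k * (θ * I)))
        = ∫ θ in (0 : ℝ)..(2 * Real.pi), (((s univ).toReal * tau2 c x : ℝ) : ℂ)
          * Complex.exp (-(k * (θ * I))) := by
      rw [intervalIntegral.integral_of_le hpi.le, intervalIntegral.integral_of_le hpi.le]
      refine integral_congr_ae ?_
      filter_upwards [ae_of_varT c x s h] with θ hθ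
      rw [hθ]
    rw [e1, intervalIntegral.integral_const_mul, int_exp_nat hk, mul_zero]
  rw [h2] at h1
  rcases mul_eq_zero.1 h1.symm with h3 | h3
  · exact absurd h3 hA
  · exact h3

end fin

/-! ### the second part of the four-point functions -/

/-- `cos` and `sin` parts of the plane wave with frequency `e^{iθ}` -/
def Ck (θ : ℝ) : ℝ := ∑ i, c i * Real.cos ((x i).re * Real.cos θ + (x i).im * Real.sin θ)

/-- `cos` and `sin` parts of the plane wave with frequency `e^{iθ}` -/
def Sk (θ : ℝ) : ℝ := ∑ i, c i * Real.sin ((x i).re * Real.cos θ + (x i).im * Real.sin θ)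

/-- the square of the modulus of the plane wave -/
def Uk (θ : ℝ) : ℝ := Ck c x θ ^ 2 + Sk c x θ ^ 2

lemma cont_Uk : Continuous (Uk c x) := by
  unfold Uk Ck Sk
  fun_prop

lemma tau2_eq : tau2 c x = (2 * Real.pi)⁻¹ * ∫ θ in (0 : ℝ)..(2 * Real.pi), Uk c x θ := by
  have h1 : ∀ θ : ℝ, Uk c x θ = ∑ i, ∑ j, c i * c j
      * Real.cos ((x i - x j).re * Real.cos θ + (x i - x j).im * Real.sin θ) := by
    intro θ
    unfold Uk Ck Sk
    rw [sq, sq, Finset.sum_mul_sum, Finset.sum_mul_sum, ← Finset.sum_add_distrib]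
    refine Finset.sum_congr rfl fun i _ => ?_
    rw [← Finset.sum_add_distrib]
    refine Finset.sum_congr rfl fun j _ => ?_
    have e : (x i - x j).re * Real.cos θ + (x i - x j).im * Real.sin θ
        = ((x i).re * Real.cos θ + (x i).im * Real.sin θ)
          - ((x j).re * Real.cos θ + (x j).im * Real.sin θ) := by
      rw [Complex.sub_re, Complex.sub_im]; ring
    rw [e, Real.cos_sub]
    ring
  simp only [h1]
  rw [intervalIntegral.integral_finsetSum]
  · unfold tau2
    rw [Finset.mul_sum]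
    refine Finset.sum_congr rfl fun i _ => ?_
    rw [intervalIntegral.integral_finsetSum, Finset.mul_sum]
    · refine Finset.sum_congr rfl fun j _ => ?_
      rw [intervalIntegral.integral_const_mul]
      unfold Berry.waveK
      ring
    · intro j _
      exact (by fun_prop : Continuous fun θ : ℝ => c i * c j
        * Real.cos ((x i - x j).re * Real.cos θ + (x i - x j).im * Real.sin θ)).intervalIntegrable _ _
  · intro i _
    exact (by fun_prop : Continuous fun θ : ℝ => ∑ j, c i * c j
      * Real.cos ((x i - x j).re * Real.cos θ + (x i - x j).im * Real.sin θ)).intervalIntegrable _ _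

/-- the fourth power of the modulus of the plane wave -/
lemma Uk_sq (θ : ℝ) : Uk c x θ ^ 2 = ∑ i, ∑ j, ∑ k, ∑ l, (c i * c j * c k * c l)
    * Real.cos (((x i).re * Real.cos θ + (x i).im * Real.sin θ)
      + ((x j).re * Real.cos θ + (x j).im * Real.sin θ)
      - ((x k).re * Real.cos θ + (x k).im * Real.sin θ)
      - ((x l).re * Real.cos θ + (x l).im * Real.sin θ)) := by
  set α : Fin r → ℝ := fun i => (x i).re * Real.cos θ + (x i).im * Real.sin θ with hα
  have hP : (((Ck c x θ ^ 2 + Sk c x θ ^ 2) ^ 2 : ℝ) : ℂ)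
      = ∑ i, ∑ j, ∑ k, ∑ l, ((c i * c j * c k * c l : ℝ) : ℂ)
        * Complex.exp (((α i + α j - α k - α l : ℝ) : ℂ) * I) := by
    have e1 : ((Ck c x θ : ℝ) : ℂ) + (Sk c x θ : ℝ) * I
        = ∑ i, (c i : ℂ) * Complex.exp ((α i : ℂ) * I) := by
      unfold Ck Sk
      push_cast
      rw [Finset.sum_mul, ← Finset.sum_add_distrib]
      refine Finset.sum_congr rfl fun i _ => ?_
      rw [Complex.exp_mul_I, hα]
      push_cast
      ring
    have e2 : ((Ck c x θ : ℝ) : ℂ) - (Sk c x θ : ℝ) * I
        = ∑ i, (c i : ℂ) * Complex.exp (-(α i : ℂ) * I) := by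
      unfold Ck Sk
      push_cast
      rw [Finset.sum_mul, ← Finset.sum_sub_distrib]
      refine Finset.sum_congr rfl fun i _ => ?_
      rw [Complex.exp_mul_I, Complex.cos_neg, Complex.sin_neg, hα]
      push_cast
      ring
    have e3 : (((Ck c x θ ^ 2 + Sk c x θ ^ 2) ^ 2 : ℝ) : ℂ)
        = ((Ck c x θ : ℝ) + (Sk c x θ : ℝ) * I) * ((Ck c x θ : ℝ) + (Sk c x θ : ℝ) * I)
          * (((Ck c x θ : ℝ) - (Sk c x θ : ℝ) * I) * ((Ck c x θ : ℝ) - (Sk c x θ : ℝ) * I)) := by
      push_cast
      have hI := Complex.I_sq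
      linear_combination (2 * (Ck c x θ : ℂ) ^ 2 * (Sk c x θ : ℂ) ^ 2
        + (Sk c x θ : ℂ) ^ 4 * (1 - I ^ 2)) * hI
    rw [e3, e1, e2, Finset.sum_mul_sum, Finset.sum_mul_sum, Finset.sum_mul]
    refine Finset.sum_congr rfl fun i _ => ?_
    rw [Finset.sum_mul]
    refine Finset.sum_congr rfl fun j _ => ?_
    rw [Finset.mul_sum]
    refine Finset.sum_congr rfl fun k _ => ?_
    rw [Finset.mul_sum]
    refine Finset.sum_congr rfl fun l _ => ?_
    have e4 : Complex.exp (((α i + α j - α k - α l : ℝ) : ℂ) * I)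
        = Complex.exp ((α i : ℂ) * I) * Complex.exp ((α j : ℂ) * I)
          * (Complex.exp (-(α k : ℂ) * I) * Complex.exp (-(α l : ℂ) * I)) := by
      rw [← Complex.exp_add, ← Complex.exp_add, ← Complex.exp_add]
      congr 1
      push_cast
      ring
    rw [e4]
    push_cast
    ring
  have hR := congrArg Complex.re hP
  rw [Complex.ofReal_re] at hR
  unfold Uk
  rw [hR]
  simp only [Complex.re_sum, Complex.re_ofReal_mul, Complex.exp_ofReal_mul_I_re]
  rfl

/-- the four-point function of the waves in one direction -/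
lemma sum_one : ∑ i, ∑ j, ∑ k, ∑ l, (c i * c j * c k * c l) * Berry.waveK (x i + x j - x k - x l)
    = (2 * Real.pi)⁻¹ * ∫ θ in (0 : ℝ)..(2 * Real.pi), Uk c x θ ^ 2 := by
  simp only [Uk_sq]
  have hI := sum_I4 (r := r)
  rw [← hI (fun i j k l => (c i * c j * c k * c l) * Berry.waveK (x i + x j - x k - x l))]
  have e : ∀ θ : ℝ, (∑ i, ∑ j, ∑ k, ∑ l, (c i * c j * c k * c l)
      * Real.cos (((x i).re * Real.cos θ + (x i).im * Real.sin θ)
        + ((x j).re * Real.cos θ + (x j).im * Real.sin θ)
        - ((x k).re * Real.cos θ + (x k).im * Real.sin θ)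
        - ((x l).re * Real.cos θ + (x l).im * Real.sin θ)))
      = ∑ a : I4 r, (c a.1 * c a.2.1 * c a.2.2.1 * c a.2.2.2)
        * Real.cos ((x a.1 + x a.2.1 - x a.2.2.1 - x a.2.2.2).re * Real.cos θ
          + (x a.1 + x a.2.1 - x a.2.2.1 - x a.2.2.2).im * Real.sin θ) := by
    intro θ
    rw [← hI (fun i j k l => (c i * c j * c k * c l)
      * Real.cos (((x i).re * Real.cos θ + (x i).im * Real.sin θ)
        + ((x j).re * Real.cos θ + (x j).im * Real.sin θ)
        - ((x k).re * Real.cos θ + (x k).im * Real.sin θ)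
        - ((x l).re * Real.cos θ + (x l).im * Real.sin θ)))]
    refine Finset.sum_congr rfl fun a _ => ?_
    congr 2
    simp only [Complex.sub_re, Complex.sub_im, Complex.add_re, Complex.add_im]
    ring
  simp only [e]
  rw [intervalIntegral.integral_finsetSum, Finset.mul_sum]
  · refine Finset.sum_congr rfl fun a _ => ?_
    rw [intervalIntegral.integral_const_mul]
    unfold Berry.waveK
    ring
  · intro a _
    exact (by fun_prop : Continuous fun θ : ℝ => (c a.1 * c a.2.1 * c a.2.2.1 * c a.2.2.2)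
        * Real.cos ((x a.1 + x a.2.1 - x a.2.2.1 - x a.2.2.2).re * Real.cos θ
          + (x a.1 + x a.2.1 - x a.2.2.1 - x a.2.2.2).im * Real.sin θ)).intervalIntegrable _ _

/-- **the sum of the second parts** -/
theorem sum_resK : ∑ a : I4 r, q4 c a * resK (X4 x a)
    = 3 * ((2 * Real.pi)⁻¹ * ∫ θ in (0 : ℝ)..(2 * Real.pi), Uk c x θ ^ 2) := by
  have h0 := sum_one c x
  set S := (2 * Real.pi)⁻¹ * ∫ θ in (0 : ℝ)..(2 * Real.pi), Uk c x θ ^ 2 with hS
  have e0 : ∀ a : I4 r, q4 c a * resK (X4 x a) = (fun i j k l => (c i * c j * c k * c l)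
      * (Berry.waveK (x i + x j - x k - x l) + Berry.waveK (x i + x k - x j - x l)
        + Berry.waveK (x i + x l - x j - x k))) a.1 a.2.1 a.2.2.1 a.2.2.2 := by
    intro a
    unfold q4 X4 resK
    simp only [Matrix.cons_val_zero, Matrix.cons_val_one, Matrix.cons_val]
  simp only [e0]
  rw [sum_I4 (fun i j k l => (c i * c j * c k * c l)
      * (Berry.waveK (x i + x j - x k - x l) + Berry.waveK (x i + x k - x j - x l)
        + Berry.waveK (x i + x l - x j - x k)))]
  have e2 : ∑ i, ∑ j, ∑ k, ∑ l, (c i * c j * c k * c l)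
      * Berry.waveK (x i + x k - x j - x l) = S := by
    rw [← h0]
    refine Finset.sum_congr rfl fun i _ => ?_
    rw [Finset.sum_comm]
    refine Finset.sum_congr rfl fun k _ => ?_
    refine Finset.sum_congr rfl fun j _ => ?_
    refine Finset.sum_congr rfl fun l _ => ?_
    ring
  have e3 : ∑ i, ∑ j, ∑ k, ∑ l, (c i * c j * c k * c l)
      * Berry.waveK (x i + x l - x j - x k) = S := by
    rw [← e2]
    refine Finset.sum_congr rfl fun i _ => ?_
    refine Finset.sum_congr rfl fun j _ => ?_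
    rw [Finset.sum_comm]
    refine Finset.sum_congr rfl fun k _ => ?_
    refine Finset.sum_congr rfl fun l _ => ?_
    ring
  have e4 : ∑ i, ∑ j, ∑ k, ∑ l, (c i * c j * c k * c l)
        * (Berry.waveK (x i + x j - x k - x l) + Berry.waveK (x i + x k - x j - x l)
          + Berry.waveK (x i + x l - x j - x k))
      = (∑ i, ∑ j, ∑ k, ∑ l, (c i * c j * c k * c l) * Berry.waveK (x i + x j - x k - x l))
        + (∑ i, ∑ j, ∑ k, ∑ l, (c i * c j * c k * c l) * Berry.waveK (x i + x k - x j - x l))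
        + ∑ i, ∑ j, ∑ k, ∑ l, (c i * c j * c k * c l) * Berry.waveK (x i + x l - x j - x k) := by
    simp only [← Finset.sum_add_distrib]
    refine Finset.sum_congr rfl fun i _ => ?_
    refine Finset.sum_congr rfl fun j _ => ?_
    refine Finset.sum_congr rfl fun k _ => ?_
    refine Finset.sum_congr rfl fun l _ => ?_
    ring
  rw [e4, h0, e2, e3]
  ring

/-- the Cauchy-Schwarz inequality -/
theorem sum_resK_ge : 3 * tau2 c x ^ 2 ≤ ∑ a : I4 r, q4 c a * resK (X4 x a) := by
  have hpi : (0 : ℝ) < 2 * Real.pi := by have := Real.pi_pos; positivity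
  have hU := cont_Uk c x
  rw [sum_resK]
  set t := tau2 c x with ht
  have h1 : 0 ≤ ∫ θ in (0 : ℝ)..(2 * Real.pi), (Uk c x θ - t) ^ 2 :=
    intervalIntegral.integral_nonneg hpi.le fun θ _ => sq_nonneg _
  have h2 : ∫ θ in (0 : ℝ)..(2 * Real.pi), (Uk c x θ - t) ^ 2
      = (∫ θ in (0 : ℝ)..(2 * Real.pi), Uk c x θ ^ 2) - 2 * Real.pi * t ^ 2 := by
    have e1 : ∀ θ : ℝ, (Uk c x θ - t) ^ 2 = Uk c x θ ^ 2 - 2 * t * Uk c x θ + t ^ 2 :=
      fun θ => by ring
    have e2 : ∫ θ in (0 : ℝ)..(2 * Real.pi), Uk c x θ = 2 * Real.pi * t := by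
      rw [ht, tau2_eq, ← mul_assoc, mul_inv_cancel₀ hpi.ne', one_mul]
    simp only [e1]
    rw [intervalIntegral.integral_add, intervalIntegral.integral_sub,
      intervalIntegral.integral_const_mul, e2, intervalIntegral.integral_const, smul_eq_mul]
    · ring
    · exact (hU.pow 2).intervalIntegrable _ _
    · exact (hU.const_mul _).intervalIntegrable _ _
    · exact ((hU.pow 2).sub (hU.const_mul _)).intervalIntegrable _ _
    · exact continuous_const.intervalIntegrable _ _
  rw [h2] at h1
  have h3 : t ^ 2 ≤ (2 * Real.pi)⁻¹ * ∫ θ in (0 : ℝ)..(2 * Real.pi), Uk c x θ ^ 2 := by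
    rw [inv_mul_eq_div, le_div_iff₀ hpi]
    linarith
  linarith

theorem tau2_nonneg : 0 ≤ tau2 c x := by
  have hpi : (0 : ℝ) < 2 * Real.pi := by have := Real.pi_pos; positivity
  rw [tau2_eq]
  refine mul_nonneg (by positivity) (intervalIntegral.integral_nonneg hpi.le fun θ _ => ?_)
  unfold Uk
  positivity

/-- the second moment is not negative, for the measure in one direction -/
lemma Vk_dirac_nonneg (θ : ℝ) : 0 ≤ Vk c x (Measure.dirac (1 : S1)) θ := by
  set β : Fin r → ℝ := fun i => (Complex.exp (θ * I) * x i).re with hβ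
  have h1 : Vk c x (Measure.dirac (1 : S1)) θ
      = (∑ i, c i * Real.cos (β i)) ^ 2 + (∑ i, c i * Real.sin (β i)) ^ 2 := by
    rw [sq, sq, Finset.sum_mul_sum, Finset.sum_mul_sum, ← Finset.sum_add_distrib]
    unfold Vk
    refine Finset.sum_congr rfl fun i _ => ?_
    rw [← Finset.sum_add_distrib]
    refine Finset.sum_congr rfl fun j _ => ?_
    have e : gk (Measure.dirac (1 : S1)) (x i - x j) θ = Real.cos (β i - β j) := by
      unfold gk dirK
      rw [integral_dirac]
      congr 1
      rw [hβ]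
      beta_reduce
      rw [← Complex.sub_re]
      congr 1
      have h3 : (starRingEnd ℂ) (((1 : S1) : ℂ)) = 1 := by simp
      rw [h3]
      ring
    rw [e, Real.cos_sub]
    ring
  rw [h1]
  positivity

/-- the variance of the statistic under the random wave is positive if one of the coefficients is not
zero -/
theorem tau2_pos {k : ℕ} (hk : 0 < k)
    (hA : ∑ i, ∑ j, ((c i * c j : ℝ) : ℂ) * Jk k (x i - x j) ≠ 0) : 0 < tau2 c x := by
  have hpi : (0 : ℝ) < 2 * Real.pi := by have := Real.pi_pos; positivity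
  have h1 := int_Vk c x (Measure.dirac (1 : S1)) hk
  have h2 : cof (Measure.dirac (1 : S1)) k = 1 := by
    unfold cof
    rw [integral_dirac]
    simp
  rw [h2, mul_one] at h1
  have h3 := mean_Vk c x (Measure.dirac (1 : S1))
  have h4 : ‖∫ θ in (0 : ℝ)..(2 * Real.pi), (Vk c x (Measure.dirac (1 : S1)) θ : ℂ)
      * Complex.exp (-(k * (θ * I)))‖
      ≤ ∫ θ in (0 : ℝ)..(2 * Real.pi), Vk c x (Measure.dirac (1 : S1)) θ := by
    refine (intervalIntegral.norm_integral_le_integral_norm hpi.le).trans (le_of_eq ?_)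
    refine intervalIntegral.integral_congr fun θ _ => ?_
    beta_reduce
    have h5 : ‖Complex.exp (-(k * ((θ : ℂ) * I)))‖ = 1 := by
      have : -((k : ℂ) * ((θ : ℂ) * I)) = ((-(k * θ) : ℝ) : ℂ) * I := by push_cast; ring
      rw [this, Complex.norm_exp_ofReal_mul_I]
    rw [norm_mul, h5, mul_one, Complex.norm_real, Real.norm_of_nonneg (Vk_dirac_nonneg c x θ)]
  rw [h1, h3] at h4
  have h6 : ((Measure.dirac (1 : S1)) univ).toReal = 1 := by simp
  rw [h6, one_mul] at h4
  have h7 := norm_pos_iff.2 hA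
  by_contra hcon
  have h8 := tau2_nonneg c x
  have h9 : tau2 c x = 0 := le_antisymm (not_lt.1 hcon) h8
  rw [h9, mul_zero] at h4
  linarith

end

end ONE
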