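import Pool.Agent.ONE.Main
import Pool.Agent.ONE.TStat
import Pool.Agent.ONE.Inf

/-!
Statistics of degree four in negative curvature: the case of equality in the lower bound.
-/

open Complex MeasureTheory Filter Topology Set
open UpperHalfPlane hiding I
open scoped ContDiff MatrixGroups ProbabilityTheory

namespace ONE

open QE QE.NC NFP NFP.BND

noncomputable section

variable {Γ : Subgroup SL(2, ℝ)} {ρ : ℍ → ℝ} {D : Set ℍ} {φ : ℕ → ℍ → ℝ} {m : ℕ → ℝ}
  {ι : Type} [Fintype ι] {q : ι → ℝ} {X : ι → Fin 4 → ℂ} {A B : ℝ} {v : Measure S1 → ℝ}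

/-- a statistic of degree four, with its value `A` under the random wave: for a directional measure `s`
of mass `M` the Gaussian part is `A M² + B v(s)` with `v ≥ 0`, the second part is positive, and if
`v(s) = 0` infinitely many even moments of `s` vanish -/
structure Stat (q : ι → ℝ) (X : ι → Fin 4 → ℂ) (A B : ℝ) (v : Measure S1 → ℝ) : Prop where
  A0 : 0 < A
  B0 : 0 < B
  v0 : ∀ s, 0 ≤ v s
  dir : ∀ s : Measure S1, IsFiniteMeasure s →
    ∑ a, q a * dirWick s (X a) = A * (s univ).toReal ^ 2 + B * v s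
  res : 0 < ∑ a, q a * resK (X a)
  inf : ∀ N : ℕ, ∃ k : ℕ, N ≤ k ∧ ∀ s : Measure S1, IsFiniteMeasure s → v s = 0 →
    cof s ((2 * k : ℕ) : ℤ) = 0

/-- the mean of the product of four values -/
def pr (ρ : ℍ → ℝ) (D : Set ℍ) (φ : ℍ → ℝ) (m : ℝ) (x : Fin 4 → ℂ) : ℝ :=
  ∫ p, (Berry.rWave ρ φ m (x 0) p * Berry.rWave ρ φ m (x 1) p * Berry.rWave ρ φ m (x 2) p
    * Berry.rWave ρ φ m (x 3) p) ∂(Berry.rFrameProb ρ D)

/-- the mean of the statistic -/
def cQ (ρ : ℍ → ℝ) (D : Set ℍ) (φ : ℍ → ℝ) (m : ℝ) (q : ι → ℝ) (X : ι → Fin 4 → ℂ) : ℝ :=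
  ∑ a, q a * pr ρ D φ m (X a)

/-- the defect of the fourth moments -/
def kap (ρ : ℍ → ℝ) (D : Set ℍ) (φ : ℍ → ℝ) : ℝ := Berry.rAvg ρ D (fun z => φ z ^ 4)

/-- **a bound for the statistic bounds the fourth moments** -/
theorem bdd_four_Q [Countable Γ] (H : Hyp Γ ρ D φ m) (S : Stat q X A B v) {C : ℝ}
    (hC : ∀ n, cQ ρ D (φ n) (m n) q X ≤ C) :
    ∃ B : ℝ, ∀ n, kap ρ D (φ n) ≤ B := by
  by_contra hcon
  obtain ⟨t, ht, hk⟩ := exists_unbdd hcon
  have H' := H.comp ht.tendsto_atTop
  have h1 : ∀ a, Tendsto (fun n => q a * ((pr ρ D (φ (t n)) (m (t n)) (X a)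
      - kap ρ D (φ (t n)) / 3 * resK (X a)) / kap ρ D (φ (t n)))) atTop (𝓝 (q a * 0)) := by
    intro a
    have h2 := infty_closed Γ ρ D (fun n => φ (t n)) (fun n => m (t n)) inferInstance H'.fac
      H'.meas H'.dom H'.eig H'.smooth H'.norm hk (fun _ => 1) continuous_const
      (fun _ _ _ => rfl) (X a)
    simp only [one_mul] at h2
    exact h2.const_mul _
  have h2 := tendsto_finsetSum Finset.univ fun a _ => h1 a
  simp only [mul_zero, Finset.sum_const_zero] at h2
  have hR := S.res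
  set R := ∑ a, q a * resK (X a) with hRdef
  have e : ∀ n, ∑ a, q a * ((pr ρ D (φ (t n)) (m (t n)) (X a)
      - kap ρ D (φ (t n)) / 3 * resK (X a)) / kap ρ D (φ (t n)))
      = (cQ ρ D (φ (t n)) (m (t n)) q X - kap ρ D (φ (t n)) / 3 * R) / kap ρ D (φ (t n)) := by
    intro n
    rw [hRdef]
    unfold cQ
    rw [Finset.mul_sum, ← Finset.sum_sub_distrib, Finset.sum_div]
    refine Finset.sum_congr rfl fun a _ => ?_
    ring
  simp only [e] at h2
  have h3 := h2.eventually (lt_mem_nhds (show -(R / 6) < (0 : ℝ) by linarith))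
  have h4 := hk.eventually_gt_atTop (max 1 (6 * C / R))
  obtain ⟨n, hn1, hn2⟩ := (h3.and h4).exists
  have hn2' : max 1 (6 * C / R) < kap ρ D (φ (t n)) := hn2
  set κ := kap ρ D (φ (t n)) with hκ
  have hκ1 : 1 < κ := lt_of_le_of_lt (le_max_left _ _) hn2'
  have hκ2 : 6 * C / R < κ := lt_of_le_of_lt (le_max_right _ _) hn2'
  rw [lt_div_iff₀ (by linarith)] at hn1
  rw [div_lt_iff₀ hR] at hκ2
  have h6 := hC (t n)
  nlinarith

/-- the limit of the statistic along a subsequence -/
theorem lim_Q [Countable Γ] {N : ℕ} {u : ℤ → ℂ → ℂ} {s : ProbabilityTheory.Kernel ℍ S1}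
    (T : BND.Dat Γ ρ D (fun n => φ (n + N)) (fun n => m (n + N)) u s) (q : ι → ℝ)
    (X : ι → Fin 4 → ℂ) :
    Tendsto (fun n => cQ ρ D (φ n) (m n) q X
        - (∑ a, q a * Berry.rAvg ρ D (fun z => dirWick (s z) (X a))
          + (kap ρ D (φ n) - 3 * Berry.rAvg ρ D (fun z => (s z univ).toReal ^ 2)) / 3
            * ∑ a, q a * resK (X a))) atTop (𝓝 0) := by
  rw [← tendsto_add_atTop_iff_nat N]
  have h1 : ∀ a, Tendsto (fun n => q a * (pr ρ D (φ (n + N)) (m (n + N)) (X a)
      - (Berry.rAvg ρ D (fun z => dirWick (s z) (X a))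
        + (kap ρ D (φ (n + N)) - 3 * Berry.rAvg ρ D (fun z => (s z univ).toReal ^ 2)) / 3
          * resK (X a)))) atTop (𝓝 (q a * 0)) := by
    intro a
    have h2 := T.main fourVar_closed NFP.glob (fun _ => 1) continuous_const
      (fun _ _ _ => rfl) (X a)
    simp only [one_mul] at h2
    exact h2.const_mul _
  have h2 := tendsto_finsetSum Finset.univ fun a _ => h1 a
  simp only [mul_zero, Finset.sum_const_zero] at h2
  refine h2.congr fun n => ?_
  unfold cQ
  rw [Finset.mul_sum, ← Finset.sum_add_distrib, ← Finset.sum_sub_distrib]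
  refine Finset.sum_congr rfl fun a _ => ?_
  ring

/-- **the case of equality, along a subsequence** -/
theorem one_sub_Q [Countable Γ] (H : Hyp Γ ρ D φ m) (S : Stat q X A B v)
    (hl : Tendsto (fun n => cQ ρ D (φ n) (m n) q X) atTop (𝓝 A)) :
    ∃ r : ℕ → ℕ, StrictMono r ∧ QuantumErgodic ρ (fun n => φ (r n)) (fun n => m (r n)) ∧
      Tendsto (fun n => kap ρ D (φ (r n))) atTop (𝓝 3) := by
  have hP := H.prob
  obtain ⟨C, hC⟩ := hl.bddAbove_range
  obtain ⟨B₀, hB⟩ := bdd_four_Q H S (C := C) fun n => hC ⟨n, rfl⟩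
  obtain ⟨r, N, u, s, hr, hf, hS, T⟩ := exists_sub H ⟨B₀, hB⟩
  have H2 := H.comp hr.tendsto_atTop
  have l1 : Tendsto (fun n => Berry.rAvg ρ D (fun z => φ (r n) z ^ 2)) atTop
      (𝓝 (Berry.rAvg ρ D (fun z => ((s z) univ).toReal))) := by
    rw [← tendsto_add_atTop_iff_nat N]
    have := (mass T (w := fun _ => 1) continuous_const (fun _ _ _ => rfl)).2
    simpa only [one_mul] using this
  have l2 := lim_Q (φ := fun n => φ (r n)) (m := fun n => m (r n)) T q X
  have l3 : ∀ ε > 0, ∀ᶠ n in atTop, 3 * Berry.rAvg ρ D (fun z => (s z univ).toReal ^ 2) - ε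
      ≤ kap ρ D (φ (r n)) := by
    intro ε hε
    have := pos_closed Γ ρ D (fun n => φ (r n)) (fun n => m (r n)) s inferInstance H2.fac H2.neg
      H2.meas H2.dom H2.eig H2.smooth ⟨B₀, fun n => hB (r n)⟩ hf hS (fun _ => 1)
      continuous_const (fun _ => zero_le_one) (fun _ _ _ => rfl) ε hε
    simp only [one_mul] at this
    exact this
  have hR := S.res
  set R := ∑ a, q a * resK (X a) with hRdef
  have js1 : Integrable (fun z => (s z univ).toReal) (nu ρ D) := by
    have := H2.int_area (mass T (w := fun _ => 1) continuous_const (fun _ _ _ => rfl)).1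
    simpa only [one_mul] using this
  have js2 : Integrable (fun z => (s z univ).toReal ^ 2) (nu ρ D) := H2.int_area (T.psq NFP.glob)
  have jwi : ∀ x, Integrable (fun z => dirWick (s z) x) (nu ρ D) := fun x =>
    H2.int_area (T.wick_int fourVar_closed NFP.glob x)
  have jsum : Integrable (fun z => ∑ a, q a * dirWick (s z) (X a)) (nu ρ D) :=
    integrable_finsetSum _ fun a _ => (jwi (X a)).const_mul _
  have hone : Berry.rAvg ρ D (fun z => (s z univ).toReal) = 1 := by
    refine tendsto_nhds_unique l1 ?_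
    simp only [H.norm]
    exact tendsto_const_nhds
  set S2 := Berry.rAvg ρ D (fun z => (s z univ).toReal ^ 2) with hS2
  set G := ∑ a, q a * Berry.rAvg ρ D (fun z => dirWick (s z) (X a)) with hG
  have hB0 := S.B0
  have hvark : Integrable (fun z => v (s z)) (nu ρ D) := by
    have h1 := (jsum.sub (js2.const_mul A)).div_const B
    refine h1.congr (Eventually.of_forall fun z => ?_)
    simp only [Pi.sub_apply]
    rw [S.dir (s z) (hf z)]
    field_simp
    ring
  have hGe : G = A * S2 + B * ∫ z, v (s z) ∂(nu ρ D) := by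
    have e1 : G = ∫ z, ∑ a, q a * dirWick (s z) (X a) ∂(nu ρ D) := by
      rw [integral_finsetSum _ fun a _ => (jwi (X a)).const_mul _, hG]
      refine Finset.sum_congr rfl fun a _ => ?_
      rw [integral_const_mul]
      rfl
    rw [e1, hS2]
    unfold Berry.rAvg
    rw [← integral_const_mul, ← integral_const_mul, ← integral_add (js2.const_mul _)
      (hvark.const_mul _)]
    exact integral_congr_ae (Eventually.of_forall fun z => S.dir (s z) (hf z))
  have hv0 : 0 ≤ ∫ z, v (s z) ∂(nu ρ D) := integral_nonneg fun z => S.v0 _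
  -- the variance of the mass
  have hSe : ∫ z, ((s z univ).toReal - 1) ^ 2 ∂(nu ρ D) = S2 - 1 := by
    have e1 : (fun z => ((s z univ).toReal - 1) ^ 2)
        = fun z => (s z univ).toReal ^ 2 - 2 * (s z univ).toReal + 1 := by
      funext z; ring
    have j1 : Integrable (fun z => 2 * (s z univ).toReal) (nu ρ D) := js1.const_mul 2
    have j12 : Integrable (fun z => (s z univ).toReal ^ 2 - 2 * (s z univ).toReal) (nu ρ D) :=
      js2.sub j1
    rw [e1, integral_add j12 (integrable_const 1), integral_sub js2 j1, integral_const_mul]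
    have h2 : ∫ z, (s z univ).toReal ∂(nu ρ D) = 1 := hone
    rw [h2, hS2]
    unfold Berry.rAvg
    simp
    ring
  have hS1 : 1 ≤ S2 := by
    have : 0 ≤ ∫ z, ((s z univ).toReal - 1) ^ 2 ∂(nu ρ D) := integral_nonneg fun z => sq_nonneg _
    linarith
  -- the limit of the fourth moments
  have l5 : Tendsto (fun n => (kap ρ D (φ (r n)) - 3 * S2) / 3 * R) atTop (𝓝 (A - G)) := by
    have h1 := (hl.comp hr.tendsto_atTop).sub l2
    rw [sub_zero] at h1
    have h2 := h1.sub_const G
    refine h2.congr fun n => ?_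
    simp only [Function.comp_apply]
    ring
  have l6 : 0 ≤ A - G := by
    refine le_of_forall_pos_le_add fun δ hδ => ?_
    have h1 := l3 (3 * δ / R) (by positivity)
    refine ge_of_tendsto (l5.add_const δ) ?_
    filter_upwards [h1] with n hn
    have h2 : -(3 * δ / R) ≤ kap ρ D (φ (r n)) - 3 * S2 := by linarith
    have h3 : -(3 * δ / R) / 3 * R ≤ (kap ρ D (φ (r n)) - 3 * S2) / 3 * R :=
      mul_le_mul_of_nonneg_right (by linarith) hR.le
    have h4 : -(3 * δ / R) / 3 * R = -δ := by field_simp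
    linarith
  have hA0 := S.A0
  have a1 : 0 ≤ A * (S2 - 1) := mul_nonneg hA0.le (by linarith)
  have a2 : 0 ≤ B * ∫ z, v (s z) ∂(nu ρ D) := mul_nonneg hB0.le hv0
  have b1 : A * (S2 - 1) = 0 := by nlinarith
  have b2 : B * ∫ z, v (s z) ∂(nu ρ D) = 0 := by nlinarith
  have hS2e : S2 = 1 := by
    rcases mul_eq_zero.1 b1 with h | h
    · exact absurd h hA0.ne'
    · linarith
  have hve : ∫ z, v (s z) ∂(nu ρ D) = 0 := by
    rcases mul_eq_zero.1 b2 with h | h
    · exact absurd h hB0.ne'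
    · exact h
  have hG1 : A - G = 0 := by rw [hGe, hS2e, hve]; ring
  have l7 : Tendsto (fun n => kap ρ D (φ (r n))) atTop (𝓝 3) := by
    rw [hG1, hS2e] at l5
    have h1 := (l5.mul_const (3 / R)).add_const 3
    rw [zero_mul, zero_add] at h1
    refine h1.congr fun n => ?_
    have hRp : R ≠ 0 := hR.ne'
    field_simp
    ring
  refine ⟨r, hr, ?_, l7⟩
  -- the mass is one and the variance vanishes
  have hD' := T.ws.geo.dom
  have c1 : ∀ᵐ z : ℍ, ((s z) univ).toReal = 1 := by
    refine ae_of_D hD' (fun γ hγ => ?_) (H2.ae ?_)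
    · filter_upwards [T.inv NFP.glob γ hγ] with z hz h
      rw [← hz]; exact h
    · have h1 : ∫ z, ((s z univ).toReal - 1) ^ 2 ∂(nu ρ D) = 0 := by rw [hSe, hS2e, sub_self]
      have hint : Integrable (fun z => ((s z univ).toReal - 1) ^ 2) (nu ρ D) := by
        have e1 : (fun z => ((s z univ).toReal - 1) ^ 2)
            = fun z => (s z univ).toReal ^ 2 - 2 * (s z univ).toReal + 1 := by
          funext z; ring
        rw [e1]
        exact (js2.sub (js1.const_mul 2)).add (integrable_const 1)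
      have h2 := (integral_eq_zero_iff_of_nonneg (fun z => sq_nonneg _) hint).1 h1
      filter_upwards [h2] with z hz
      have h3 : ((s z univ).toReal - 1) ^ 2 = 0 := hz
      have h4 := pow_eq_zero_iff (two_ne_zero) |>.1 h3
      linarith
  have c2 : ∀ᵐ z : ℍ, v (s z) = 0 := by
    refine ae_of_D hD' (fun γ hγ => ?_) (H2.ae ?_)
    · filter_upwards [T.inv NFP.glob γ hγ, ae_all_iff.2 fun a => wick_inv T (X a) γ hγ] with z
        hz1 hz2 h
      have f1 := S.dir (s z) (hf z)
      have f2 := S.dir (s (γ • z)) (hf (γ • z))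
      rw [h, mul_zero, add_zero, hz1] at f2
      have f3 : ∑ a, q a * dirWick (s (γ • z)) (X a) = ∑ a, q a * dirWick (s z) (X a) :=
        Finset.sum_congr rfl fun a _ => by rw [hz2 a]
      rw [f3, f1] at f2
      have f4 : B * v (s z) = 0 := by linarith
      rcases mul_eq_zero.1 f4 with h | h
      · exact absurd h hB0.ne'
      · exact h
    · have h2 := (integral_eq_zero_iff_of_nonneg (fun z => S.v0 _) hvark).1 hve
      filter_upwards [h2] with z hz
      exact hz
  have htwo := two_pt T c1 fun k hk hk0 => even_of_inf T H2.fac (fun N => by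
    obtain ⟨k, hk, hkv⟩ := S.inf N
    refine ⟨k, hk, ?_⟩
    filter_upwards [c2] with z hz
    exact hkv (s z) (hf z) hz) k hk hk0
  exact quantum_of_two (φ := fun n => φ (r n)) (m := fun n => m (r n)) (N := N) T.ws htwo

/-- **The case of equality.** -/
theorem one_Q [Countable Γ] (H : Hyp Γ ρ D φ m) (S : Stat q X A B v)
    (hl : Tendsto (fun n => cQ ρ D (φ n) (m n) q X) atTop (𝓝 A)) :
    QuantumErgodic ρ φ m ∧ Tendsto (fun n => Berry.rAvg ρ D (fun z => φ n z ^ 4)) atTop (𝓝 3) := by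
  have key : ∀ ns : ℕ → ℕ, Tendsto ns atTop atTop → ∃ ms : ℕ → ℕ, StrictMono ms ∧
      QuantumErgodic ρ (fun n => φ (ns (ms n))) (fun n => m (ns (ms n))) ∧
      Tendsto (fun n => kap ρ D (φ (ns (ms n)))) atTop (𝓝 3) := by
    intro ns hns
    have h1 : Tendsto (fun n => cQ ρ D (φ (ns n)) (m (ns n)) q X) atTop (𝓝 A) := hl.comp hns
    obtain ⟨r, hr, hq, h4⟩ := one_sub_Q (φ := fun n => φ (ns n)) (m := fun n => m (ns n))
      (H.comp hns) S h1
    exact ⟨r, hr, hq, h4⟩
  refine ⟨fun j k ζ h1 h2 h3 => ?_, ?_⟩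
  · refine tendsto_of_subseq_tendsto fun ns hns => ?_
    obtain ⟨ms, -, hq, -⟩ := key ns hns
    exact ⟨ms, hq j k ζ h1 h2 h3⟩
  · refine tendsto_of_subseq_tendsto fun ns hns => ?_
    obtain ⟨ms, -, -, h4⟩ := key ns hns
    exact ⟨ms, h4⟩

end

end ONE
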