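import Pool.Agent.NFP.All
import Pool.Agent.BWM.C45
import Pool.Agent.ONE.Circ
import Pool.Agent.ONE.Down

/-!
Sequences of eigenfunctions with bounded fourth moments and a semiclassical measure: the mass, the
invariance of the four-point functions, quantum ergodicity from the Fourier coefficients.
-/

open Complex MeasureTheory Filter Topology Set
open UpperHalfPlane hiding I
open scoped ContDiff MatrixGroups ProbabilityTheory

namespace ONE

open QE QE.NC NFP NFP.BND

noncomputable section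

variable {Γ : Subgroup SL(2, ℝ)} {ρ : ℍ → ℝ} {D : Set ℍ} {φ : ℕ → ℍ → ℝ} {m : ℕ → ℝ}
  {u : ℤ → ℂ → ℂ} {s : ProbabilityTheory.Kernel ℍ S1}

/-- the mass converges -/
theorem mass [Countable Γ] (T : Dat Γ ρ D φ m u s) {w : ℍ → ℝ} (hw : Continuous w)
    (hwi : ∀ γ ∈ Γ, ∀ z, w (γ • z) = w z) :
    IntegrableOn (fun z => w z * ((s z) univ).toReal) D (Berry.area ρ) ∧
      Tendsto (fun n => Berry.rAvg ρ D (fun z => w z * φ n z ^ 2)) atTop
        (𝓝 (Berry.rAvg ρ D (fun z => w z * ((s z) univ).toReal))) := by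
  have W := T.ws
  refine (NFP.glob Γ ρ D (fun n z => φ n z ^ 2) (fun z => ((s z) univ).toReal) inferInstance W.geo W.rc
    W.coc (Eventually.of_forall fun n => (W.pc n).pow 2) (fun n γ hγ z => by rw [W.pinv n γ hγ])
    (fun K hKc hKU => T.bdd2 hKc hKU) (fun K hKc hKU => ?_) (fun ψ hψ hψs hψU => ?_)).2 w hw hwi
  · have : IsFiniteMeasure ((volume : Measure ℂ).restrict K) := ⟨by
      rw [Measure.restrict_apply_univ]; exact hKc.measure_lt_top⟩
    have h1 : Integrable (fun z => (u 0 z).re) ((volume : Measure ℂ).restrict K) :=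
      ((T.lim.loc 0 K hKc hKU).integrable one_le_two).re
    refine h1.congr ?_
    have h2 := ae_restrict_of_ae_restrict_of_subset (show K ⊆ UH from hKU) T.ue
    filter_upwards [h2] with z hz
    rw [hz, Complex.ofReal_re]
  · have hw0 : WLim UH (fun n z => (φ n (ofComplex z) : ℂ) * (φ n (ofComplex z) : ℂ)) (u 0) :=
      T.set.lim_zero T.lim.loc T.lim.lim 0
    have h1 := hw0.test (test_of_smooth hψ hψs hψU)
    have h2 := (Complex.continuous_re.tendsto _).comp h1
    have e1 : ∀ n, ∫ z, (ψ z : ℂ) * ((φ n (ofComplex z) : ℂ) * (φ n (ofComplex z) : ℂ))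
        = ((∫ z, ψ z * φ n (ofComplex z) ^ 2 : ℝ) : ℂ) := by
      intro n
      refine Eq.trans ?_ (integral_ofReal (𝕜 := ℂ) (μ := volume) (f := fun z : ℂ => ψ z
        * φ n (ofComplex z) ^ 2))
      refine integral_congr_ae (Eventually.of_forall fun z => ?_)
      change _ = ((ψ z * φ n (ofComplex z) ^ 2 : ℝ) : ℂ)
      push_cast
      ring
    have e2 : ∫ z, (ψ z : ℂ) * u 0 z
        = ((∫ z, ψ z * ((s (ofComplex z)) univ).toReal : ℝ) : ℂ) := by
      refine Eq.trans ?_ (integral_ofReal (𝕜 := ℂ) (μ := volume) (f := fun z : ℂ => ψ z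
        * ((s (ofComplex z)) univ).toReal))
      refine integral_congr_ae ?_
      have h4 := (ae_restrict_iff' isOpen_UH.measurableSet).1 T.ue
      filter_upwards [h4] with z hz
      change _ = ((ψ z * ((s (ofComplex z)) univ).toReal : ℝ) : ℂ)
      by_cases hzU : z ∈ UH
      · rw [hz hzU]
        push_cast
        ring
      · rw [image_eq_zero_of_notMem_tsupport fun hh => hzU (hψU hh)]
        simp
    rw [e2] at h2
    refine (h2.congr fun n => ?_)
    rw [Function.comp_apply, e1, Complex.ofReal_re]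

/-- the four-point functions are invariant -/
theorem wick_inv [Countable Γ] (T : Dat Γ ρ D φ m u s) (x : Fin 4 → ℂ) :
    ∀ γ ∈ Γ, ∀ᵐ z : ℍ, dirWick (s (γ • z)) x = dirWick (s z) x := by
  intro γ hγ
  have W := T.ws
  have h0 := T.loc fourVar_closed x
  have h1 := (NFP.glob Γ ρ D (fun n z => angProd ρ (φ n) (m n) x z - defc x * φ n z ^ 4)
    (fun z => dirWick (s z) x - 3 * defc x * ((s z) univ).toReal ^ 2) inferInstance W.geo W.rc
    W.coc ((W.ac x).mono fun n hn => hn.sub (continuous_const.mul ((W.pc n).pow 4)))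
    (fun n γ hγ z => by rw [angProd_inv (W.pinv n) W.geo.inv (m n) x γ hγ z, W.pinv n γ hγ])
    (fun K hKc hKU => by
      obtain ⟨C, hC⟩ := W.defect_bdd x (prod_le_four le_rfl) 0 (defc x) hKc hKU
      refine ⟨C, ?_⟩
      filter_upwards [hC] with n hn
      simpa only [zero_add] using hn)
    (fun K hKc hKU => by
      obtain ⟨k1, k2⟩ := h0.1 K hKc hKU
      exact k1.sub (k2.const_mul _))
    (fun ψ hψ hψs hψU => h0.2 ψ hψ hψs hψU)).1 γ hγ
  filter_upwards [h1, T.inv NFP.glob γ hγ] with z hz1 hz2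
  rw [hz2] at hz1
  linarith

/-- an almost everywhere invariant function which is constant on `D` is constant -/
theorem ae_of_D [Countable Γ] (hD : IsFundamentalDomain Γ D (volume : Measure ℍ)) {P : ℍ → Prop}
    (hinv : ∀ γ ∈ Γ, ∀ᵐ z : ℍ, (P (γ • z) → P z)) (h : ∀ᵐ z : ℍ, z ∈ D → P z) : ∀ᵐ z : ℍ, P z := by
  have h1 : ∀ᵐ z : ℍ, ∀ γ : Γ, (P (γ • z) → P z) :=
    ae_all_iff.2 fun γ => hinv γ γ.2
  have h2 : ∀ᵐ z : ℍ, ∀ γ : Γ, (γ • z ∈ D → P (γ • z)) := by
    rw [ae_all_iff]
    intro γ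
    have := (measurePreserving_smul γ (volume : Measure ℍ)).quasiMeasurePreserving.ae h
    exact this
  filter_upwards [h1, h2, hD.ae_covers] with z a1 a2 a3
  obtain ⟨γ, hγ⟩ := a3
  exact a1 γ (a2 γ hγ)

/-- the jets depend only on the weight on the open set -/
theorem jet_congr {U : Set ℂ} (hU : IsOpen U) {a a' : ℂ → ℂ} (ha : ∀ z ∈ U, a' z = a z)
    (h : ℕ → ℝ) (f : ℕ → ℂ → ℂ) (k n : ℕ) : ∀ z ∈ U, jet h a' f k n z = jet h a f k n z := by
  induction k with
  | zero => exact fun z _ => rfl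
  | succ k ih =>
    intro z hz
    have e : jet h a' f k n =ᶠ[𝓝 z] jet h a f k n := by
      filter_upwards [hU.mem_nhds hz] with w hw
      exact ih w hw
    show -(2 * I * h n) * a' z * dz (jet h a' f k n) z = -(2 * I * h n) * a z * dz (jet h a f k n) z
    rw [ha z hz, dz_congr e]

theorem E_congr {U : Set ℂ} (hU : IsOpen U) {a a' : ℂ → ℂ} (ha : ∀ z ∈ U, a' z = a z)
    (h : ℕ → ℝ) (f : ℕ → ℂ → ℂ) (k : ℤ) (n : ℕ) : ∀ z ∈ U, E h a' f k n z = E h a f k n z := by
  intro z hz
  cases k with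
  | ofNat k => exact jet_congr hU ha h f k n z hz
  | negSucc k =>
    show (-1) ^ (k + 1) * (starRingEnd ℂ) (jet h a' f (k + 1) n z)
      = (-1) ^ (k + 1) * (starRingEnd ℂ) (jet h a f (k + 1) n z)
    rw [jet_congr hU ha h f (k + 1) n z hz]

/-- the limits satisfy the transport equations -/
theorem trans (T : Dat Γ ρ D φ m u s) : Trans ρ u := fun k _ hζ =>
  QE.NC.LimM.limit_transport T.set T.lim.loc T.lim.lim k hζ

/-- the mass, on the plane -/
theorem u_one (T : Dat Γ ρ D φ m u s) (h1 : ∀ᵐ z : ℍ, ((s z) univ).toReal = 1) :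
    ∀ᵐ z ∂((volume : Measure ℂ).restrict UH), u 0 z = 1 := by
  have h3 : ∀ᵐ z ∂((volume : Measure ℂ).restrict UH),
      ((s (ofComplex z)) univ).toReal = 1 := by
    refine ae_UH ?_
    filter_upwards [h1] with z hz
    rw [ofComplex_apply]
    exact hz
  filter_upwards [T.ue, h3] with z a1 a2
  rw [a1, a2, Complex.ofReal_one]

/-- the limits are equivariant -/
theorem equiv (T : Dat Γ ρ D φ m u s) (hF : Fac Γ ρ) : ∀ γ ∈ Γ, ∀ k : ℤ,
    ∀ᵐ z ∂((volume : Measure ℂ).restrict UH), u k z = phase γ z ^ k * u k (mob γ z) := by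
  intro γ hγ k
  refine QE.NC.LimM.limit_equiv T.set (T.lim.loc k) (T.set.lim_zero T.lim.loc T.lim.lim k) γ
    (fun z hz => QE.NC.LimM.aR_mob (hF.inv γ hγ) hz) fun n z _ => ?_
  rw [ofComplex_mob, T.ws.pinv n γ hγ]

/-- **the moments vanish if infinitely many of them vanish** -/
theorem even_of_inf (T : Dat Γ ρ D φ m u s) (hF : Fac Γ ρ)
    (hinf : ∀ N : ℕ, ∃ k : ℕ, N ≤ k ∧ ∀ᵐ z : ℍ, cof (s z) ((2 * k : ℕ) : ℤ) = 0) (k : ℤ)
    (hk : Even k) (hk0 : k ≠ 0) : ∀ᵐ z ∂((volume : Measure ℂ).restrict UH), u k z = 0 := by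
  have all : ∀ n : ℕ, 1 ≤ n →
      ∀ᵐ z ∂((volume : Measure ℂ).restrict UH), u ((2 * n : ℕ) : ℤ) z = 0 := by
    intro n hn
    obtain ⟨K, hK, hKz⟩ := hinf n
    have h0 : ∀ᵐ z ∂((volume : Measure ℂ).restrict UH), u ((2 * K : ℕ) : ℤ) z = 0 := by
      have h1 : ∀ᵐ z ∂((volume : Measure ℂ).restrict UH),
          cof (s (ofComplex z)) ((2 * K : ℕ) : ℤ) = 0 := by
        refine ae_UH ?_
        filter_upwards [hKz] with z hz
        rw [ofComplex_apply]
        exact hz
      filter_upwards [T.cof ((2 * K : ℕ) : ℤ), h1] with z a1 a2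
      rw [a1, a2]
    have h1 : ∀ d : ℕ, n + d ≤ K → d ≤ K - n → ∀ᵐ z ∂((volume : Measure ℂ).restrict UH),
        u ((2 * (K - d) : ℕ) : ℤ) z = 0 := by
      intro d
      induction d with
      | zero => intro _ _; exact h0
      | succ d ih =>
        intro hd1 hd2
        have h2 := ih (by omega) (by omega)
        refine down hF T.lim.loc (trans T) (equiv T hF) (l := 2 * (K - (d + 1))) (by omega) ?_
        have e : ((2 * (K - (d + 1)) : ℕ) : ℤ) + 2 = ((2 * (K - d) : ℕ) : ℤ) := by omega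
        rw [e]
        exact h2
    have h3 := h1 (K - n) (by omega) le_rfl
    have e : K - (K - n) = n := by omega
    rwa [e] at h3
  filter_upwards [T.cof k, ae_all_iff.2 fun n : ℕ => T.cof ((2 * n : ℕ) : ℤ),
    ae_all_iff.2 fun n : ℕ => ((ae_all_iff.2 fun hn : 1 ≤ n => all n hn))] with z z1 z2 z3
  obtain ⟨m, -, hm1, hm2⟩ := cof_nat (s (ofComplex z)) hk
  rw [z1]
  refine hm2 ?_
  rw [← z2 m]
  exact z3 m (hm1 hk0)

/-- the two-point functions of the jets, if all Fourier coefficients vanish -/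
theorem two_pt (T : Dat Γ ρ D φ m u s) (h1 : ∀ᵐ z : ℍ, ((s z) univ).toReal = 1)
    (h2 : ∀ k : ℤ, Even k → k ≠ 0 → ∀ᵐ z ∂((volume : Measure ℂ).restrict UH), u k z = 0) :
    TwoPt ρ φ (fun n => 1 / m n) := by
  intro j k η hη
  have hu : ∀ l : ℤ, ∀ᵐ z ∂(volume.restrict UH), u l z = if l = 0 then 1 else 0 := by
    intro l
    by_cases hl : l = 0
    · subst hl
      have h3 : ∀ᵐ z ∂((volume : Measure ℂ).restrict UH),
          ((s (ofComplex z)) univ).toReal = 1 := by
        refine ae_UH ?_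
        filter_upwards [h1] with z hz
        rw [ofComplex_apply]
        exact hz
      filter_upwards [T.ue, h3] with z a1 a2
      rw [a1, a2, if_pos rfl, Complex.ofReal_one]
    · rcases Int.even_or_odd l with he | ho
      · filter_upwards [h2 l he hl] with z a1
        rw [a1, if_neg hl]
      · filter_upwards [T.odd l ho] with z a1
        rw [a1, if_neg hl]
  have h4 := (T.lim.lim j k).test (ζ := η) hη
  have e1 : ∫ z, η z * ((-1) ^ j * u (j + k) z) = P j k * ∫ z, η z := by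
    rw [← integral_const_mul]
    refine integral_congr_ae ?_
    have h5 := (ae_restrict_iff' isOpen_UH.measurableSet).1 (hu (j + k))
    filter_upwards [h5] with z hz
    by_cases hzU : z ∈ UH
    · rw [hz hzU]
      unfold P
      split_ifs <;> ring
    · rw [image_eq_zero_of_notMem_tsupport fun hh => hzU (hη.sub hh)]
      ring
  rw [e1] at h4
  refine h4.congr fun n => ?_
  refine integral_congr_ae (Eventually.of_forall fun z => ?_)
  beta_reduce
  by_cases hzU : z ∈ UH
  · have hE := fun l => E_congr isOpen_UH (a := aR ρ) (a' := wt (gw ρ)) (fun z hz => wt_aR hz)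
      (fun n => 1 / m n) (fun n z => (φ n (ofComplex z) : ℂ)) l n z hzU
    rw [hE j, hE k]
  · rw [image_eq_zero_of_notMem_tsupport fun hh => hzU (hη.sub hh)]
    ring

end

end ONE
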