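import Pool.Agent.ONE.Lim

/-!
The correlation of the squares at two points, in negative curvature: the lower bound.
-/

open Complex MeasureTheory Filter Topology Set
open UpperHalfPlane hiding I
open scoped ContDiff MatrixGroups ProbabilityTheory

namespace ONE

open QE QE.NC NFP NFP.BND

noncomputable section

variable {Γ : Subgroup SL(2, ℝ)} {ρ : ℍ → ℝ} {D : Set ℍ} {φ : ℕ → ℍ → ℝ} {m : ℕ → ℝ}

/-- the hypotheses -/
structure Hyp (Γ : Subgroup SL(2, ℝ)) (ρ : ℍ → ℝ) (D : Set ℍ) (φ : ℕ → ℍ → ℝ) (m : ℕ → ℝ) :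
    Prop where
  fac : Fac Γ ρ
  neg : ∀ z, 0 < lapR ρ z
  meas : MeasurableSet D
  dom : IsFundamentalDomain Γ D (volume : Measure ℍ)
  eig : Berry.REigenSeq Γ ρ φ m
  smooth : ∀ n, ContDiffOn ℝ ∞ (fun w : ℂ => φ n (ofComplex w)) {w | 0 < w.im}
  norm : ∀ n, Berry.rAvg ρ D (fun z => φ n z ^ 2) = 1

theorem Hyp.comp (H : Hyp Γ ρ D φ m) {t : ℕ → ℕ} (ht : Tendsto t atTop atTop) :
    Hyp Γ ρ D (fun n => φ (t n)) (fun n => m (t n)) :=
  ⟨H.fac, H.neg, H.meas, H.dom, reig_comp H.eig ht, fun _ => H.smooth _, fun _ => H.norm _⟩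

theorem Hyp.rc (H : Hyp Γ ρ D φ m) : Continuous ρ := continuous_of_smooth H.fac.smooth

theorem Hyp.pc (H : Hyp Γ ρ D φ m) (n : ℕ) : Continuous (φ n) := continuous_of_smooth (H.smooth n)

theorem Hyp.geo [Countable Γ] (H : Hyp Γ ρ D φ m) : Berry.Geo Γ ρ D :=
  geo_of H.meas H.dom H.fac.cpt H.rc H.fac.inv

/-- the uniform distribution on `D` -/
abbrev nu (ρ : ℍ → ℝ) (D : Set ℍ) : Measure ℍ := ProbabilityTheory.cond (Berry.area ρ) D

theorem Hyp.prob [Countable Γ] (H : Hyp Γ ρ D φ m) : IsProbabilityMeasure (nu ρ D) :=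
  ProbabilityTheory.cond_isProbabilityMeasure_of_finite (Berry.area_ne_zero H.geo)
    (Berry.area_ne_top H.geo)

theorem Hyp.int [Countable Γ] (H : Hyp Γ ρ D φ m) {f : ℍ → ℝ} (hf : Continuous f)
    (hfi : ∀ γ ∈ Γ, ∀ z, f (γ • z) = f z) : Integrable f (nu ρ D) := by
  have := H.prob
  obtain ⟨C, hC⟩ := Berry.bdd_of_cocompact hf hfi H.fac.cpt
  exact Integrable.of_bound hf.aestronglyMeasurable C (Eventually.of_forall fun z => hC z)

theorem Hyp.int_area [Countable Γ] (H : Hyp Γ ρ D φ m) {f : ℍ → ℝ}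
    (hf : IntegrableOn f D (Berry.area ρ)) : Integrable f (nu ρ D) := by
  unfold nu ProbabilityTheory.cond
  exact hf.smul_measure (ENNReal.inv_ne_top.2 (Berry.area_ne_zero H.geo))

/-- almost everywhere statements -/
theorem Hyp.ae [Countable Γ] (H : Hyp Γ ρ D φ m) {P : ℍ → Prop} (h : ∀ᵐ z ∂(nu ρ D), P z) :
    ∀ᵐ z : ℍ, z ∈ D → P z := by
  have hm : Measurable fun z : ℍ => ENNReal.ofReal (Real.exp (2 * ρ z)) :=
    ENNReal.measurable_ofReal.comp
      (Real.continuous_exp.comp (continuous_const.mul H.rc)).measurable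
  unfold nu ProbabilityTheory.cond at h
  have hc : (Berry.area ρ D)⁻¹ ≠ 0 := ENNReal.inv_ne_zero.2 (Berry.area_ne_top H.geo)
  rw [Measure.ae_ennreal_smul_measure_iff hc, ae_restrict_iff' H.meas] at h
  unfold Berry.area at h
  rw [ae_withDensity_iff hm] at h
  filter_upwards [h] with z hz
  refine hz ?_
  rw [ne_eq, ENNReal.ofReal_eq_zero, not_le]
  exact Real.exp_pos _

/-- the correlation of the squares at two points, with a weight -/
def corr (ρ : ℍ → ℝ) (D : Set ℍ) (φ : ℍ → ℝ) (m : ℝ) (w : ℍ → ℝ) (x y : ℂ) : ℝ :=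
  ∫ p, w p.1 * (Berry.rWave ρ φ m x p ^ 2 * Berry.rWave ρ φ m y p ^ 2) ∂(Berry.rFrameProb ρ D)

theorem corr_eq (φ : ℍ → ℝ) (m : ℝ) (w : ℍ → ℝ) (x y : ℂ) : corr ρ D φ m w x y
    = ∫ p, w p.1 * (Berry.rWave ρ φ m ((![x, x, y, y] : Fin 4 → ℂ) 0) p
          * Berry.rWave ρ φ m ((![x, x, y, y] : Fin 4 → ℂ) 1) p
          * Berry.rWave ρ φ m ((![x, x, y, y] : Fin 4 → ℂ) 2) p
          * Berry.rWave ρ φ m ((![x, x, y, y] : Fin 4 → ℂ) 3) p) ∂(Berry.rFrameProb ρ D) := by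
  unfold corr
  refine integral_congr_ae (Eventually.of_forall fun p => ?_)
  simp only [Matrix.cons_val_zero, Matrix.cons_val_one, Matrix.cons_val]
  ring

theorem resK_two (x y : ℂ) : 1 ≤ resK ![x, x, y, y] := by
  have h1 : resK ![x, x, y, y] = 2 + Berry.waveK (x + x - y - y) := by
    unfold resK
    simp only [Matrix.cons_val_zero, Matrix.cons_val_one, Matrix.cons_val]
    have e1 : x + y - x - y = 0 := by ring
    rw [e1, Berry.waveK_zero]
    ring
  have h2 := (abs_le.1 (Berry.waveK_abs_le (x + x - y - y))).1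
  rw [h1]
  linarith

/-- a positive lower bound for a weight -/
theorem exists_low {w : ℍ → ℝ} (hF : Fac Γ ρ) (hw : Continuous w) (hw0 : ∀ z, 0 < w z)
    (hwi : ∀ γ ∈ Γ, ∀ z, w (γ • z) = w z) : ∃ c : ℝ, 0 < c ∧ ∀ z, c ≤ w z := by
  obtain ⟨B, hB⟩ := Berry.bdd_of_cocompact (f := fun z => 1 / w z)
    (continuous_const.div hw fun z => (hw0 z).ne') (fun γ hγ z => by rw [hwi γ hγ z]) hF.cpt
  have hB1 : 0 < |B| + 1 := by positivity
  refine ⟨1 / (|B| + 1), by positivity, fun z => ?_⟩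
  have h1 : 1 / w z ≤ |B| + 1 := by
    have := (le_abs_self _).trans (hB z)
    have h2 := le_abs_self B
    linarith
  rw [div_le_iff₀ (hw0 z)] at h1
  rw [div_le_iff₀ hB1]
  linarith

/-- an unbounded sequence has a subsequence which tends to infinity -/
theorem exists_unbdd {k : ℕ → ℝ} (h : ¬ ∃ B, ∀ n, k n ≤ B) :
    ∃ t : ℕ → ℕ, StrictMono t ∧ Tendsto (fun n => k (t n)) atTop atTop := by
  have h1 : ∀ N : ℕ, ∃ᶠ n in atTop, (N : ℝ) ≤ k n := by
    intro N hN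
    refine h ?_
    have h2 : ∀ᶠ n in atTop, k n ≤ N := by
      filter_upwards [hN] with n hn
      exact (not_le.1 hn).le
    obtain ⟨B, hB⟩ := (Filter.isBoundedUnder_of_eventually_le h2).bddAbove_range
    exact ⟨B, fun n => hB ⟨n, rfl⟩⟩
  obtain ⟨t, ht, htn⟩ := extraction_forall_of_frequently h1
  exact ⟨t, ht, tendsto_atTop_mono htn tendsto_natCast_atTop_atTop⟩

/-- **a bound for the correlation of the squares bounds the fourth moments** -/
theorem bdd_four [Countable Γ] (H : Hyp Γ ρ D φ m) {w : ℍ → ℝ} (hw : Continuous w)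
    (hw0 : ∀ z, 0 < w z) (hwi : ∀ γ ∈ Γ, ∀ z, w (γ • z) = w z) {x y : ℂ} {C : ℝ}
    (hC : ∀ n, corr ρ D (φ n) (m n) w x y ≤ C) :
    ∃ B : ℝ, ∀ n, Berry.rAvg ρ D (fun z => φ n z ^ 4) ≤ B := by
  by_contra hcon
  obtain ⟨t, ht, hk⟩ := exists_unbdd hcon
  have H' := H.comp ht.tendsto_atTop
  obtain ⟨c, hc, hcw⟩ := exists_low H.fac hw hw0 hwi
  have h1 := infty_closed Γ ρ D (fun n => φ (t n)) (fun n => m (t n)) inferInstance H'.fac H'.meas
    H'.dom H'.eig H'.smooth H'.norm hk w hw hwi ![x, x, y, y]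
  have hR := resK_two x y
  set R := resK ![x, x, y, y] with hRdef
  have h2 : ∀ n, c * Berry.rAvg ρ D (fun z => φ (t n) z ^ 4)
      ≤ Berry.rAvg ρ D (fun z => w z * φ (t n) z ^ 4) := by
    intro n
    unfold Berry.rAvg
    rw [← integral_const_mul]
    refine integral_mono ?_ ?_ fun z => ?_
    · exact (H.int (f := fun z => φ (t n) z ^ 4) ((H.pc _).pow 4) fun γ hγ z => by
        rw [H.eig.invariant _ γ hγ]).const_mul c
    · exact H.int (f := fun z => w z * φ (t n) z ^ 4) (hw.mul ((H.pc _).pow 4)) fun γ hγ z => by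
        rw [hwi γ hγ, H.eig.invariant _ γ hγ]
    · exact mul_le_mul_of_nonneg_right (hcw z) (by positivity)
  have h3 := h1.eventually (lt_mem_nhds (show -(c / 6) < (0 : ℝ) by linarith))
  have h4 := hk.eventually_gt_atTop (max 1 (6 * C / c))
  obtain ⟨n, hn1, hn2⟩ := (h3.and h4).exists
  rw [← corr_eq] at hn1
  set κ := Berry.rAvg ρ D (fun z => φ (t n) z ^ 4) with hκ
  set W := Berry.rAvg ρ D (fun z => w z * φ (t n) z ^ 4) with hW
  have hκ1 : 1 < κ := lt_of_le_of_lt (le_max_left _ _) hn2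
  have hκ2 : 6 * C / c < κ := lt_of_le_of_lt (le_max_right _ _) hn2
  rw [lt_div_iff₀ (by linarith)] at hn1
  rw [div_lt_iff₀ hc] at hκ2
  have h5 : c * κ ≤ W := h2 n
  have h6 := hC (t n)
  have h7 : W / 3 ≤ W / 3 * R := by
    have : 0 ≤ W / 3 := by nlinarith
    nlinarith
  nlinarith

/-- the data along a subsequence -/
theorem exists_sub [Countable Γ] (H : Hyp Γ ρ D φ m)
    (hB : ∃ B : ℝ, ∀ n, Berry.rAvg ρ D (fun z => φ n z ^ 4) ≤ B) :
    ∃ (r : ℕ → ℕ) (N : ℕ) (u : ℤ → ℂ → ℂ) (s : ProbabilityTheory.Kernel ℍ S1), StrictMono r ∧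
      (∀ z, IsFiniteMeasure (s z)) ∧
      Semiclassical ρ (fun n => φ (r n)) (fun n => m (r n)) ((Berry.area ρ) ⊗ₘ s) ∧
      BND.Dat Γ ρ D (fun n => φ (r (n + N))) (fun n => m (r (n + N))) u s := by
  obtain ⟨r, μ, hr, hμ⟩ := exist_closed Γ ρ D φ m inferInstance H.fac H.meas H.dom H.eig H.smooth
    H.norm
  have H' := H.comp hr.tendsto_atTop
  obtain ⟨N, u, s, -, -, hμe, T⟩ := exists_dat inferInstance H'.fac H'.meas H'.dom H'.eig H'.smooth
    (by obtain ⟨B, hB⟩ := hB; exact ⟨B, fun n => hB _⟩) hμ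
  exact ⟨r, N, u, s, hr, T.fin, hμe ▸ hμ, T⟩

/-- the limits along such a subsequence -/
theorem sub_lim [Countable Γ] (H : Hyp Γ ρ D φ m)
    (hB : ∃ B : ℝ, ∀ n, Berry.rAvg ρ D (fun z => φ n z ^ 4) ≤ B) {N : ℕ} {u : ℤ → ℂ → ℂ}
    {s : ProbabilityTheory.Kernel ℍ S1} (hf : ∀ z, IsFiniteMeasure (s z))
    (hS : Semiclassical ρ φ m ((Berry.area ρ) ⊗ₘ s))
    (T : BND.Dat Γ ρ D (fun n => φ (n + N)) (fun n => m (n + N)) u s)
    {w : ℍ → ℝ} (hw : Continuous w) (hwi : ∀ γ ∈ Γ, ∀ z, w (γ • z) = w z) (x y : ℂ) :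
    Tendsto (fun n => Berry.rAvg ρ D (fun z => w z * φ n z ^ 2)) atTop
        (𝓝 (Berry.rAvg ρ D (fun z => w z * ((s z) univ).toReal))) ∧
    Tendsto (fun n => corr ρ D (φ n) (m n) w x y
        - (Berry.rAvg ρ D (fun z => w z * dirWick (s z) ![x, x, y, y])
          + (Berry.rAvg ρ D (fun z => w z * φ n z ^ 4)
            - 3 * Berry.rAvg ρ D (fun z => w z * (s z univ).toReal ^ 2)) / 3
              * resK ![x, x, y, y])) atTop (𝓝 0) ∧
    ((∀ z, 0 ≤ w z) → ∀ ε > 0, ∀ᶠ n in atTop,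
      3 * Berry.rAvg ρ D (fun z => w z * (s z univ).toReal ^ 2) - ε
        ≤ Berry.rAvg ρ D (fun z => w z * φ n z ^ 4)) := by
  refine ⟨?_, ?_, fun hw0 ε hε => ?_⟩
  · rw [← tendsto_add_atTop_iff_nat N]
    exact (mass T hw hwi).2
  · rw [← tendsto_add_atTop_iff_nat N]
    refine (T.main fourVar_closed NFP.glob w hw hwi ![x, x, y, y]).congr fun n => ?_
    rw [corr_eq]
  · exact pos_closed Γ ρ D φ m s inferInstance H.fac H.neg H.meas H.dom H.eig H.smooth hB hf hS w hw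
      hw0 hwi ε hε

/-- the Cauchy-Schwarz inequality -/
theorem cs {μ : Measure ℍ} {w g q : ℍ → ℝ} (hw0 : ∀ z, 0 ≤ w z)
    (i1 : Integrable (fun z => w z * g z ^ 2) μ) (i2 : Integrable (fun z => w z * g z * q z) μ)
    (i3 : Integrable (fun z => w z * q z ^ 2) μ) :
    (∫ z, w z * g z * q z ∂μ) ^ 2 ≤ (∫ z, w z * g z ^ 2 ∂μ) * ∫ z, w z * q z ^ 2 ∂μ := by
  have hq : ∀ x : ℝ, 0 ≤ (∫ z, w z * g z ^ 2 ∂μ) * (x * x)
      + (-2 * ∫ z, w z * g z * q z ∂μ) * x + ∫ z, w z * q z ^ 2 ∂μ := by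
    intro x
    have h1 : 0 ≤ ∫ z, w z * (x * g z - q z) ^ 2 ∂μ :=
      integral_nonneg fun z => mul_nonneg (hw0 z) (sq_nonneg _)
    have e : ∫ z, w z * (x * g z - q z) ^ 2 ∂μ = (∫ z, w z * g z ^ 2 ∂μ) * (x * x)
      + (-2 * ∫ z, w z * g z * q z ∂μ) * x + ∫ z, w z * q z ^ 2 ∂μ := by
      have e1 : (fun z => w z * (x * g z - q z) ^ 2) = fun z => (x * x) * (w z * g z ^ 2)
          + (-2 * x) * (w z * g z * q z) + w z * q z ^ 2 := by
        funext z; ring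
      have j1 : Integrable (fun z => (x * x) * (w z * g z ^ 2)) μ := i1.const_mul _
      have j2 : Integrable (fun z => (-2 * x) * (w z * g z * q z)) μ := i2.const_mul _
      have j12 : Integrable (fun z => (x * x) * (w z * g z ^ 2)
          + (-2 * x) * (w z * g z * q z)) μ := j1.add j2
      rw [e1, integral_add j12 i3, integral_add j1 j2, integral_const_mul, integral_const_mul]
      ring
    rw [← e]
    exact h1
  have := discrim_le_zero hq
  unfold discrim at this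
  nlinarith

/-- **The lower bound for the correlation of the squares**, in negative curvature. -/
theorem corr_lower [Countable Γ] (H : Hyp Γ ρ D φ m) {w g : ℍ → ℝ} (hw : Continuous w)
    (hw0 : ∀ z, 0 < w z) (hwi : ∀ γ ∈ Γ, ∀ z, w (γ • z) = w z) (hg : Continuous g)
    (hgi : ∀ γ ∈ Γ, ∀ z, g (γ • z) = g z) (x y : ℂ) {ε : ℝ} (hε : 0 < ε) :
    ∀ᶠ n in atTop, (1 + 2 * Berry.waveK (x - y) ^ 2)
        * Berry.rAvg ρ D (fun z => w z * g z * φ n z ^ 2) ^ 2 - ε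
      ≤ Berry.rAvg ρ D (fun z => w z * g z ^ 2) * corr ρ D (φ n) (m n) w x y := by
  by_contra hcon
  rw [Filter.not_eventually] at hcon
  obtain ⟨t, ht, htn⟩ := extraction_of_frequently_atTop hcon
  simp only [not_le] at htn
  have hP := H.prob
  set K := Berry.waveK (x - y) with hK
  set A := Berry.rAvg ρ D (fun z => w z * g z ^ 2) with hA
  have hc1 : 0 ≤ 1 + 2 * K ^ 2 := by positivity
  have iwg : Integrable (fun z => w z * g z ^ 2) (nu ρ D) :=
    H.int (f := fun z => w z * g z ^ 2) (hw.mul (hg.pow 2)) fun γ hγ z => by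
      rw [hwi γ hγ, hgi γ hγ]
  have iw4 : ∀ n, Integrable (fun z => w z * (φ n z ^ 2) ^ 2) (nu ρ D) := fun n =>
    H.int (f := fun z => w z * (φ n z ^ 2) ^ 2) (hw.mul (((H.pc n).pow 2).pow 2)) fun γ hγ z => by
      rw [hwi γ hγ, H.eig.invariant n γ hγ]
  have iwgp : ∀ n, Integrable (fun z => w z * g z * φ n z ^ 2) (nu ρ D) := fun n =>
    H.int (f := fun z => w z * g z * φ n z ^ 2) ((hw.mul hg).mul ((H.pc n).pow 2)) fun γ hγ z => by
      rw [hwi γ hγ, hgi γ hγ, H.eig.invariant n γ hγ]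
  have ip2 : ∀ n, Integrable (fun z => φ n z ^ 2) (nu ρ D) := fun n =>
    H.int (f := fun z => φ n z ^ 2) ((H.pc n).pow 2) fun γ hγ z => by
      rw [H.eig.invariant n γ hγ]
  have hA0 : 0 ≤ A := integral_nonneg fun z => mul_nonneg (hw0 z).le (sq_nonneg _)
  rcases hA0.eq_or_lt with h0 | h0
  · -- the weight vanishes
    have h1 := htn 0
    have h2 := cs (μ := nu ρ D) (fun z => (hw0 z).le) iwg (iwgp (t 0)) (iw4 (t 0))
    have h3 : (∫ z, w z * g z ^ 2 ∂(nu ρ D)) = 0 := h0.symm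
    rw [h3, zero_mul] at h2
    have h4 : Berry.rAvg ρ D (fun z => w z * g z * φ (t 0) z ^ 2) = 0 := by
      have h5 : (∫ z, w z * g z * φ (t 0) z ^ 2 ∂(nu ρ D)) ^ 2 = 0 :=
        le_antisymm h2 (sq_nonneg _)
      exact pow_eq_zero_iff (two_ne_zero) |>.1 h5
    rw [← h0, zero_mul, h4] at h1
    simp only [ne_eq, OfNat.ofNat_ne_zero, not_false_eq_true, zero_pow, mul_zero, zero_sub] at h1
    linarith
  -- the correlations are bounded along the subsequence
  obtain ⟨B₀, hB₀⟩ := Berry.bdd_of_cocompact (f := fun z => w z * g z) (hw.mul hg)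
    (fun γ hγ z => by rw [hwi γ hγ, hgi γ hγ]) H.fac.cpt
  have hb : ∀ n, |Berry.rAvg ρ D (fun z => w z * g z * φ n z ^ 2)| ≤ B₀ := by
    intro n
    have h1 := H.norm n
    unfold Berry.rAvg at h1 ⊢
    calc |∫ z, w z * g z * φ n z ^ 2 ∂(nu ρ D)| ≤ ∫ z, |w z * g z * φ n z ^ 2| ∂(nu ρ D) :=
          abs_integral_le_integral_abs
      _ ≤ ∫ z, B₀ * φ n z ^ 2 ∂(nu ρ D) := by
          refine integral_mono (iwgp n).abs ((ip2 n).const_mul _) fun z => ?_
          beta_reduce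
          rw [abs_mul, abs_of_nonneg (sq_nonneg (φ n z))]
          exact mul_le_mul_of_nonneg_right (hB₀ z) (sq_nonneg _)
      _ = B₀ := by rw [integral_const_mul, h1, mul_one]
  have hC : ∀ n, corr ρ D (φ (t n)) (m (t n)) w x y ≤ (1 + 2 * K ^ 2) * B₀ ^ 2 / A := by
    intro n
    rw [le_div_iff₀ h0]
    have h1 := htn n
    have h2 : Berry.rAvg ρ D (fun z => w z * g z * φ (t n) z ^ 2) ^ 2 ≤ B₀ ^ 2 :=
      sq_le_sq' (abs_le.1 (hb (t n))).1 (abs_le.1 (hb (t n))).2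
    have h3 := mul_le_mul_of_nonneg_left h2 hc1
    rw [mul_comm]
    linarith
  have H1 := H.comp ht.tendsto_atTop
  obtain ⟨B, hB⟩ := bdd_four H1 hw hw0 hwi hC
  obtain ⟨r, N, u, s, hr, hf, hS, T⟩ := exists_sub H1 ⟨B, hB⟩
  have H2 := H1.comp hr.tendsto_atTop
  obtain ⟨l1, l2, l3⟩ := sub_lim H2 ⟨B, fun n => hB (r n)⟩ hf hS T hw hwi x y
  obtain ⟨l4, -, -⟩ := sub_lim H2 ⟨B, fun n => hB (r n)⟩ hf hS T (hw.mul hg)
    (fun γ hγ z => by simp only [Pi.mul_apply]; rw [hwi γ hγ, hgi γ hγ]) x y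
  simp only [Pi.mul_apply] at l4
  -- the limits
  have hR := resK_two x y
  set R := resK ![x, x, y, y] with hRdef
  have js1 : Integrable (fun z => (s z univ).toReal) (nu ρ D) := by
    have := H2.int_area (mass T (w := fun _ => 1) continuous_const (fun _ _ _ => rfl)).1
    simpa only [one_mul] using this
  have js2 : Integrable (fun z => w z * (s z univ).toReal ^ 2) (nu ρ D) :=
    H2.int_area (T.int_w hw hwi (T.psq NFP.glob))
  have jwg : Integrable (fun z => w z * g z * (s z univ).toReal) (nu ρ D) :=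
    H2.int_area (mass T (w := fun z => w z * g z) (hw.mul hg)
      (fun γ hγ z => by rw [hwi γ hγ, hgi γ hγ])).1
  have jwi : Integrable (fun z => w z * dirWick (s z) ![x, x, y, y]) (nu ρ D) :=
    H2.int_area (T.int_w hw hwi (T.wick_int fourVar_closed NFP.glob _))
  set S2 := Berry.rAvg ρ D (fun z => w z * (s z univ).toReal ^ 2) with hS2
  set S1' := Berry.rAvg ρ D (fun z => w z * g z * (s z univ).toReal) with hS1
  have k1 : S1' ^ 2 ≤ A * S2 := cs (μ := nu ρ D) (fun z => (hw0 z).le) iwg jwg js2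
  have k2 : (1 + 2 * K ^ 2) * S2 ≤ Berry.rAvg ρ D (fun z => w z * dirWick (s z) ![x, x, y, y]) := by
    rw [hS2]
    unfold Berry.rAvg
    rw [← integral_const_mul]
    refine integral_mono (js2.const_mul _) jwi fun z => ?_
    have := hf z
    have h1 := dirWick_ge (s z) x y
    have h2 := mul_le_mul_of_nonneg_left h1 (hw0 z).le
    beta_reduce
    rw [← hK] at h2
    linarith
  set G := Berry.rAvg ρ D (fun z => w z * dirWick (s z) ![x, x, y, y]) with hG
  -- the contradiction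
  have hAR : 0 < A * R + 1 := by nlinarith
  have e1 := l3 (fun z => (hw0 z).le) (ε / (A * R + 1)) (by positivity)
  have e2 := l2.eventually (lt_mem_nhds (show -(ε / (4 * A)) < (0 : ℝ) by
    have : 0 < ε / (4 * A) := by positivity
    linarith))
  have e3 : Tendsto (fun n => (1 + 2 * K ^ 2) * Berry.rAvg ρ D
      (fun z => w z * g z * φ (t (r n)) z ^ 2) ^ 2) atTop (𝓝 ((1 + 2 * K ^ 2) * S1' ^ 2)) :=
    (l4.pow 2).const_mul _
  have e4 := e3.eventually (gt_mem_nhds (show (1 + 2 * K ^ 2) * S1' ^ 2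
    < (1 + 2 * K ^ 2) * S1' ^ 2 + ε / 4 by linarith))
  obtain ⟨n, ⟨n1, n2⟩, n3⟩ := ((e1.and e2).and e4).exists
  have n4 := htn (r n)
  set c := corr ρ D (φ (t (r n))) (m (t (r n))) w x y with hc
  set b := (1 + 2 * K ^ 2) * Berry.rAvg ρ D (fun z => w z * g z * φ (t (r n)) z ^ 2) ^ 2 with hbdef
  set k := Berry.rAvg ρ D (fun z => w z * φ (t (r n)) z ^ 4) with hk
  have n5 : -(ε / (A * R + 1)) / 3 * R ≤ (k - 3 * S2) / 3 * R := by
    have : -(ε / (A * R + 1)) ≤ k - 3 * S2 := by linarith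
    have h1 : (0 : ℝ) ≤ R := by linarith
    nlinarith
  have n6 : A * (ε / (A * R + 1) / 3 * R) ≤ ε / 3 := by
    have h1 : A * R / (A * R + 1) ≤ 1 := by
      rw [div_le_one hAR]; linarith
    calc A * (ε / (A * R + 1) / 3 * R) = (A * R / (A * R + 1)) * (ε / 3) := by ring
      _ ≤ 1 * (ε / 3) := mul_le_mul_of_nonneg_right h1 (by positivity)
      _ = ε / 3 := one_mul _
  have n7 : A * (ε / (4 * A)) = ε / 4 := by field_simp
  have n8 : (1 + 2 * K ^ 2) * S2 - ε / (A * R + 1) / 3 * R - ε / (4 * A) ≤ c := by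
    have h1 : -(ε / (A * R + 1)) / 3 * R = -(ε / (A * R + 1) / 3 * R) := by ring
    linarith
  have n9 := mul_le_mul_of_nonneg_left n8 hA0
  have n10 : (1 + 2 * K ^ 2) * S1' ^ 2 ≤ (1 + 2 * K ^ 2) * (A * S2) :=
    mul_le_mul_of_nonneg_left k1 hc1
  have n11 : A * ((1 + 2 * K ^ 2) * S2 - ε / (A * R + 1) / 3 * R - ε / (4 * A))
      = (1 + 2 * K ^ 2) * (A * S2) - A * (ε / (A * R + 1) / 3 * R) - A * (ε / (4 * A)) := by ring
  rw [n11, n7] at n9
  linarith

end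

end ONE
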