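import Pool.Agent.BWM.C44
import Pool.Agent.ONE.Fin

/-!
# One number decides the moments of order four: closed surfaces of negative curvature

Let `Γ ⊂ SL(2, ℝ)` be countable with compact quotient `Γ \ ℍ` (fundamental domain `D`), with a metric
`e^{2ρ} (dx² + dy²) / y²` of negative curvature `- e^{-2ρ} (1 + y² Δ ρ)`. Let `φₙ` be real smooth
`Γ`-invariant Laplace eigenfunctions of this metric, normalised in `L²`, with eigenvalues `mₙ² → ∞`.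
Let `Fₙ(x)` be `φₙ` near a uniform random point, in a uniform random frame, at distances `x / mₙ`.

* **One number.** Let `Tₙ = ∑ cᵢ Fₙ(xᵢ)` be one linear statistic, with distinct points `xᵢ` and at
  least two coefficients `cᵢ ≠ 0` (for instance an increment `Fₙ(x) - Fₙ(y)`), and
  `τ² = ∑ cᵢ cⱼ K(xᵢ - xⱼ)` its variance under the random monochromatic wave; let `y ≠ z`. The
  following are equivalent: `E Tₙ⁴ → 3 τ⁴`; `E Fₙ(y)² Fₙ(z)² → 1 + 2 K(y - z)²`; the sequence is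
  quantum ergodic and the means of `φₙ⁴` tend to `3`; all mixed moments of order at most four of
  `Fₙ` tend to those of the random monochromatic wave; the same over every region of the surface and
  in every fixed direction.
* **The lower bounds.** For every linear statistic `Tₙ` and all continuous `Γ`-invariant functions
  `w > 0` and `g`, `liminf (avg (w g²) E (w Tₙ⁴) - 3 τ⁴ (avg (w g φₙ²))²) ≥ 0`. In particular
  (`T = F(0)`, `w = g = 1`) the limit inferior of the means of `φₙ⁴` is at least `3`.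
* The same for `E (w Fₙ(x)² Fₙ(y)²)`, with `1 + 2 K(x - y)²` instead of `3 τ⁴`.
* If the means of `φₙ⁴` tend to `3`, then `φₙ²` is equidistributed on the surface.
-/

open MeasureTheory UpperHalfPlane MatrixGroups Berry Filter Topology
open scoped ContDiff

theorem ONE.result_seq
    (Γ : Subgroup SL(2, ℝ)) [Countable Γ] (ρ : ℍ → ℝ)
    (hρ : ContDiffOn ℝ ∞ (fun w : ℂ => ρ (ofComplex w)) {w | 0 < w.im})
    (hρΓ : ∀ γ ∈ Γ, ∀ z, ρ (γ • z) = ρ z)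
    (hneg : ∀ z : ℍ, 0 < 1 + z.im ^ 2 * Laplacian.laplacian (fun w : ℂ => ρ (ofComplex w)) z)
    (D : Set ℍ) (hDm : MeasurableSet D) (hD : IsFundamentalDomain Γ D (volume : Measure ℍ))
    (hK : ∃ K : Set ℍ, IsCompact K ∧ ∀ z, ∃ γ ∈ Γ, γ • z ∈ K)
    (φ : ℕ → ℍ → ℝ) (m : ℕ → ℝ) (hφ : REigenSeq Γ ρ φ m)
    (hs : ∀ n, ContDiffOn ℝ ∞ (fun w : ℂ => φ n (ofComplex w)) {w | 0 < w.im})
    (hn : ∀ n, rAvg ρ D (fun z => φ n z ^ 2) = 1) :
    (∀ (r : ℕ) (c : Fin r → ℝ) (x : Fin r → ℂ), Function.Injective x →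
      (∃ i j, i ≠ j ∧ c i ≠ 0 ∧ c j ≠ 0) → ∀ y z : ℂ, y ≠ z → List.TFAE [
        Tendsto (fun n => ∫ p, (∑ i, c i * rWave ρ (φ n) (m n) (x i) p) ^ 4 ∂(rFrameProb ρ D))
          atTop (𝓝 (3 * (∑ i, ∑ j, c i * c j * waveK (x i - x j)) ^ 2)),
        Tendsto (fun n => ∫ p, rWave ρ (φ n) (m n) y p ^ 2 * rWave ρ (φ n) (m n) z p ^ 2
          ∂(rFrameProb ρ D)) atTop (𝓝 (1 + 2 * waveK (y - z) ^ 2)),
        QE.QuantumErgodic ρ φ m ∧ Tendsto (fun n => rAvg ρ D fun z => φ n z ^ 4) atTop (𝓝 3),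
        RGaussUpToFour ρ D φ m,
        RLocalGauss ρ φ m]) ∧
    (∀ w g : ℍ → ℝ, Continuous w → (∀ z, 0 < w z) → (∀ γ ∈ Γ, ∀ z, w (γ • z) = w z) →
      Continuous g → (∀ γ ∈ Γ, ∀ z, g (γ • z) = g z) →
      ∀ (r : ℕ) (c : Fin r → ℝ) (x : Fin r → ℂ), ∀ ε > 0, ∀ᶠ n in atTop,
        3 * (∑ i, ∑ j, c i * c j * waveK (x i - x j)) ^ 2
            * rAvg ρ D (fun z => w z * g z * φ n z ^ 2) ^ 2 - ε
          ≤ rAvg ρ D (fun z => w z * g z ^ 2)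
            * ∫ p, w p.1 * (∑ i, c i * rWave ρ (φ n) (m n) (x i) p) ^ 4 ∂(rFrameProb ρ D)) ∧
    (∀ w g : ℍ → ℝ, Continuous w → (∀ z, 0 < w z) → (∀ γ ∈ Γ, ∀ z, w (γ • z) = w z) →
      Continuous g → (∀ γ ∈ Γ, ∀ z, g (γ • z) = g z) →
      ∀ x y : ℂ, ∀ ε > 0, ∀ᶠ n in atTop,
        (1 + 2 * waveK (x - y) ^ 2) * rAvg ρ D (fun z => w z * g z * φ n z ^ 2) ^ 2 - ε
          ≤ rAvg ρ D (fun z => w z * g z ^ 2)
            * ∫ p, w p.1 * (rWave ρ (φ n) (m n) x p ^ 2 * rWave ρ (φ n) (m n) y p ^ 2)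
              ∂(rFrameProb ρ D)) ∧
    (Tendsto (fun n => rAvg ρ D (fun z => φ n z ^ 4)) atTop (𝓝 3) →
      ∀ f : ℍ → ℝ, Continuous f → (∀ γ ∈ Γ, ∀ z, f (γ • z) = f z) →
        Tendsto (fun n => rAvg ρ D (fun z => f z * φ n z ^ 2)) atTop (𝓝 (rAvg ρ D f))) := by
  have H : ONE.Hyp Γ ρ D φ m := ⟨⟨hρ, hρΓ, hK⟩, hneg, hDm, hD, hφ, hs, hn⟩
  exact ⟨fun r c x hx hc y z hyz => ONE.tfae_final H hx hc hyz,
    QE.NC.final Γ ρ hρ hρΓ hneg D hDm hD hK φ m hφ hs hn,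
    fun w g hw hw0 hwi hg hgi x y ε hε => ONE.corr_lower H hw hw0 hwi hg hgi x y hε,
    fun h4 _ hf hfi => QE.NC.mass hρ hρΓ hneg hDm hD hK hφ hs hn h4 hf hfi⟩
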