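import Pool.Agent.ONE.Circ

/-!
# MP_4fa179_mp, ONE NUMBER: a statement (module ONE_INF)

`Jk k v = ∫ cos (Re (e^{it} v)) e^{-ikt} dt` (file `Circ.lean`), a value of a Bessel function times a
phase.
-/

open Complex MeasureTheory Filter Topology Set

namespace ONE

noncomputable section

/-- INF: the function `|∑ᵢ cᵢ e^{i Re (xᵢ conj w)}|²` on the circle has infinitely many Fourier
coefficients different from zero.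

Proof. (1) For all `v` and `k`, `Jk (2 k) v = 2π (-1)^k (v/2)^{2k} / (2k)! (1 + e k v)` with
`|e k v| ≤ exp (|v/2|²) / (2k + 1)`: for `v ≠ 0` by `Jk_eq` (Circ) and `hasSum_cos` (Bes; `Fk (2k) r` is
its integral): `Fk (2k) r = 2π (-1)^k ∑_b (-1)^b (r/2)^{2b+2k} / ((b+2k)! b!)`, and
`(2k)! / ((b+2k)! b!) ≤ 1 / ((2k+1) b!)` for `b ≥ 1`; for `v = 0` and `k ≥ 1` both sides are zero
(`Jk (2k) 0 = ∫ e^{-2ikt} dt`, `int_exp`).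
(2) Suppose that the sums vanish for all `k ≥ N`. Among the pairs `(i, j)` with `cᵢ cⱼ ≠ 0` let
`(i₀, j₀)` be one with `|xᵢ - xⱼ|` maximal, `v₀ = x_{i₀} - x_{j₀}`; `v₀ ≠ 0`. Multiply the sum by
`(2k)! / (2π (-1)^k (v₀/2)^{2k})`: with `z_{ij} = ((xᵢ - xⱼ) / v₀)²`, `|z_{ij}| ≤ 1` when `cᵢ cⱼ ≠ 0`,
`0 = ∑_{i,j} cᵢ cⱼ z_{ij}^k (1 + e k (xᵢ - xⱼ))`, so `∑_{i,j} cᵢ cⱼ z_{ij}^k → 0` as `k → ∞` (the terms
with `cᵢ cⱼ = 0` are zero), and so its Cesàro means tend to `0` (`Filter.Tendsto.cesaro`). For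
`|z| ≤ 1`, `z ≠ 1` the Cesàro means of `z^k` tend to `0` (`|∑_{k<M} z^k| ≤ 2 / |z - 1|`), for `z = 1`
they are `1`. So `∑_{(i,j) : z_{ij} = 1} cᵢ cⱼ = 0`.
(3) `z_{ij} = 1` and `cᵢ cⱼ ≠ 0` imply `(i, j) = (i₀, j₀)` or `(j₀, i₀)`: `xᵢ - xⱼ = ± v₀`; say
`xᵢ - xⱼ = v₀` and `d = xⱼ - x_{j₀}`, so `xᵢ - x_{i₀} = d`. Then `xᵢ - x_{j₀} = v₀ + d` and
`x_{i₀} - xⱼ = v₀ - d` have norm `≤ |v₀|` (all four coefficients are nonzero), and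
`|v₀ + d|² + |v₀ - d|² = 2 |v₀|² + 2 |d|²` (parallelogram law), so `d = 0`, `j = j₀`, `i = i₀` by
injectivity. Hence `2 c_{i₀} c_{j₀} = 0`, a contradiction. -/
def StmtInf : Prop :=
  ∀ (r : ℕ) (c : Fin r → ℝ) (x : Fin r → ℂ), Function.Injective x →
    (∃ i j, i ≠ j ∧ c i ≠ 0 ∧ c j ≠ 0) → ∀ N : ℕ, ∃ k : ℕ, N ≤ k ∧
      ∑ i, ∑ j, ((c i * c j : ℝ) : ℂ) * Jk (2 * k) (x i - x j) ≠ 0

end

end ONE
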